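import Pool.Agent.Helper49.PQ.Hom

/-!
# Regrading: Laurent polynomials in one element over a subfield
-/

set_option autoImplicit false
set_option linter.unusedSectionVars false

namespace Pool.Agent.Helper49.PQ

open Finset Pool.Agent.W559.Mg Pool.Agent.Helper46.AQ

section jm

variable {k K : Type} [Field k] [Field K] [Algebra k K] {L : Type} [AddCommGroup L]

/-- The powers of `s` are linearly independent over `F`. -/
def Ind (F : IntermediateField k K) (s : K) : Prop :=
  ∀ (S : Finset ℤ) (c : ℤ → F), ∑ d ∈ S, (c d : K) * s ^ d = 0 → ∀ d ∈ S, c d = 0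

/-- The monomials. -/
noncomputable def jM (K : Type) [Field K] (L : Type) [AddCommGroup L] (s : K) (hs : s ≠ 0) :
    Multiplicative (ℤ × L) →* ML K L where
  toFun e := mo e.toAdd.2 (s ^ e.toAdd.1)
  map_one' := by
    change mo (0 : L) (s ^ (0 : ℤ)) = 1
    rw [zpow_zero]
    rfl
  map_mul' a b := by
    rw [mo_mul, ← zpow_add₀ hs]
    rfl

/-- The embedding of the Laurent polynomials over `F`. -/
noncomputable def jm (F : IntermediateField k K) (s : K) (hs : s ≠ 0) (L : Type)
    [AddCommGroup L] : ML F (ℤ × L) →ₐ[k] ML K L :=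
  (AddMonoidAlgebra.lift F (ML K L) (ℤ × L) (jM K L s hs)).restrictScalars k

variable {F : IntermediateField k K} {s : K} {hs : s ≠ 0}

lemma jm_mo (e : ℤ × L) (a : F) : jm F s hs L (mo e a) = mo e.2 ((a : K) * s ^ e.1) := by
  unfold jm
  conv_lhs => unfold mo
  rw [AlgHom.restrictScalars_apply, AddMonoidAlgebra.lift_single]
  change a • mo e.2 (s ^ e.1) = _
  rw [Algebra.smul_def]
  have h1 : algebraMap F (ML K L) a = mo 0 (a : K) := rfl
  rw [h1, mo_mul, zero_add]

lemma coeff_jm (f : ML F (ℤ × L)) (m : L) (S : Finset ℤ)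
    (hS : ∀ e ∈ f.coeff.support, e.1 ∈ S) :
    (jm F s hs L f).coeff m = ∑ d ∈ S, (f.coeff (d, m) : K) * s ^ d := by
  classical
  conv_lhs => rw [eq_sum_mo f, map_sum, coeff_sum']
  have h1 : ∀ e ∈ f.coeff.support, (jm F s hs L (mo e (f.coeff e))).coeff m =
      ∑ d ∈ S, if e = (d, m) then (f.coeff (d, m) : K) * s ^ d else 0 := by
    intro e he
    rw [jm_mo, coeff_mo]
    by_cases h2 : e.2 = m
    · rw [if_pos h2, Finset.sum_eq_single e.1]
      · have h3 : e = (e.1, m) := Prod.ext rfl h2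
        rw [← h3, if_pos rfl]
      · intro d _ hd
        rw [if_neg]
        intro h3
        exact hd (by rw [h3])
      · intro h3
        exact absurd (hS e he) h3
    · rw [if_neg h2]
      symm
      refine Finset.sum_eq_zero fun d _ => ?_
      rw [if_neg]
      intro h3
      exact h2 (by rw [h3])
  rw [Finset.sum_congr rfl h1, Finset.sum_comm]
  refine Finset.sum_congr rfl fun d _ => ?_
  rw [Finset.sum_ite_eq']
  split_ifs with h2
  · rfl
  · rw [Finsupp.notMem_support_iff.1 h2, ZeroMemClass.coe_zero, zero_mul]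

lemma jm_inj (h : Ind F s) : Function.Injective (jm F s hs L) := by
  classical
  rw [injective_iff_map_eq_zero]
  intro f hf
  apply ml_ext
  rintro ⟨d, m⟩
  have h1 := coeff_jm (s := s) (hs := hs) f m (f.coeff.support.image fun e => e.1)
    fun e he => Finset.mem_image_of_mem _ he
  rw [hf, coeff_zero'] at h1
  have h2 := h _ (fun d => f.coeff (d, m)) h1.symm
  by_cases hd : d ∈ f.coeff.support.image fun e => e.1
  · rw [coeff_zero']
    exact h2 d hd
  · rw [coeff_zero']
    by_contra hcon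
    exact hd (Finset.mem_image.2 ⟨(d, m), Finsupp.mem_support_iff.2 hcon, rfl⟩)

/-- The elements whose homogeneous components are in the subalgebra. -/
noncomputable def gI (F : IntermediateField k K) (s : K) (hs : s ≠ 0)
    (R : Subalgebra k (ML K L)) : Subalgebra k (ML F (ℤ × L)) where
  carrier := {g | ∀ e, jm F s hs L (mo e (g.coeff e)) ∈ R}
  mul_mem' := by
    intro f g hf hg e
    rw [coeff_mul_sum]
    have h1 : ∀ S : Finset (ℤ × L), mo e (∑ a ∈ S, f.coeff a * g.coeff (e - a)) =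
        ∑ a ∈ S, mo a (f.coeff a) * mo (e - a) (g.coeff (e - a)) := by
      classical
      intro S
      induction S using Finset.induction_on with
      | empty => rw [Finset.sum_empty, Finset.sum_empty, mo_zero]
      | insert a S ha ih =>
        rw [Finset.sum_insert ha, Finset.sum_insert ha, mo_add, ih, mo_mul, add_sub_cancel]
    rw [h1, map_sum]
    refine R.sum_mem fun a _ => ?_
    rw [map_mul]
    exact R.mul_mem (hf _) (hg _)
  add_mem' := by
    intro f g hf hg e
    rw [coeff_add', mo_add, map_add]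
    exact R.add_mem (hf e) (hg e)
  algebraMap_mem' := by
    classical
    intro r e
    rw [algebraMap_ML, coeff_mo]
    split_ifs with h
    · rw [← h, jm_mo]
      change mo (0 : L) (((algebraMap k F r : F) : K) * s ^ (0 : ℤ)) ∈ R
      rw [zpow_zero, mul_one]
      exact R.algebraMap_mem r
    · rw [mo_zero, map_zero]
      exact R.zero_mem

lemma mem_gI {R : Subalgebra k (ML K L)} {g : ML F (ℤ × L)} :
    g ∈ gI F s hs R ↔ ∀ e, jm F s hs L (mo e (g.coeff e)) ∈ R := Iff.rfl

lemma mo_mem_gI {R : Subalgebra k (ML K L)} {e : ℤ × L} {a : F} :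
    mo e a ∈ gI F s hs R ↔ jm F s hs L (mo e a) ∈ R := by
  classical
  constructor
  · intro h
    have h1 := h e
    rwa [coeff_mo_same] at h1
  · intro h e'
    rw [coeff_mo]
    split_ifs with h1
    · rw [← h1]
      exact h
    · rw [mo_zero, map_zero]
      exact R.zero_mem

lemma gI_map_le (R : Subalgebra k (ML K L)) : (gI F s hs R).map (jm F s hs L) ≤ R := by
  rintro _ ⟨g, hg, rfl⟩
  change jm F s hs L g ∈ R
  rw [eq_sum_mo g, map_sum]
  exact R.sum_mem fun e _ => hg e

/-- The subalgebra consists of Laurent polynomials in `s` and contains their components. -/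
def TG (F : IntermediateField k K) (s : K) (hs : s ≠ 0) (R : Subalgebra k (ML K L)) : Prop :=
  R ≤ (gI F s hs R).map (jm F s hs L)

/-- Homogeneous units. -/
def HU (F : IntermediateField k K) (s : K) (hs : s ≠ 0) (x : ML K L) : Prop :=
  ∃ (e : ℤ × L) (a : F), a ≠ 0 ∧ x = jm F s hs L (mo e a)

lemma HU.mul {x y : ML K L} (hx : HU F s hs x) (hy : HU F s hs y) : HU F s hs (x * y) := by
  obtain ⟨e, a, ha, rfl⟩ := hx
  obtain ⟨e', a', ha', rfl⟩ := hy
  exact ⟨e + e', a * a', mul_ne_zero ha ha', by rw [← map_mul, mo_mul]⟩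

lemma HU.one : HU F s hs (1 : ML K L) := ⟨0, 1, one_ne_zero, by
  rw [mo_one, map_one]⟩

lemma HU.pow {x : ML K L} (hx : HU F s hs x) (n : ℕ) : HU F s hs (x ^ n) := by
  induction n with
  | zero => rw [pow_zero]; exact HU.one
  | succ n ih => rw [pow_succ]; exact ih.mul hx

lemma HU.prod {J : Type} (S : Finset J) (x : J → ML K L) (h : ∀ j ∈ S, HU F s hs (x j)) :
    HU F s hs (∏ j ∈ S, x j) := by
  classical
  induction S using Finset.induction_on with
  | empty => rw [Finset.prod_empty]; exact HU.one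
  | insert a S ha ih =>
    rw [Finset.prod_insert ha]
    exact (h a (Finset.mem_insert_self _ _)).mul
      (ih fun j hj => h j (Finset.mem_insert_of_mem hj))

lemma HU.of {d : ℤ} {m : L} {a : K} (ha : a ≠ 0) (h : a / s ^ d ∈ F) :
    HU F s hs (mo m a) := by
  refine ⟨(d, m), ⟨a / s ^ d, h⟩, fun h0 => ?_, ?_⟩
  · have h1 : a / s ^ d = 0 := congrArg Subtype.val h0
    exact div_ne_zero ha (zpow_ne_zero _ hs) h1
  · rw [jm_mo]
    change _ = mo m (a / s ^ d * s ^ d)
    rw [div_mul_cancel₀ _ (zpow_ne_zero _ hs)]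

/-- Elements of a graded subalgebra. -/
lemma HU.mem_map {R : Subalgebra k (ML K L)} {x : ML K L} (hx : HU F s hs x) (h : x ∈ R) :
    x ∈ (gI F s hs R).map (jm F s hs L) := by
  obtain ⟨e, a, ha, rfl⟩ := hx
  exact ⟨mo e a, mo_mem_gI.2 h, rfl⟩

/-- The local criterion. -/
theorem tg_of_local (hI : Ind F s) (C : Subalgebra k (ML K L))
    (h : ∀ Q : Ideal C, Q.IsMaximal → ∃ (R : Subalgebra k (ML K L)) (x y : ML K L)
      (hx : x ∈ R) (hxC : x ∈ C) (hyC : y ∈ C), TG F s hs R ∧ HU F s hs x ∧ HU F s hs y ∧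
        C ≤ lc R x hx ∧ R ≤ lc C y hyC ∧ (⟨x, hxC⟩ : C) ∉ Q ∧ (⟨y, hyC⟩ : C) ∉ Q) :
    TG F s hs C := by
  classical
  intro f hf
  -- the element is a Laurent polynomial
  have hC : Nontrivial C := ⟨⟨0, 1, fun h0 => zero_ne_one (congrArg Subtype.val h0)⟩⟩
  have hran : ∃ g, jm F s hs L g = f := by
    obtain ⟨Q, hQ⟩ := Ideal.exists_maximal C
    obtain ⟨R, x, y, hx, hxC, hyC, hR, ⟨e, a, ha, rfl⟩, -, hCR, -⟩ := h Q hQ
    obtain ⟨n, hn⟩ := hCR hf
    obtain ⟨g, -, hg⟩ := hR hn
    refine ⟨mo (-e) a⁻¹ ^ n * g, ?_⟩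
    have hg' : jm F s hs L g = jm F s hs L (mo e a) ^ n * f := hg
    rw [map_mul, hg', ← mul_assoc, map_pow, ← mul_pow, ← map_mul, mul_comm (mo (-e) a⁻¹),
      mo_inv ha, map_one, one_pow, one_mul]
  obtain ⟨g, rfl⟩ := hran
  refine ⟨g, fun e => ?_, rfl⟩
  -- the ideal of denominators
  let I : Ideal C :=
    { carrier := {c | (c : ML K L) * jm F s hs L (mo e (g.coeff e)) ∈ C}
      add_mem' := fun {a b} ha hb => by
        change ((a : ML K L) + b) * _ ∈ C
        rw [add_mul]
        exact C.add_mem ha hb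
      zero_mem' := by
        change (0 : ML K L) * _ ∈ C
        rw [zero_mul]
        exact C.zero_mem
      smul_mem' := fun c a ha => by
        change ((c : ML K L) * a) * _ ∈ C
        rw [mul_assoc]
        exact C.mul_mem c.2 ha }
  have hItop : I = ⊤ := by
    by_contra hcon
    obtain ⟨Q, hQ, hIQ⟩ := Ideal.exists_le_maximal I hcon
    obtain ⟨R, x, y, hx, hxC, hyC, hR, ⟨ex, a, ha, rfl⟩, ⟨ey, b, hb, rfl⟩, hCR, hRC, hxQ, hyQ⟩ :=
      h Q hQ
    obtain ⟨n, hn⟩ := hCR hf
    obtain ⟨g', hg', hgg⟩ := hR hn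
    have h1 : g' = mo ex a ^ n * g := jm_inj (hs := hs) hI (by
      rw [map_mul, map_pow]
      exact hgg)
    have h2 := hg' (n • ex + e)
    rw [h1, mo_pow, coeff_mo_mul, add_sub_cancel_left, ← mo_mul, map_mul] at h2
    obtain ⟨m, hm⟩ := hRC h2
    have h3 : (⟨jm F s hs L (mo ey b), hyC⟩ : C) ^ m * (⟨jm F s hs L (mo ex a), hxC⟩ : C) ^ n ∈
        I := by
      change (jm F s hs L (mo ey b) ^ m * jm F s hs L (mo ex a) ^ n) * _ ∈ C
      rw [mul_assoc, ← map_pow (jm F s hs L) (mo ex a), mo_pow]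
      exact hm
    have h4 := hIQ h3
    rcases hQ.isPrime.mem_or_mem h4 with h5 | h5
    · exact hyQ (hQ.isPrime.mem_of_pow_mem _ h5)
    · exact hxQ (hQ.isPrime.mem_of_pow_mem _ h5)
  have h1 : (1 : C) ∈ I := by rw [hItop]; trivial
  change (1 : ML K L) * _ ∈ C at h1
  rwa [one_mul] at h1

end jm

end Pool.Agent.Helper49.PQ
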