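import Pool.Agent.Helper49.PQ.Grd6
import Pool.Agent.Helper49.PN.E3

/-!
# Regular models of the quotients of projective space
-/

set_option autoImplicit false
set_option linter.unusedSectionVars false

namespace Pool.Agent.Helper49.PQ

open Finset Pool.Agent.W559.Mg Cardinal Pool.Agent.Helper46.AQ Pool.Agent.Helper49.PN

variable {k K : Type} [Field k] [Field K] [Algebra k K] [DecidableEq K] {G : Type} [Group G]
  {ρ : G →* (K ≃ₐ[k] K)} {B : Subalgebra k K} {Φ : Finset K}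
  {K0 F : IntermediateField k K} {t : K} {n : ℕ}

/-- Regular models of the quotient in terms of the basic data. -/
theorem hasModel_of_base [Finite k] [Finite G] (hb : Base ρ B Φ n) {p : ℕ} [hp : Fact p.Prime]
    [CharP k p]
    (hG : ∀ P : Ideal B, P.IsPrime → (∃ (a : K) (ha : a ∈ Φ), (⟨a, hb.fam.mem a ha⟩ : B) ∉ P) →
      ¬ p ^ 2 ∣ Nat.card (Pool.Agent.Y824.G4.iner (actB hb) P))
    (hinj : ∀ γ, ρ γ = 1 → γ = 1) (h : Scl ρ Φ K0 F t) (ht : t ≠ 0) : HasModel F := by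
  obtain ⟨X, hX⟩ := exists_SY hb.fam
  let _ := X.fi
  let _ := X.di
  obtain ⟨L, _, dg, hNR⟩ := exists_nr X.ι
  have hTU := hNR.1
  have : IsDomain (ML K L) := NoZeroDivisors.to_isDomain _
  obtain ⟨d1, τ, h1, h2, h3, h4, h5⟩ := exists_tau (dg := dg) X.sys h ht
  have hτ : Tau ρ dg K0 t X.sys.pc d1 τ := ⟨h1, h2, h3, h4, h5⟩
  obtain ⟨D0, -⟩ := X.sys.pc.exists_chart (1 : Valuation K (WithZero (Multiplicative ℤ)))
  have hpf := pf_CF (dg := dg) hb X.sys h hτ ht D0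
  have hmf : MF (k := k) (K := F) (EE Φ X.A X.B') (CF F X.sys hτ)
      (fun D => ⟨HH D / HH D0, ratio_F X.sys h ht D0 D⟩) :=
    ⟨hpf, fun D => smooth_CF hb X.sys h hτ ht D (smooth_inv hb X.sys hX D hG hinj)⟩
  exact (nr_prod hNR).2 k F _ _ _ _ hmf

end Pool.Agent.Helper49.PQ
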