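import Pool.Agent.Helper49.PQ.Loc7
import Pool.Graph.R_seed8.Y824.G4.DESCG
import Pool.Graph.R_pool_sql_team_seeded_63374d34.N864.GT.Sm

/-!
# Smoothness of the invariants of the charts
-/

set_option autoImplicit false
set_option linter.unusedSectionVars false

namespace Pool.Agent.Helper49.PQ

open Finset Pool.Agent.W559.Mg Cardinal Pool.Agent.Helper46.AQ

section ft

open Pool.Agent.Y824.G4 Polynomial in
/-- The invariants of a finite group are of finite type. -/
theorem ft_inv {k A C : Type} [Field k] [CommRing A] [CommRing C] [Nontrivial C] [Algebra k A]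
    [Algebra k C]
    [Algebra A C] [IsScalarTower k A C] [hft : Algebra.FiniteType k C]
    (hinj : Function.Injective (algebraMap A C)) {G : Type} [Group G] [Finite G]
    (ρ : G →* (C ≃+* C)) (hA : ∀ x : C, (∀ g, ρ g x = x) → ∃ a, algebraMap A C a = x) :
    Algebra.FiniteType k A := by
  have : Fintype G := Fintype.ofFinite G
  have hint : Algebra.IsIntegral A C := by
    constructor
    intro x
    have h1 : PG ρ x ∈ Polynomial.lifts (algebraMap A C) := by
      rw [Polynomial.lifts_iff_coeff_lifts]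
      intro i
      obtain ⟨a, ha⟩ := hA ((PG ρ x).coeff i) fun g => PG_coeff ρ x i g
      exact ⟨a, ha⟩
    have hmon : (PG ρ x).Monic := by
      unfold PG
      exact Polynomial.monic_prod_of_monic _ _ fun g _ => Polynomial.monic_X_sub_C _
    obtain ⟨P, hP, -, hPm⟩ := Polynomial.lifts_and_degree_eq_and_monic h1 hmon
    refine ⟨P, hPm, ?_⟩
    rw [← Polynomial.eval_map, hP]
    unfold PG
    rw [Polynomial.eval_prod]
    refine Finset.prod_eq_zero (Finset.mem_univ (1 : G)) ?_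
    rw [Polynomial.eval_sub, Polynomial.eval_X, Polynomial.eval_C, map_one]
    exact sub_self x
  have hft' : Algebra.FiniteType A C := Algebra.FiniteType.of_restrictScalars_finiteType k A C
  have hfin : Module.Finite A C := Algebra.IsIntegral.finite
  exact ⟨fg_of_fg_of_fg k A C hft.1 hfin.1 hinj⟩

end ft

variable {k K : Type} [Field k] [Field K] [Algebra k K] [DecidableEq K] {G : Type} [Group G]
  {ρ : G →* (K ≃ₐ[k] K)} {B : Subalgebra k K} {Φ : Finset K}
  {ι : Type} [Fintype ι] [DecidableEq ι] {A B' : ι → Finset K} {Ex : ι → ι → Prop}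
  {N : ℕ → ι → ℕ} {L : Type} [AddCommGroup L] {dg : L ≃+ (ι → ℤ)}

section rC

variable {n : ℕ} (hb : Base ρ B Φ n) (hPC : PC ρ B Φ A B') (D : Tp Φ A B')

/-- The action on a chart. -/
noncomputable def rC (dg : L ≃+ (ι → ℤ)) : G →* (CC dg hPC D ≃+* CC dg hPC D) where
  toFun γ :=
    { toFun := fun f => ⟨ga ρ L γ f, ga_mem_CC hb hPC γ f.2⟩
      invFun := fun f => ⟨ga ρ L γ⁻¹ f, ga_mem_CC hb hPC γ⁻¹ f.2⟩
      left_inv := fun f => Subtype.ext (by
        change ga ρ L γ⁻¹ (ga ρ L γ f) = f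
        rw [← ga_mul, inv_mul_cancel, ga_one])
      right_inv := fun f => Subtype.ext (by
        change ga ρ L γ (ga ρ L γ⁻¹ f) = f
        rw [← ga_mul, mul_inv_cancel, ga_one])
      map_mul' := fun f g => Subtype.ext (map_mul (ga ρ L γ) _ _)
      map_add' := fun f g => Subtype.ext (map_add (ga ρ L γ) _ _) }
  map_one' := RingEquiv.ext fun f => Subtype.ext (ga_one (f : ML K L))
  map_mul' γ γ' := RingEquiv.ext fun f => Subtype.ext (ga_mul γ γ' (f : ML K L))

/-- The action on the algebra. -/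
noncomputable def actB (hb : Base ρ B Φ n) : G →* (B ≃+* B) where
  toFun γ :=
    { toFun := fun f => ⟨ρ γ f, hb.stable γ f f.2⟩
      invFun := fun f => ⟨ρ γ⁻¹ f, hb.stable γ⁻¹ f f.2⟩
      left_inv := fun f => Subtype.ext (by
        change ρ γ⁻¹ (ρ γ (f : K)) = f
        rw [← AlgEquiv.mul_apply, ← map_mul, inv_mul_cancel, map_one, AlgEquiv.one_apply])
      right_inv := fun f => Subtype.ext (by
        change ρ γ (ρ γ⁻¹ (f : K)) = f
        rw [← AlgEquiv.mul_apply, ← map_mul, mul_inv_cancel, map_one, AlgEquiv.one_apply])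
      map_mul' := fun f g => Subtype.ext (map_mul (ρ γ) _ _)
      map_add' := fun f g => Subtype.ext (map_add (ρ γ) _ _) }
  map_one' := RingEquiv.ext fun f => Subtype.ext (by
    change ρ 1 (f : K) = f
    rw [map_one, AlgEquiv.one_apply])
  map_mul' γ γ' := RingEquiv.ext fun f => Subtype.ext (by
    change ρ (γ * γ') (f : K) = ρ γ (ρ γ' (f : K))
    rw [map_mul, AlgEquiv.mul_apply])

lemma rC_coe (γ : G) (f : CC dg hPC D) : ((rC hb hPC D dg γ f : CC dg hPC D) : ML K L) =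
    ga ρ L γ f := rfl

end rC

section main

variable {n : ℕ} (hb : Base ρ B Φ n) (hS : Sys ρ B Φ A B' Ex N)
  (hcmp : ∀ q : ℕ × ℕ × ℕ × ℕ, q.1 < Φ.card → q.2.1 < Φ.card → q.2.2.1 < Φ.card →
      q.2.2.2 < Φ.card → Cmp Ex (dq N q))
  (D : Tp Φ A B')

include hcmp in
/-- The inertia groups. -/
theorem inertia_CC [IsDomain (ML K L)] [Finite G] {p : ℕ} [hp : Fact p.Prime] [CharP k p]
    (hG : ∀ P : Ideal B, P.IsPrime → (∃ (a : K) (ha : a ∈ Φ), (⟨a, hb.fam.mem a ha⟩ : B) ∉ P) →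
      ¬ p ^ 2 ∣ Nat.card (Pool.Agent.Y824.G4.iner (actB hb) P))
    (hinj : ∀ γ, ρ γ = 1 → γ = 1)
    (Q : Ideal (CC dg hS.pc D)) (hQ : Q.IsPrime) :
    (∀ g, (∀ b, rC hb hS.pc D dg g b - b ∈ Q) → g = 1) ∨
      ∃ (p : ℕ) (τ : G), p.Prime ∧ τ ^ p = 1 ∧
        (∀ g, (∀ b, rC hb hS.pc D dg g b - b ∈ Q) → g ∈ Subgroup.zpowers τ) ∧
        ∃ b, ∀ c, ∃ s, s ∉ Q ∧ (rC hb hS.pc D dg τ b - b) ∣ s * (rC hb hS.pc D dg τ c - c) := by
  obtain ⟨V, hV⟩ := exists_cen (dg := dg) hS.pc D Q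
  obtain ⟨e, he1, he2⟩ := hS.en _ (vK k L V.valuation) hV.pos
  have he : EnV B Φ A B' N (vK k L V.valuation) e := ⟨hV.pos, he1, he2⟩
  let ρ' := rC hb hS.pc D dg
  have hinr : ∀ g, (∀ b, ρ' g b - b ∈ Q) → Inr ρ (CC dg hS.pc D) V.valuation g := by
    intro g hg f hf
    exact (hV.lt _).2 (hg ⟨f, hf⟩)
  let I := Pool.Agent.Y824.G4.iner ρ' Q
  have hI : ∀ g, g ∈ I ↔ ∀ b, ρ' g b - b ∈ Q := fun g => Iff.rfl
  have hPG : IsPGroup p I := by
    rintro ⟨g, hg⟩
    obtain ⟨r, hr⟩ := exists_pow_eq_one (p := p) hb (hV.inr hb hS he (hinr g ((hI g).1 hg)))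
    refine ⟨r, Subtype.ext ?_⟩
    exact hinj _ hr
  obtain ⟨r, hr⟩ := IsPGroup.iff_card.1 hPG
  let ψ : B →+* CC dg hS.pc D :=
    { toFun := fun b => ⟨mo 0 b, (mo_mem_CC hS.pc).2 fun Γ _ v hv => by
        rw [map_zero, nm_zero]
        exact hv.1.1 _ b.2⟩
      map_one' := rfl
      map_mul' := fun a b => Subtype.ext (by
        change mo (0 : L) ((a : K) * b) = mo 0 (a : K) * mo 0 (b : K)
        rw [mo_mul, add_zero])
      map_zero' := Subtype.ext (mo_zero 0)
      map_add' := fun a b => Subtype.ext (mo_add 0 (a : K) b) }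
  let P : Ideal B := Q.comap ψ
  have hP : P.IsPrime := Ideal.comap_isPrime ψ Q
  have hIP : I ≤ Pool.Agent.Y824.G4.iner (actB hb) P := by
    intro g hg b
    change ψ (actB hb g b - b) ∈ Q
    have h1 : ψ (actB hb g b - b) = ρ' g (ψ b) - ψ b := by
      rw [map_sub]
      congr 1
      exact Subtype.ext (ga_mo g (0 : L) (b : K)).symm
    rw [h1]
    exact hg (ψ b)
  have hdvd : Nat.card I ∣ Nat.card (Pool.Agent.Y824.G4.iner (actB hb) P) :=
    Subgroup.card_dvd_of_le hIP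
  have hr1 : r ≤ 1 := by
    by_contra hcon
    obtain ⟨a, ha, ha1⟩ := exists_mx (v := vK k L V.valuation) hb.fam.ne
    rw [hV.pos.2] at ha1
    refine hG P hP ⟨a, ha, fun hcon' => ?_⟩ (dvd_trans ?_ hdvd)
    · have h1 := (hV.lt (ψ ⟨a, hb.fam.mem a ha⟩)).2 hcon'
      exact h1.ne ha1.symm
    rw [hr]
    exact pow_dvd_pow p (by omega)
  interval_cases r
  · left
    intro g hg
    rw [pow_zero, Subgroup.card_eq_one] at hr
    have h1 : g ∈ I := (hI g).2 hg
    rwa [hr, Subgroup.mem_bot] at h1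
  · rw [pow_one] at hr
    by_cases htriv : ∀ g, (∀ b, ρ' g b - b ∈ Q) → g = 1
    · exact Or.inl htriv
    right
    have hcyc : IsCyclic I := isCyclic_of_prime_card hr
    obtain ⟨⟨τ, hτI⟩, hτ⟩ := hcyc.exists_generator
    have hτp : τ ^ p = 1 := by
      have h1 : (⟨τ, hτI⟩ : I) ^ Nat.card I = 1 := pow_card_eq_one'
      rw [hr] at h1
      exact congrArg Subtype.val h1
    have hgen : ∀ g ∈ I, g ∈ Subgroup.zpowers τ := by
      intro g hg
      obtain ⟨m, hm⟩ := Subgroup.mem_zpowers_iff.1 (hτ ⟨g, hg⟩)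
      exact Subgroup.mem_zpowers_iff.2 ⟨m, congrArg Subtype.val hm⟩
    have hτ1 : ρ τ ≠ 1 := by
      intro h1
      have h2 : τ = 1 := hinj τ h1
      refine htriv fun g hg => ?_
      have h3 := hgen g ((hI g).2 hg)
      rw [h2, Subgroup.zpowers_one_eq_bot, Subgroup.mem_bot] at h3
      exact h3
    refine ⟨p, τ, hp.out, hτp, fun g hg => hgen g ((hI g).2 hg), ?_⟩
    obtain ⟨b, hbC, hb'⟩ := princ hb hS hcmp hV he (hinr τ ((hI τ).1 hτI)) hτ1 hτp hp.out.pos
    refine ⟨⟨b, hbC⟩, fun c => ?_⟩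
    obtain ⟨s, hs, hsW, u, hu, hsu⟩ := hb' c c.2
    refine ⟨⟨s, hs⟩, fun hsQ => ((hV.lt ⟨s, hs⟩).2 hsQ).ne hsW, ⟨u, hu⟩, Subtype.ext ?_⟩
    change s * (ga ρ L τ c - c) = (ga ρ L τ b - b) * u
    rw [hsu, mul_comm]

include hb hcmp in
/-- The invariants of the charts are smooth. -/
theorem smooth_inv [IsDomain (ML K L)] [Finite G] {p : ℕ} [hp : Fact p.Prime] [CharP k p]
    [PerfectField k]
    (hG : ∀ P : Ideal B, P.IsPrime → (∃ (a : K) (ha : a ∈ Φ), (⟨a, hb.fam.mem a ha⟩ : B) ∉ P) →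
      ¬ p ^ 2 ∣ Nat.card (Pool.Agent.Y824.G4.iner (actB hb) P))
    (hinj : ∀ γ, ρ γ = 1 → γ = 1) :
    Algebra.Smooth k ↥(CC dg hS.pc D ⊓ Fx ρ L) := by
  have hsm := smooth_CC (dg := dg) hb hS D
  have hreg := regular_CC (dg := dg) hb hS D
  let ρ' := rC hb hS.pc D dg
  let C := CC dg hS.pc D
  let A' : Subalgebra k (ML K L) := C ⊓ Fx ρ L
  have hle : A' ≤ C := inf_le_left
  let _ : Algebra A' C := (Subalgebra.inclusion hle).toRingHom.toAlgebra
  have _ : IsScalarTower k A' C := IsScalarTower.of_algebraMap_eq fun r => rfl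
  have hcoe : ∀ a : A', ((algebraMap A' C a : C) : ML K L) = a := fun a => rfl
  have hinjA : Function.Injective (algebraMap A' C) := fun a b hab => by
    apply Subtype.ext
    rw [← hcoe a, ← hcoe b, hab]
  have hFx : ∀ f : ML K L, f ∈ Fx ρ L ↔ ∀ g, ga ρ L g f = f := by
    intro f
    constructor
    · intro hf g
      refine ml_ext fun m => ?_
      rw [ga_coeff]
      exact hf g m
    · intro hf g m
      have h1 := congrArg (fun f => AddMonoidAlgebra.coeff f m) (hf g)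
      have h2 : (ga ρ L g f).coeff m = f.coeff m := h1
      rwa [ga_coeff] at h2
  have hinv : ∀ x : C, (∀ g, ρ' g x = x) ↔ ∃ a : A', algebraMap A' C a = x := by
    intro x
    constructor
    · intro hx
      exact ⟨⟨x, x.2, (hFx _).2 fun g => congrArg Subtype.val (hx g)⟩, rfl⟩
    · rintro ⟨a, rfl⟩ g
      exact Subtype.ext ((hFx _).1 a.2.2 g)
  have hftC : Algebra.FiniteType k C := inferInstance
  have hft : Algebra.FiniteType k A' := ft_inv hinjA ρ' fun x hx => (hinv x).1 hx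
  have hnA : IsNoetherianRing A' := Algebra.FiniteType.isNoetherianRing k A'
  have hregA : IsRegularRing A' := by
    refine Pool.Agent.Y824.G4.t_DESCG C G ρ' ?_ A' (algebraMap A' C) hinjA hinv ?_
    · intro g hg
      refine hinj g (eq_one_of_fix hb fun s hs => ?_)
      have h1 : mo (0 : L) s ∈ C := by
        change mo (0 : L) s ∈ CC dg hS.pc D
        rw [mo_mem_CC]
        intro Γ _ v hv
        rw [map_zero, nm_zero]
        exact hv.1.1 _ (hb.fam.mem _ hs)
      have h2 := congrArg Subtype.val (hg ⟨_, h1⟩)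
      have h3 : mo (0 : L) (ρ g s) = mo 0 s := by
        rw [← ga_mo]
        exact h2
      exact mo_inj h3
    · exact fun Q hQ => inertia_CC (dg := dg) hb hS hcmp D hG hinj Q hQ
  exact Pool.Agent.N864.GT.smooth_of_regular

end main

end Pool.Agent.Helper49.PQ
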