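import Pool.Agent.Helper49.PQ.Grd1
import Pool.Agent.Helper49.PQ.Fin1

/-!
# The charts are graded
-/

set_option autoImplicit false
set_option linter.unusedSectionVars false

namespace Pool.Agent.Helper49.PQ

open Finset Pool.Agent.W559.Mg Cardinal Pool.Agent.Helper46.AQ

variable {k K : Type} [Field k] [Field K] [Algebra k K] [DecidableEq K] {G : Type} [Group G]
  {ρ : G →* (K ≃ₐ[k] K)} {B : Subalgebra k K} {Φ : Finset K}
  {ι : Type} [Fintype ι] [DecidableEq ι] {A B' : ι → Finset K} {Ex : ι → ι → Prop}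
  {N : ℕ → ι → ℕ} {L : Type} [AddCommGroup L] {dg : L ≃+ (ι → ℤ)}
  {K0 : IntermediateField k K} {t : K} {ht : t ≠ 0}

/-- The degrees of the functions. -/
lemma exists_deg (hS : Sys ρ B Φ A B' Ex N) (ht : t ≠ 0) (hΦ : HF K0.toSubfield t 1 Φ) :
    ∃ δ : Option (ι ⊕ ι) → ℤ, δ none = EE Φ A B' ∧
      (∀ i, δ (some (Sum.inl i)) = δ (some (Sum.inr i))) ∧
      ∀ (D : Tp Φ A B') j, hh D j / t ^ δ j ∈ K0 := by
  obtain ⟨δ, hδ⟩ := hS.hm K0.toSubfield t ht hΦ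
  have key : ∀ (j : Option (ι ⊕ ι)) (d : ℤ), HF K0.toSubfield t d (fm Φ A B' j) →
      ∀ D : Tp Φ A B', hh D j / t ^ ((EE Φ A B' : ℤ) * d) ∈ K0 := by
    intro j d hj D
    have h1 := hom_pow ht (hj.es ht (D.1 j)) (EE Φ A B' / D.1 j)
    have h2 : ((EE Φ A B' / (D.1 j : ℕ) : ℕ) : ℤ) * (((D.1 j : ℕ) : ℤ) * d) =
        (EE Φ A B' : ℤ) * d := by
      rw [← mul_assoc, ← Nat.cast_mul, Nat.div_mul_cancel (dvd_EE D j)]
    rw [h2] at h1
    exact h1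
  refine ⟨fun j => (EE Φ A B' : ℤ) * j.elim 1 (Sum.elim δ δ), ?_, fun i => rfl, ?_⟩
  · change (EE Φ A B' : ℤ) * 1 = _
    rw [mul_one]
  · rintro D (_ | i | i)
    · exact key none 1 hΦ D
    · exact key (some (Sum.inl i)) (δ i) (hδ i).1 D
    · exact key (some (Sum.inr i)) (δ i) (hδ i).2 D

section

variable (ht)

lemma hu_xz (m : ι → ℤ) : HU K0 t ht (xz K dg m) := by
  refine HU.of (d := 0) one_ne_zero ?_
  rw [zpow_zero, div_one]
  exact K0.one_mem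

lemma hu_sh (hΦ : HF K0.toSubfield t 1 Φ) {e : ℕ → K} (he : IsEn Φ e) (h0 : ∀ a ∈ Φ, a ≠ 0)
    {j : ℕ} (hj : j < Φ.card) : HU K0 t ht (sh dg N e j) :=
  HU.of (h0 _ (he.mem hj)) (hΦ _ (he.mem hj))

lemma hu_shi (hΦ : HF K0.toSubfield t 1 Φ) {e : ℕ → K} (he : IsEn Φ e) (h0 : ∀ a ∈ Φ, a ≠ 0)
    {j : ℕ} (hj : j < Φ.card) : HU K0 t ht (shi dg N e j) :=
  HU.of (inv_ne_zero (h0 _ (he.mem hj))) (hom_inv (K0 := K0.toSubfield) ht (hΦ _ (he.mem hj)))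

/-- The local model is graded. -/
lemma tg_model (hΦ : HF K0.toSubfield t 1 Φ) {e : ℕ → K} (he : IsEn Φ e) (h0 : ∀ a ∈ Φ, a ≠ 0)
    {J : Set ι} {R : Subalgebra k (ML K L)} (hR : Gn dg J N e Φ.card R)
    (hmin : ∀ R' : Subalgebra k (ML K L), Gn dg J N e Φ.card R' → R ≤ R') :
    TG K0 t ht R := by
  refine hmin _ ⟨fun i => ?_, fun i hi => ?_, fun j hj => ?_, fun j hj => ?_⟩
  · exact (hu_xz ht _).mem_map (hR.x i)
  · exact (hu_xz ht _).mem_map (hR.xi i hi)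
  · exact (hu_sh ht hΦ he h0 hj).mem_map (hR.s j hj)
  · exact (hu_shi ht hΦ he h0 hj).mem_map (hR.si j hj)

end

variable {n : ℕ} (hb : Base ρ B Φ n) (hS : Sys ρ B Φ A B' Ex N)

include hb hS in
/-- The charts are graded. -/
theorem tg_CC [IsDomain (ML K L)] (ht : t ≠ 0) (hI : Ind K0 t) (hΦ : HF K0.toSubfield t 1 Φ)
    (D : Tp Φ A B') : TG K0 t ht (CC dg hS.pc D) := by
  obtain ⟨c, hc⟩ := hS.la
  obtain ⟨δ, -, -, hδ⟩ := exists_deg hS ht hΦ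
  refine tg_of_local hI _ fun Q hQ => ?_
  obtain ⟨V, hV⟩ := exists_cen (dg := dg) hS.pc D Q
  obtain ⟨e, he1, he2⟩ := hS.en _ (vK k L V.valuation) hV.pos
  have he : EnV B Φ A B' N (vK k L V.valuation) e := ⟨hV.pos, he1, he2⟩
  obtain ⟨R, hm, hsm, hreg, hR, hmin, hle, heq⟩ := lc_eq hb hS hc hV he
  have hgd := gd_mem (dg := dg) (D := D) hS he.en {i | al A B' (vK k L V.valuation) i < 1}
  have hhz : (∏ j, hz dg c D j) ∈ CC dg hS.pc D :=
    (CC dg hS.pc D).prod_mem fun j _ => hz_mem hc hS.pc j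
  refine ⟨R, ∏ j, hz dg c D j, gd dg N e Φ.card {i | al A B' (vK k L V.valuation) i < 1}, hm, hhz,
    hgd, tg_model ht hΦ he.en hb.fam.n0 hR hmin, ?_, ?_, hle, ?_, ?_, ?_⟩
  · exact HU.prod _ _ fun j _ => HU.of (hh_ne D j) (hδ D j)
  · unfold gd
    refine HU.mul (HU.prod _ _ fun b hb' => ?_) (hu_xz ht _)
    unfold ph
    refine HU.prod _ _ fun j hj => hu_sh ht hΦ he.en hb.fam.n0 ?_
    have := Finset.mem_range.1 hj
    have := Finset.mem_range.1 hb'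
    omega
  · rw [heq]
    exact le_lc _ _ _
  · intro hcon
    have h1 := (hV.lt ⟨_, hhz⟩).2 hcon
    have hinv : (∏ j, hz dg c D j) * ∏ j, hzi dg c D j = 1 := by
      rw [← Finset.prod_mul_distrib]
      exact Finset.prod_eq_one fun j _ => hz_mul_hzi c D j
    have h2 := hV.one_of_inv hhz ((CC dg hS.pc D).prod_mem fun j _ => hzi_mem hc hS.pc j) hinv
    exact h1.ne h2
  · intro hcon
    have h1 := (hV.lt ⟨_, hgd⟩).2 hcon
    have h2 := hV.gd hS he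
    exact h1.ne h2

end Pool.Agent.Helper49.PQ
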