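import Pool.Agent.Helper49.PQ.PLA

/-!
# The atlas given by piecewise monomial functions
-/

set_option autoImplicit false
set_option linter.unusedSectionVars false

namespace Pool.Agent.Helper49.PQ

open Finset Pool.Agent.W559.Mg Pool.Agent.Helper46.AQ

variable {k K : Type} [Field k] [Field K] [Algebra k K] {G : Type} [Group G]
  {ι : Type} [Fintype ι] {ρ : G →* (K ≃ₐ[k] K)} {B : Subalgebra k K}
  {Φ : Finset K} {A B' : ι → Finset K} {L : Type} [AddCommGroup L] {dg : L ≃+ (ι → ℤ)} (hPC : PC ρ B Φ A B')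

section star

variable {Γ : Type} [LinearOrderedCommGroupWithZero Γ] {v : Valuation K Γ}

lemma star_aux {a b c : Γ} (ha1 : a ≤ 1) (hb1 : b ≤ 1) (hac : c ≤ a)
    (hbc : c ≤ b) (ha : a ≠ 0) (hb : b ≠ 0) (n : ℤ) : c ^ n.natAbs * (a / b) ^ n ≤ 1 := by
  have ha0 : (0 : Γ) < a := zero_lt_iff.2 ha
  have hb0 : (0 : Γ) < b := zero_lt_iff.2 hb
  rcases Int.natAbs_eq n with h | h
  · rw [h, zpow_natCast, Int.natAbs_natCast, ← mul_pow]
    refine pow_le_one' ?_ _
    rw [mul_div_assoc', div_le_one₀ hb0]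
    calc c * a ≤ b * 1 := mul_le_mul' hbc ha1
      _ = b := mul_one b
  · rw [h, zpow_neg, zpow_natCast, Int.natAbs_neg, Int.natAbs_natCast, ← inv_pow, ← mul_pow]
    refine pow_le_one' ?_ _
    rw [inv_div, mul_div_assoc', div_le_one₀ ha0]
    calc c * b ≤ a * 1 := mul_le_mul' hac hb1
      _ = a := mul_one a

lemma Vd.star {D : Tp Φ A B'} (h : Vd B v D) (D' : Tp Φ A B') (m : ι → ℤ) :
    v (HH D' / HH D) ^ (∑ i, (m i).natAbs) * v (uu D' m) ≤ v (uu D m) := by
  classical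
  set c := v (HH D' / HH D) with hc
  have hr1 : ∀ j, v (hh D' j / hh D j) ≤ 1 := by
    intro j
    have h0 : v (hh D j) ≠ 0 := (Valuation.ne_zero_iff _).2 (hh_ne D j)
    rw [map_div₀, div_le_one₀ (zero_lt_iff.2 h0), h.2 j]
    exact hh_le D' j
  have hprod : HH D' / HH D = ∏ j, (hh D' j / hh D j) := by
    unfold HH
    rw [Finset.prod_div_distrib]
  have hcr : ∀ j, c ≤ v (hh D' j / hh D j) := by
    intro j
    rw [hc, hprod, map_prod, ← Finset.mul_prod_erase _ _ (Finset.mem_univ j)]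
    calc v (hh D' j / hh D j) * ∏ x ∈ univ.erase j, v (hh D' x / hh D x)
        ≤ v (hh D' j / hh D j) * 1 :=
          mul_le_mul_right (Finset.prod_le_one' fun i _ => hr1 i) _
      _ = v (hh D' j / hh D j) := mul_one _
  have hr0 : ∀ j, v (hh D' j / hh D j) ≠ 0 := fun j =>
    (Valuation.ne_zero_iff _).2 (div_ne_zero (hh_ne D' j) (hh_ne D j))
  have huD : v (uu D m) ≠ 0 := (Valuation.ne_zero_iff _).2 (uu_ne D m)
  have key : c ^ (∑ i, (m i).natAbs) * (v (uu D' m) / v (uu D m)) ≤ 1 := by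
    have h1 : v (uu D' m) / v (uu D m) = ∏ i, (v (hh D' (some (Sum.inl i)) / hh D (some (Sum.inl i))) /
        v (hh D' (some (Sum.inr i)) / hh D (some (Sum.inr i)))) ^ m i := by
      unfold uu
      rw [map_prod, map_prod, ← Finset.prod_div_distrib]
      refine Finset.prod_congr rfl fun i _ => ?_
      rw [map_zpow₀, map_zpow₀, ← div_zpow, ← map_div₀, ← map_div₀]
      congr 2
      have := hh_ne D (some (Sum.inl i))
      have := hh_ne D (some (Sum.inr i))
      have := hh_ne D' (some (Sum.inl i))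
      have := hh_ne D' (some (Sum.inr i))
      field_simp
    rw [h1, ← Finset.prod_pow_eq_pow_sum, ← Finset.prod_mul_distrib]
    refine Finset.prod_le_one' fun i _ => ?_
    exact star_aux (hr1 _) (hr1 _) (hcr _) (hcr _) (hr0 _) (hr0 _) _
  rw [mul_div_assoc', div_le_one₀ (zero_lt_iff.2 huD)] at key
  exact key

end star

include hPC in
lemma gl_mo (D D' : Tp Φ A B') (m : L) (a : K) (h : mo m a ∈ CC dg hPC D') :
    ∃ n : ℕ, mo 0 (HH D' / HH D) ^ n * mo m a ∈ CC dg hPC D := by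
  set x := HH D' / HH D with hx
  have hx0 : x ≠ 0 := div_ne_zero (HH_ne _) (HH_ne _)
  set u := uu D' (dg m) with hu
  have hu0 : u ≠ 0 := uu_ne _ _
  have h1 : IsIntegral (RD B D') (a ^ EE Φ A B' / u) := by
    refine integral_RD hPC fun Γ _ v hv => ?_
    have h2 := (mo_mem_CC hPC).1 h Γ v hv
    have h3 : v u ≠ 0 := (Valuation.ne_zero_iff _).2 hu0
    rw [map_div₀, div_le_one₀ (zero_lt_iff.2 h3), map_pow, hu, hv.uu_eq]
    exact pow_le_pow_left' h2 _
  have hle : RD B D' ≤ lc (RD B D) x (div_mem_RD D D') := by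
    refine RD_le ?_ (fun D'' => ?_) ?_
    · exact (le_RD D).trans (le_lc _ _ _)
    · refine ⟨1, ?_⟩
      have h2 : x ^ 1 * (HH D'' / HH D') = HH D'' / HH D := by
        have := HH_ne D
        have := HH_ne D'
        rw [hx, pow_one]
        field_simp
      rw [h2]
      exact div_mem_RD D D''
    · refine ⟨1, ?_⟩
      have h2 : x ^ 1 * (hh D' none)⁻¹ = HH (sw D D') / HH D * (hh D none)⁻¹ := by
        have e1 := HH_ne D
        have e2 := hh_ne D none
        have e3 := hh_ne D' none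
        have e4 := HH_sw D D'
        rw [hx, pow_one]
        field_simp
        rw [← e4, mul_comm]
      rw [h2]
      exact (RD B D).mul_mem (div_mem_RD D _) (inv_mem_RD D)
  obtain ⟨n1, hn1⟩ := exists_pow_integral (RD B D') (RD B D) x hx0 (div_mem_RD D D')
    (fun r hr => hle hr) _ h1
  refine ⟨n1 + ∑ i, ((dg m) i).natAbs, ?_⟩
  set n2 := ∑ i, ((dg m) i).natAbs with hn2
  rw [mo_pow, mo_mul, smul_zero, zero_add, mo_mem_CC]
  intro Γ _ v hv
  have hvx : v x ≤ 1 := hv.RD_le _ (div_mem_RD D D')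
  have h2 : v (x ^ n1 * (a ^ EE Φ A B' / u)) ≤ 1 := val_of_integral hn1 hv.RD_le
  have h3 : v x ^ n2 * v u ≤ v (uu D (dg m)) := hv.star D' (dg m)
  have hE : EE Φ A B' ≠ 0 := EE_pos.ne'
  refine (pow_le_pow_iff_left₀ zero_le zero_le hE).1 ?_
  rw [← hv.uu_eq]
  refine le_trans ?_ h3
  have hvu : v u ≠ 0 := (Valuation.ne_zero_iff _).2 hu0
  calc v (x ^ (n1 + n2) * a) ^ EE Φ A B' = (v x ^ (n1 + n2)) ^ EE Φ A B' * v (a ^ EE Φ A B') := by
        rw [map_mul, map_pow, mul_pow, map_pow]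
    _ ≤ (v x ^ (n1 + n2)) * v (a ^ EE Φ A B') := by
        refine mul_le_mul_left ?_ _
        exact pow_le_of_le_one zero_le (pow_le_one' hvx _) hE
    _ = (v x ^ n2 * v u) * v (x ^ n1 * (a ^ EE Φ A B' / u)) := by
        have h4 : v (x ^ n1 * (a ^ EE Φ A B' / u)) = v x ^ n1 * (v (a ^ EE Φ A B') / v u) := by
          rw [map_mul, map_pow, map_div₀ v (a ^ EE Φ A B') u]
        rw [h4, pow_add]
        field_simp
    _ ≤ (v x ^ n2 * v u) * 1 := mul_le_mul_right h2 _
    _ = v x ^ n2 * v u := mul_one _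

include hPC in
/-- Gluing. -/
lemma gl_full (D D' : Tp Φ A B') (f : ML K L) (h : f ∈ CC dg hPC D') :
    ∃ n : ℕ, mo 0 (HH D' / HH D) ^ n * f ∈ CC dg hPC D := by
  classical
  have hx : mo 0 (HH D' / HH D) ∈ CC dg hPC D := by
    rw [mo_mem_CC]
    intro Γ _ v hv
    rw [map_zero, nm_zero]
    exact hv.RD_le _ (div_mem_RD D D')
  choose n hn using fun m => gl_mo hPC D D' m _ (gr_CC hPC D' f h m)
  refine ⟨f.coeff.support.sup n, ?_⟩
  have h1 : mo 0 (HH D' / HH D) ^ (f.coeff.support.sup n) * f =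
      ∑ m ∈ f.coeff.support, mo 0 (HH D' / HH D) ^ (f.coeff.support.sup n) * mo m (f.coeff m) := by
    rw [← Finset.mul_sum, ← eq_sum_mo f]
  rw [h1]
  refine (CC dg hPC D).sum_mem fun m hm => ?_
  obtain ⟨e, he⟩ := Nat.exists_eq_add_of_le (Finset.le_sup (f := n) hm)
  rw [he, add_comm, pow_add, mul_assoc]
  exact (CC dg hPC D).mul_mem ((CC dg hPC D).pow_mem hx _) (hn m)

end Pool.Agent.Helper49.PQ
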