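import Pool.Agent.Helper49.PQ.Grd2
import Pool.Agent.Helper49.PQ.PLB

/-!
# The quotient by the scalars
-/

set_option autoImplicit false
set_option linter.unusedSectionVars false

namespace Pool.Agent.Helper49.PQ

open Finset Pool.Agent.W559.Mg Cardinal Pool.Agent.Helper46.AQ

section ind

variable {k K : Type} [Field k] [Field K] [Algebra k K]

/-- The powers of a transcendental element are independent. -/
lemma ind_of_tr {K0 : IntermediateField k K} {t : K} (ht : t ≠ 0) (h : Transcendental K0 t) :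
    Ind K0 t := by
  classical
  intro S c hS d hd
  obtain ⟨N, hN⟩ : ∃ N : ℕ, ∀ d ∈ S, 0 ≤ d + N := by
    refine ⟨∑ d ∈ S, d.natAbs, fun d hd => ?_⟩
    have h1 := Finset.single_le_sum (f := fun d : ℤ => d.natAbs) (fun _ _ => Nat.zero_le _) hd
    have h1' : d.natAbs ≤ ∑ d ∈ S, d.natAbs := h1
    omega
  let P : Polynomial K0 := ∑ d ∈ S, Polynomial.monomial (d + N).toNat (c d)
  have hP : Polynomial.aeval t P = 0 := by
    have h1 : Polynomial.aeval t P = (∑ d ∈ S, (c d : K) * t ^ d) * t ^ (N : ℤ) := by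
      change Polynomial.aeval t (∑ d ∈ S, Polynomial.monomial (d + N).toNat (c d)) = _
      rw [map_sum, Finset.sum_mul]
      refine Finset.sum_congr rfl fun d hd => ?_
      rw [Polynomial.aeval_monomial, mul_assoc, ← zpow_add₀ ht]
      congr 1
      rw [← zpow_natCast, Int.toNat_of_nonneg (hN d hd)]
    rw [h1, hS, zero_mul]
  have hP0 : P = 0 := by
    by_contra hcon
    exact h ⟨P, hcon, hP⟩
  have h2 : P.coeff (d + N).toNat = c d := by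
    change (∑ d ∈ S, Polynomial.monomial (d + N).toNat (c d)).coeff _ = _
    rw [Polynomial.finset_sum_coeff, Finset.sum_eq_single d]
    · rw [Polynomial.coeff_monomial, if_pos rfl]
    · intro d' hd' hne
      rw [Polynomial.coeff_monomial, if_neg]
      intro h3
      have h4 := hN d hd
      have h5 := hN d' hd'
      omega
    · intro h3
      exact absurd hd h3
  rw [← h2, hP0, Polynomial.coeff_zero]

/-- Independence for powers. -/
lemma Ind.of_pow {K0 F : IntermediateField k K} {t τ : K} (ht : t ≠ 0) (h : Ind K0 t)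
    (hle : F ≤ K0) {d1 : ℤ} (hd : d1 ≠ 0) (hτ : τ / t ^ d1 ∈ K0) (hτ0 : τ ≠ 0) : Ind F τ := by
  classical
  intro S c hS d hd'
  set α : K0 := ⟨τ / t ^ d1, hτ⟩ with hα
  have hα0 : (α : K) ≠ 0 := div_ne_zero hτ0 (zpow_ne_zero _ ht)
  have hτα : ∀ d : ℤ, τ ^ d = (α : K) ^ d * t ^ (d1 * d) := by
    intro d
    change τ ^ d = (τ / t ^ d1) ^ d * t ^ (d1 * d)
    rw [zpow_mul, ← mul_zpow, div_mul_cancel₀ _ (zpow_ne_zero _ ht)]
  let c' : ℤ → K0 := fun e => (⟨c (e / d1), hle (c (e / d1)).2⟩ : K0) * α ^ (e / d1)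
  have hz : ∀ d : ℤ, ((α ^ d : K0) : K) = (α : K) ^ d := fun d =>
    map_zpow₀ (algebraMap K0 K) α d
  have hc' : ∀ d, c' (d1 * d) = (⟨c d, hle (c d).2⟩ : K0) * α ^ d := by
    intro d
    change (⟨c (d1 * d / d1), _⟩ : K0) * α ^ (d1 * d / d1) = _
    have h1 : d1 * d / d1 = d := Int.mul_ediv_cancel_left d hd
    simp only [h1]
  have h1 : ∑ e ∈ S.image (fun d => d1 * d), (c' e : K) * t ^ e = 0 := by
    rw [Finset.sum_image fun x _ y _ hxy => mul_left_cancel₀ hd hxy, ← hS]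
    refine Finset.sum_congr rfl fun d _ => ?_
    rw [hc', hτα]
    push_cast
    rw [hz]
    ring
  have h2 := h _ c' h1 (d1 * d) (Finset.mem_image_of_mem _ hd')
  rw [hc'] at h2
  rcases mul_eq_zero.1 h2 with h3 | h3
  · exact Subtype.ext (show (c d : K) = 0 from congrArg (Subtype.val : K0 → K) h3)
  · exfalso
    have h4 := congrArg (Subtype.val : K0 → K) h3
    rw [hz] at h4
    exact zpow_ne_zero _ hα0 h4

end ind

variable {k K : Type} [Field k] [Field K] [Algebra k K] [DecidableEq K] {G : Type} [Group G]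
  {ρ : G →* (K ≃ₐ[k] K)} {B : Subalgebra k K} {Φ : Finset K}
  {ι : Type} [Fintype ι] [DecidableEq ι] {A B' : ι → Finset K} {Ex : ι → ι → Prop}
  {N : ℕ → ι → ℕ} {L : Type} [AddCommGroup L] {dg : L ≃+ (ι → ℤ)}
  {K0 : IntermediateField k K} {t : K} {ht : t ≠ 0}

/-- The data for the quotient by the scalars. -/
structure Scl (ρ : G →* (K ≃ₐ[k] K)) (Φ : Finset K) (K0 F : IntermediateField k K) (t : K) :
    Prop where
  tΦ : t ∈ Φ
  tr : Transcendental K0 t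
  hΦ : HF K0.toSubfield t 1 Φ
  st : ∀ γ, ∀ a ∈ K0, ρ γ a ∈ K0
  F : ∀ a, a ∈ F ↔ a ∈ K0 ∧ ∀ γ, ρ γ a = a

variable {F : IntermediateField k K}

lemma Scl.act (h : Scl ρ Φ K0 F t) (hB : Fam ρ B Φ) (ht : t ≠ 0) (γ : G) {a : K} {d : ℤ}
    (ha : a / t ^ d ∈ K0) : ρ γ a / t ^ d ∈ K0 := by
  have h1 : ρ γ t / t ∈ K0 := by
    have h2 := h.hΦ _ (hB.st γ t h.tΦ)
    rw [zpow_one] at h2
    exact h2
  have h2 := h.st γ _ ha
  have h3 : ρ γ a / t ^ d = ρ γ (a / t ^ d) * (ρ γ t / t) ^ d := by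
    have e1 : ρ γ t ≠ 0 := (map_ne_zero_iff _ (ρ γ).injective).2 ht
    have e2 : t ^ d ≠ 0 := zpow_ne_zero _ ht
    have e3 : (ρ γ t) ^ d ≠ 0 := zpow_ne_zero _ e1
    rw [map_div₀, map_zpow₀, div_zpow]
    field_simp
  rw [h3]
  exact K0.mul_mem h2 (K0.toSubfield.zpow_mem h1 d)

/-- The components of invariants are invariant. -/
lemma Scl.comp (h : Scl ρ Φ K0 F t) (hB : Fam ρ B Φ) (hI : Ind K0 t) {g : ML K0 (ℤ × L)}
    (hg : jm K0 t ht L g ∈ Fx ρ L) (e : ℤ × L) : jm K0 t ht L (mo e (g.coeff e)) ∈ Fx ρ L := by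
  classical
  obtain ⟨d, m⟩ := e
  rw [jm_mo, mo_mem_Fx]
  intro γ
  set S := g.coeff.support.image fun e => e.1 with hS
  have h1 := coeff_jm (s := t) (hs := ht) g m S fun e he => Finset.mem_image_of_mem _ he
  have h2 := hg γ m
  rw [h1, map_sum] at h2
  have hb : ∀ d, ρ γ ((g.coeff (d, m) : K) * t ^ d) / t ^ d ∈ K0 := fun d =>
    h.act hB ht γ (by
      rw [mul_div_cancel_right₀ _ (zpow_ne_zero _ ht)]
      exact (g.coeff (d, m)).2)
  have h3 : ∑ d ∈ S, (((⟨_, hb d⟩ : K0) - g.coeff (d, m) : K0) : K) * t ^ d = 0 := by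
    have h4 : ∀ d ∈ S, (((⟨_, hb d⟩ : K0) - g.coeff (d, m) : K0) : K) * t ^ d =
        ρ γ ((g.coeff (d, m) : K) * t ^ d) - (g.coeff (d, m) : K) * t ^ d := by
      intro d _
      rw [AddSubgroupClass.coe_sub, sub_mul, div_mul_cancel₀ _ (zpow_ne_zero _ ht)]
    rw [Finset.sum_congr rfl h4, Finset.sum_sub_distrib, h2, sub_self]
  by_cases hd : d ∈ S
  · have h4 := hI S (fun d => (⟨_, hb d⟩ : K0) - g.coeff (d, m)) h3 d hd
    have h5 := congrArg (Subtype.val : K0 → K) (sub_eq_zero.1 h4)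
    change ρ γ ((g.coeff (d, m) : K) * t ^ d) / t ^ d = (g.coeff (d, m) : K) at h5
    rw [div_eq_iff (zpow_ne_zero _ ht)] at h5
    exact h5
  · have h4 : g.coeff (d, m) = 0 := by
      by_contra hcon
      exact hd (Finset.mem_image.2 ⟨(d, m), Finsupp.mem_support_iff.2 hcon, rfl⟩)
    rw [h4, ZeroMemClass.coe_zero, zero_mul, map_zero]

variable (hS : Sys ρ B Φ A B' Ex N)

/-- The degrees of the invariants of a chart. -/
def gens (dg : L ≃+ (ι → ℤ)) (K0 : IntermediateField k K) (t : K) (hPC : PC ρ B Φ A B')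
    (D : Tp Φ A B') : Set ℤ :=
  {d | ∃ (m : L) (a : K), a ≠ 0 ∧ a / t ^ d ∈ K0 ∧ mo m a ∈ CC dg hPC D ⊓ Fx ρ L}

/-- The quotients of the denominators. -/
lemma ratio_mem (ht : t ≠ 0) (hΦ : HF K0.toSubfield t 1 Φ) (hS : Sys ρ B Φ A B' Ex N)
    (D D' : Tp Φ A B') : HH D' / HH D ∈ K0 := by
  obtain ⟨δ, -, -, hδ⟩ := exists_deg hS ht hΦ
  have h1 : ∀ D : Tp Φ A B', HH D / t ^ (∑ j, δ j) ∈ K0 := fun D => by
    unfold HH
    exact hom_prod (K0 := K0.toSubfield) ht univ _ δ fun j _ => hδ D j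
  have h2 := K0.div_mem (h1 D') (h1 D)
  rwa [div_div_div_cancel_right₀ (zpow_ne_zero _ ht)] at h2

lemma uu_mem (ht : t ≠ 0) (hΦ : HF K0.toSubfield t 1 Φ) (hS : Sys ρ B Φ A B' Ex N)
    (D : Tp Φ A B') (m : ι → ℤ) : uu D m ∈ K0 := by
  obtain ⟨δ, -, hδ', hδ⟩ := exists_deg hS ht hΦ
  unfold uu
  refine K0.toSubfield.prod_mem fun i _ => K0.toSubfield.zpow_mem ?_ _
  change hh D (some (Sum.inl i)) / hh D (some (Sum.inr i)) ∈ K0
  have h2 := K0.div_mem (hδ D (some (Sum.inl i))) (hδ D (some (Sum.inr i)))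
  rwa [hδ', div_div_div_cancel_right₀ (zpow_ne_zero _ ht)] at h2

lemma ratio_CC (D D' : Tp Φ A B') :
    mo 0 (HH D' / HH D) ∈ CC dg hS.pc D ⊓ Fx ρ L := by
  refine ⟨(mo_mem_CC hS.pc).2 ?_, mo_mem_Fx.2 ?_⟩
  · intro Γ _ v hv
    rw [map_zero, nm_zero]
    exact hv.RD_le _ (div_mem_RD D D')
  · intro γ
    rw [map_div₀, hS.pc.HH_inv, hS.pc.HH_inv]

lemma none_CC (D : Tp Φ A B') (l : ℤ) :
    mo 0 (hh D none ^ l) ∈ CC dg hS.pc D ⊓ Fx ρ L := by
  refine ⟨(mo_mem_CC hS.pc).2 ?_, mo_mem_Fx.2 ?_⟩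
  · intro Γ _ v hv
    rw [map_zero, nm_zero, map_zpow₀, hv.hn, one_zpow]
  · intro γ
    rw [map_zpow₀, hS.pc.hh_inv]

lemma uu_CC (D : Tp Φ A B') (m : L) :
    mo (EE Φ A B' • m) (uu D (dg m)) ∈ CC dg hS.pc D ⊓ Fx ρ L ∧
      mo (-(EE Φ A B' • m)) (uu D (dg m))⁻¹ ∈ CC dg hS.pc D ⊓ Fx ρ L := by
  refine ⟨⟨(mo_mem_CC hS.pc).2 ?_, ?_⟩, ⟨(mo_mem_CC hS.pc).2 ?_, ?_⟩⟩
  · intro Γ _ v hv
    rw [hv.uu_eq, map_nsmul, nm_nsmul]
  · exact mo_mem_Fx.2 fun γ => hS.pc.uu_inv D _ γ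
  · intro Γ _ v hv
    rw [map_inv₀, hv.uu_eq, map_neg, map_nsmul, nm_neg, nm_nsmul]
  · exact mo_mem_Fx.2 fun γ => by rw [map_inv₀, hS.pc.uu_inv D _ γ]

lemma gens_sub (ht : t ≠ 0) (hΦ : HF K0.toSubfield t 1 Φ) (D D' : Tp Φ A B') :
    gens dg K0 t hS.pc D' ⊆ gens dg K0 t hS.pc D := by
  rintro d ⟨m, a, ha0, had, ha⟩
  obtain ⟨n, hn⟩ := gl_full hS.pc D D' _ ha.1
  have h1 : mo (0 : L) (HH D' / HH D) ^ n * mo m a = mo m ((HH D' / HH D) ^ n * a) := by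
    rw [mo_pow, mo_mul, smul_zero, zero_add]
  refine ⟨m, (HH D' / HH D) ^ n * a, mul_ne_zero (pow_ne_zero _ (div_ne_zero (HH_ne _)
    (HH_ne _))) ha0, ?_, ?_⟩
  · rw [mul_div_assoc]
    exact K0.mul_mem (K0.toSubfield.pow_mem (ratio_mem ht hΦ hS D D') n) had
  · rw [← h1]
    exact ⟨hn, (Fx ρ L).mul_mem ((Fx ρ L).pow_mem (ratio_CC (dg := dg) hS D D').2 _) ha.2⟩

lemma gens_EE (ht : t ≠ 0) (hΦ : HF K0.toSubfield t 1 Φ) (D : Tp Φ A B') :
    (EE Φ A B' : ℤ) ∈ gens dg K0 t hS.pc D := by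
  obtain ⟨δ, hδ1, -, hδ⟩ := exists_deg hS ht hΦ
  have h1 := hδ D none
  rw [hδ1] at h1
  have h2 := none_CC (dg := dg) hS D 1
  rw [zpow_one] at h2
  exact ⟨0, hh D none, hh_ne D none, h1, h2⟩

/-- The generator of the degrees. -/
theorem exists_tau (h : Scl ρ Φ K0 F t) (ht : t ≠ 0) :
    ∃ (d1 : ℤ) (τ : K), d1 ≠ 0 ∧ τ ≠ 0 ∧ τ / t ^ d1 ∈ K0 ∧ (∀ γ, ρ γ τ = τ) ∧
      ∀ D, AddSubgroup.closure (gens dg K0 t hS.pc D) = AddSubgroup.zmultiples d1 := by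
  obtain ⟨D0, -⟩ := hS.pc.exists_chart (1 : Valuation K (WithZero (Multiplicative ℤ)))
  obtain ⟨d1, hd1⟩ := Int.subgroup_cyclic (AddSubgroup.closure (gens dg K0 t hS.pc D0))
  have hz : AddSubgroup.closure (gens dg K0 t hS.pc D0) = AddSubgroup.zmultiples d1 := by
    rw [hd1, AddSubgroup.zmultiples_eq_closure]
  let W : AddSubgroup ℤ :=
    { carrier := {d | ∃ a : K, a ≠ 0 ∧ a / t ^ d ∈ K0 ∧ ∀ γ, ρ γ a = a}
      add_mem' := by
        rintro d d' ⟨a, ha0, ha, haγ⟩ ⟨b, hb0, hb, hbγ⟩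
        exact ⟨a * b, mul_ne_zero ha0 hb0, hom_mul (K0 := K0.toSubfield) ht ha hb, fun γ => by
          rw [map_mul, haγ, hbγ]⟩
      zero_mem' := ⟨1, one_ne_zero, by rw [zpow_zero, div_one]; exact K0.one_mem,
        fun γ => map_one _⟩
      neg_mem' := by
        rintro d ⟨a, ha0, ha, haγ⟩
        exact ⟨a⁻¹, inv_ne_zero ha0, hom_inv (K0 := K0.toSubfield) ht ha, fun γ => by
          rw [map_inv₀, haγ]⟩ }
  have hW : d1 ∈ W := by
    have h1 : AddSubgroup.closure (gens dg K0 t hS.pc D0) ≤ W := by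
      refine (AddSubgroup.closure_le _).2 ?_
      rintro d ⟨m, a, ha0, had, ha⟩
      exact ⟨a, ha0, had, mo_mem_Fx.1 ha.2⟩
    rw [hz] at h1
    exact h1 (AddSubgroup.mem_zmultiples d1)
  obtain ⟨τ, hτ0, hτ, hτγ⟩ := hW
  refine ⟨d1, τ, ?_, hτ0, hτ, hτγ, fun D => ?_⟩
  · rintro rfl
    have h1 : (EE Φ A B' : ℤ) ∈ AddSubgroup.closure (gens dg K0 t hS.pc D0) :=
      AddSubgroup.subset_closure (gens_EE (dg := dg) hS ht h.hΦ D0)
    rw [hz, AddSubgroup.zmultiples_zero_eq_bot, AddSubgroup.mem_bot] at h1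
    have h2 := EE_pos (Φ := Φ) (A := A) (B' := B')
    omega
  · rw [← hz]
    exact congrArg _ (Set.Subset.antisymm (gens_sub hS ht h.hΦ D0 D) (gens_sub hS ht h.hΦ D D0))

end Pool.Agent.Helper49.PQ
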