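import Pool.Agent.Helper49.PQ.Grd4

/-!
# The atlas of the quotient: fractions and valuations
-/

set_option autoImplicit false
set_option linter.unusedSectionVars false

namespace Pool.Agent.Helper49.PQ

open Finset Pool.Agent.W559.Mg Cardinal Pool.Agent.Helper46.AQ Pool.Agent.Helper49.PN

variable {k K : Type} [Field k] [Field K] [Algebra k K] [DecidableEq K] {G : Type} [Group G]
  {ρ : G →* (K ≃ₐ[k] K)} {B : Subalgebra k K} {Φ : Finset K}
  {ι : Type} [Fintype ι] [DecidableEq ι] {A B' : ι → Finset K} {Ex : ι → ι → Prop}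
  {N : ℕ → ι → ℕ} {L : Type} [AddCommGroup L] {dg : L ≃+ (ι → ℤ)}
  {K0 F : IntermediateField k K} {t : K} {n : ℕ} (hb : Base ρ B Φ n)
  (hS : Sys ρ B Φ A B' Ex N) (h : Scl ρ Φ K0 F t)
  {d1 : ℤ} {τ : K} (hτ : Tau ρ dg K0 t hS.pc d1 τ)

include hb in
/-- Elements of the chart are enough to write all fractions. -/
lemma frz_CC [IsDomain (ML K L)] (D : Tp Φ A B') : frz (CC dg hS.pc D) = ⊤ := by
  refine sat_top (dg := dg) (sat_frz _) (Φ := (Φ : Set K)) (fun i => le_frz _ (xz_mem_CC hS.pc i))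
    (fun s hs => ⟨0, le_frz _ ?_⟩) hb.fr
  rw [mo_mem_CC]
  intro Γ _ v hv
  rw [map_zero, nm_zero]
  exact hv.1.1 _ (hb.fam.mem _ hs)

include hb h in
/-- Homogeneous denominators. -/
lemma exists_den [IsDomain (ML K L)] (ht : t ≠ 0) (D : Tp Φ A B') {x : K} (hx : x ∈ K0) :
    ∃ (m : L) (d : ℤ) (y : K), y ≠ 0 ∧ y / t ^ d ∈ K0 ∧ mo m y ∈ CC dg hS.pc D ∧
      mo m (y * x) ∈ CC dg hS.pc D := by
  obtain ⟨c, hc, hc0, hcx⟩ := frc_of_frz (frz_CC (dg := dg) hb hS D) (mo 0 x)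
  have hI := ind_of_tr ht h.tr
  have htg := tg_CC (dg := dg) hb hS ht hI h.hΦ D
  obtain ⟨g, hg, rfl⟩ := htg hc
  obtain ⟨g', hg', hgg⟩ := htg hcx
  have h1 : g' = mo 0 ⟨x, hx⟩ * g := by
    refine jm_inj (hs := ht) hI ?_
    rw [map_mul, jm_mo, mul_comm]
    change jm K0 t ht L g' = jm K0 t ht L g * mo (0 : L) (x * t ^ (0 : ℤ))
    rw [zpow_zero, mul_one]
    exact hgg
  have hg0 : g ≠ 0 := by
    rintro rfl
    exact hc0 (map_zero (jm K0 t ht L))
  obtain ⟨e, he⟩ : ∃ e, g.coeff e ≠ 0 := by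
    by_contra hcon
    push Not at hcon
    exact hg0 (ml_ext fun e => by rw [hcon, coeff_zero'])
  have h2 := hg e
  have h3 := hg' e
  rw [h1, coeff_mo_mul, sub_zero] at h3
  obtain ⟨d, m⟩ := e
  rw [jm_mo] at h2 h3
  refine ⟨m, d, (g.coeff (d, m) : K) * t ^ d, mul_ne_zero (fun h0 => he (Subtype.ext h0))
    (zpow_ne_zero _ ht), ?_, h2, ?_⟩
  · rw [mul_div_cancel_right₀ _ (zpow_ne_zero _ ht)]
    exact (g.coeff (d, m)).2
  · have h4 : (g.coeff (d, m) : K) * t ^ d * x =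
        (((⟨x, hx⟩ : K0) * g.coeff (d, m) : K0) : K) * t ^ d := by
      change _ = (x * (g.coeff (d, m) : K)) * t ^ d
      ring
    rw [h4]
    exact h3

include hb h in
/-- Invariant denominators of degree zero. -/
lemma exists_den_inv [IsDomain (ML K L)] [Finite G] (ht : t ≠ 0) (D : Tp Φ A B') {x : K}
    (hx : x ∈ F) : ∃ a b : K, a ∈ F ∧ b ∈ F ∧ mo (0 : L) a ∈ CC dg hS.pc D ∧
      mo (0 : L) b ∈ CC dg hS.pc D ∧ b ≠ 0 ∧ x = a / b := by
  classical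
  have : Fintype G := Fintype.ofFinite G
  obtain ⟨hxK, hxγ⟩ := (h.F x).1 hx
  obtain ⟨m, d, y, hy0, hyd, hy, hyx⟩ := exists_den (dg := dg) hb hS h ht D hxK
  obtain ⟨δ, hδ1, -, hδ⟩ := exists_deg hS ht h.hΦ
  set c : ℕ := Fintype.card G with hc
  set E : ℕ := EE Φ A B' with hE
  have hE0 : 0 < E := EE_pos
  set Nm : K := ∏ γ : G, ρ γ y with hNm
  have hNm0 : Nm ≠ 0 := Finset.prod_ne_zero_iff.2 fun γ _ =>
    (map_ne_zero_iff _ (ρ γ).injective).2 hy0
  have hNmγ : ∀ γ, ρ γ Nm = Nm := by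
    intro γ
    rw [hNm, map_prod]
    have h1 : ∀ γ', ρ γ (ρ γ' y) = ρ (γ * γ') y := fun γ' => by
      rw [map_mul, AlgEquiv.mul_apply]
    rw [Finset.prod_congr rfl fun γ' _ => h1 γ']
    exact Fintype.prod_equiv (Equiv.mulLeft γ) _ _ fun γ' => rfl
  have hmoγ : ∀ γ, mo m (ρ γ y) ∈ CC dg hS.pc D := fun γ => by
    rw [← ga_mo]
    exact ga_mem_CC hb hS.pc γ hy
  have hsum : ∀ s : Finset G, ∑ _γ ∈ s, m = s.card • m := fun s => Finset.sum_const _
  have hNmC : mo (c • m) Nm ∈ CC dg hS.pc D := by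
    have h1 := (CC dg hS.pc D).prod_mem fun γ (_ : γ ∈ (Finset.univ : Finset G)) => hmoγ γ
    rw [mo_prod, hsum, Finset.card_univ] at h1
    exact h1
  have hNmx : mo (c • m) (Nm * x) ∈ CC dg hS.pc D := by
    have h1 := (CC dg hS.pc D).prod_mem fun γ (_ : γ ∈ (Finset.univ : Finset G).erase 1) => hmoγ γ
    rw [mo_prod, hsum] at h1
    have h2 := (CC dg hS.pc D).mul_mem hyx h1
    rw [mo_mul] at h2
    have h3 : y * x * ∏ γ ∈ (Finset.univ : Finset G).erase 1, ρ γ y = Nm * x := by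
      rw [hNm, ← Finset.mul_prod_erase _ _ (Finset.mem_univ (1 : G)), map_one, AlgEquiv.one_apply]
      ring
    have h4 : m + ((Finset.univ : Finset G).erase 1).card • m = c • m := by
      rw [Finset.card_erase_of_mem (Finset.mem_univ _), Finset.card_univ, ← hc]
      have h5 : 0 < c := Fintype.card_pos
      obtain ⟨c', hc'⟩ := Nat.exists_eq_succ_of_ne_zero h5.ne'
      rw [hc', Nat.succ_eq_add_one, Nat.add_sub_cancel, succ_nsmul, add_comm]
    rw [h3, h4] at h2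
    exact h2
  have hNmd : Nm / t ^ ((c : ℤ) * d) ∈ K0 := by
    have h1 := hom_prod (K0 := K0.toSubfield) ht (Finset.univ : Finset G) (fun γ => ρ γ y)
      (fun _ => d) fun γ _ => h.act hb.fam ht γ hyd
    rwa [Finset.sum_const, Finset.card_univ, nsmul_eq_mul] at h1
  -- the denominator
  set w : K := (uu D (dg (c • m)))⁻¹ * hh D none ^ (-((c : ℤ) * d)) with hw
  have hwC : mo (-(E • (c • m))) w ∈ CC dg hS.pc D := by
    have h1 := (CC dg hS.pc D).mul_mem (uu_CC (dg := dg) hS D (c • m)).2.1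
      (none_CC (dg := dg) hS D (-((c : ℤ) * d))).1
    rwa [mo_mul, add_zero] at h1
  have hw0 : w ≠ 0 := mul_ne_zero (inv_ne_zero (uu_ne _ _)) (zpow_ne_zero _ (hh_ne _ _))
  have hb0 : Nm ^ E * w ≠ 0 := mul_ne_zero (pow_ne_zero _ hNm0) hw0
  have hbF : Nm ^ E * w ∈ F := by
    refine (h.F _).2 ⟨?_, fun γ => ?_⟩
    · have h1 := hom_pow (K0 := K0.toSubfield) ht hNmd E
      have h2 := hδ D none
      rw [hδ1] at h2
      have h3 := hom_zpow (K0 := K0.toSubfield) ht h2 (-((c : ℤ) * d))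
      have h4 := hom_mul (K0 := K0.toSubfield) ht h1 h3
      have h5 : ((E : ℤ) * ((c : ℤ) * d)) + (-((c : ℤ) * d)) * (E : ℤ) = 0 := by ring
      rw [h5, zpow_zero, div_one] at h4
      have h6 := K0.mul_mem h4 (K0.inv_mem (uu_mem ht h.hΦ hS D (dg (c • m))))
      have h7 : Nm ^ E * w = Nm ^ E * hh D none ^ (-((c : ℤ) * d)) *
          (uu D (dg (c • m)))⁻¹ := by rw [hw]; ring
      rw [h7]
      exact h6
    · rw [hw, map_mul, map_pow, hNmγ, map_mul, map_inv₀, hS.pc.uu_inv, map_zpow₀, hS.pc.hh_inv]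
  refine ⟨Nm ^ E * w * x, Nm ^ E * w, F.mul_mem hbF hx, hbF, ?_, ?_, hb0, ?_⟩
  · obtain ⟨E', hE'⟩ := Nat.exists_eq_succ_of_ne_zero hE0.ne'
    have h1 := (CC dg hS.pc D).mul_mem ((CC dg hS.pc D).mul_mem
      ((CC dg hS.pc D).pow_mem hNmC E') hNmx) hwC
    rw [mo_pow, mo_mul, mo_mul] at h1
    have h2 : E' • c • m + c • m + -(E • c • m) = 0 := by
      rw [hE', Nat.succ_eq_add_one, succ_nsmul, add_neg_cancel]
    have h3 : Nm ^ E' * (Nm * x) * w = Nm ^ E * w * x := by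
      rw [hE', Nat.succ_eq_add_one, pow_succ]
      ring
    rwa [h2, h3] at h1
  · have h1 := (CC dg hS.pc D).mul_mem ((CC dg hS.pc D).pow_mem hNmC E) hwC
    rw [mo_pow, mo_mul, add_neg_cancel] at h1
    exact h1
  · rw [mul_div_cancel_left₀ _ hb0]

include hb h in
/-- Normalized extensions of valuation rings. -/
lemma exists_val (ht : t ≠ 0) (V : ValuationSubring F)
    (hV : ∀ c : k, algebraMap k F c ∈ V) : ∃ W : ValuationSubring K,
      (∀ a : F, (a : K) ∈ W ↔ a ∈ V) ∧ Pos B Φ W.valuation := by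
  classical
  have hle : F ≤ K0 := fun a ha => ((h.F a).1 ha).1
  obtain ⟨V1, hV1⟩ := exists_ext (IntermediateField.inclusion hle : F →ₐ[k] K0).toRingHom V
  have hq : ∀ s ∈ Φ, s / t ∈ K0 := fun s hs => by
    have h1 := h.hΦ s hs
    rwa [zpow_one] at h1
  let f : K → V1.ValueGroup := fun s => if hs : s / t ∈ K0 then V1.valuation ⟨s / t, hs⟩ else 0
  obtain ⟨s0, hs0, hmax⟩ := Finset.exists_max_image Φ f hb.fam.ne
  have hs00 : s0 ≠ 0 := hb.fam.n0 _ hs0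
  have hq0 : ∀ s ∈ Φ, s / s0 ∈ K0 := fun s hs => by
    have h1 := K0.div_mem (hq s hs) (hq s0 hs0)
    rwa [div_div_div_cancel_right₀ ht] at h1
  have hq1 : ∀ s (hs : s ∈ Φ), (⟨s / s0, hq0 s hs⟩ : K0) ∈ V1 := by
    intro s hs
    rw [← V1.valuation_le_one_iff]
    have h1 := hmax s hs
    have e1 : f s = V1.valuation ⟨s / t, hq s hs⟩ := dif_pos (hq s hs)
    have e2 : f s0 = V1.valuation ⟨s0 / t, hq s0 hs0⟩ := dif_pos (hq s0 hs0)
    rw [e1, e2] at h1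
    have h2 : (⟨s0 / t, hq s0 hs0⟩ : K0) ≠ 0 := fun h0 =>
      div_ne_zero hs00 ht (congrArg (Subtype.val : K0 → K) h0)
    have h3 : (⟨s / s0, hq0 s hs⟩ : K0) = ⟨s / t, hq s hs⟩ / ⟨s0 / t, hq s0 hs0⟩ := by
      apply Subtype.ext
      change s / s0 = (s / t) / (s0 / t)
      rw [div_div_div_cancel_right₀ ht]
    rw [h3, map_div₀, div_le_one₀ (zero_lt_iff.2 ((Valuation.ne_zero_iff _).2 h2))]
    exact h1
  have htr : Transcendental K0.toSubfield s0 := by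
    intro hal
    apply h.tr
    have hal' : IsAlgebraic K0 s0 := hal
    have h1 : t = algebraMap K0 K (⟨s0 / t, hq s0 hs0⟩ : K0)⁻¹ * s0 := by
      rw [map_inv₀]
      change t = (s0 / t)⁻¹ * s0
      rw [inv_div, div_mul_cancel₀ _ hs00]
    rw [h1]
    exact (isAlgebraic_algebraMap _).mul hal'
  obtain ⟨W, hW1, hW2, hW3, -⟩ := Pool.Agent.Helper12.PN.exists_gauss K0.toSubfield s0 htr V1
  have hW1' : ∀ a : K0, (a : K) ∈ W ↔ a ∈ V1 := hW1
  have hFW : ∀ a : F, (a : K) ∈ W ↔ a ∈ V := by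
    intro a
    rw [← hV1 a, ← hW1']
    rfl
  refine ⟨W, hFW, pos_of_gen hb.gen (fun c => ?_) (fun s hs => ?_) ⟨s0, hs0, ?_⟩⟩
  · exact (W.valuation_le_one_iff _).2 ((hFW (algebraMap k F c)).2 (hV c))
  · refine (W.valuation_le_one_iff _).2 ?_
    have h1 : s = (s / s0) * s0 := by rw [div_mul_cancel₀ _ hs00]
    rw [h1]
    exact W.mul_mem _ _ ((hW1' ⟨s / s0, hq0 s hs⟩).2 (hq1 s hs)) hW2
  · refine le_antisymm ((W.valuation_le_one_iff _).2 hW2) ?_
    have h1 := (W.valuation_le_one_iff _).2 hW3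
    rw [map_inv₀] at h1
    exact (inv_le_one₀ (zero_lt_iff.2 ((Valuation.ne_zero_iff _).2 hs00))).1 h1

end Pool.Agent.Helper49.PQ
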