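import Pool.Agent.Helper49.PQ.PLA

/-!
# Homogeneous families
-/

set_option autoImplicit false
set_option linter.unusedSectionVars false

namespace Pool.Agent.Helper49.PQ

open Finset Pointwise Pool.Agent.Helper46.AQ

variable {K : Type} [Field K] {K0 : Subfield K} {t : K}

/-- The elements of the family are homogeneous of degree `d` in `t` over the field `K0`. -/
def HF (K0 : Subfield K) (t : K) (d : ℤ) (Ψ : Finset K) : Prop := ∀ a ∈ Ψ, a / t ^ d ∈ K0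

variable {d d' : ℤ} {Ψ Ψ' : Finset K}

lemma hom_mul (ht : t ≠ 0) {a b : K} (ha : a / t ^ d ∈ K0) (hb : b / t ^ d' ∈ K0) :
    a * b / t ^ (d + d') ∈ K0 := by
  have h1 : a * b / t ^ (d + d') = (a / t ^ d) * (b / t ^ d') := by
    rw [zpow_add₀ ht, mul_div_mul_comm]
  rw [h1]
  exact K0.mul_mem ha hb

lemma hom_inv (ht : t ≠ 0) {a : K} (ha : a / t ^ d ∈ K0) : a⁻¹ / t ^ (-d) ∈ K0 := by
  have h1 : a⁻¹ / t ^ (-d) = (a / t ^ d)⁻¹ := by
    rw [zpow_neg, inv_div, div_inv_eq_mul, mul_comm, div_eq_mul_inv]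
  rw [h1]
  exact K0.inv_mem ha

lemma hom_pow (ht : t ≠ 0) {a : K} (ha : a / t ^ d ∈ K0) (n : ℕ) :
    a ^ n / t ^ ((n : ℤ) * d) ∈ K0 := by
  have h1 : a ^ n / t ^ ((n : ℤ) * d) = (a / t ^ d) ^ n := by
    rw [div_pow, mul_comm, zpow_mul, zpow_natCast]
  rw [h1]
  exact K0.pow_mem ha n

lemma hom_zpow (ht : t ≠ 0) {a : K} (ha : a / t ^ d ∈ K0) (n : ℤ) :
    a ^ n / t ^ (n * d) ∈ K0 := by
  have h1 : a ^ n / t ^ (n * d) = (a / t ^ d) ^ n := by
    rw [div_zpow, mul_comm, zpow_mul]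
  rw [h1]
  exact K0.zpow_mem ha n

lemma hom_prod (ht : t ≠ 0) {J : Type} (s : Finset J) (a : J → K) (δ : J → ℤ)
    (h : ∀ j ∈ s, a j / t ^ δ j ∈ K0) : (∏ j ∈ s, a j) / t ^ (∑ j ∈ s, δ j) ∈ K0 := by
  classical
  induction s using Finset.induction_on with
  | empty => simp [K0.one_mem]
  | insert x s hx ih =>
    rw [Finset.prod_insert hx, Finset.sum_insert hx]
    exact hom_mul ht (h x (Finset.mem_insert_self _ _))
      (ih fun j hj => h j (Finset.mem_insert_of_mem hj))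

lemma HF.mul [DecidableEq K] (ht : t ≠ 0) (h : HF K0 t d Ψ) (h' : HF K0 t d' Ψ') :
    HF K0 t (d + d') (Ψ * Ψ') := by
  intro a ha
  obtain ⟨x, hx, y, hy, rfl⟩ := Finset.mem_mul.1 ha
  exact hom_mul ht (h x hx) (h' y hy)

lemma HF.union [DecidableEq K] (h : HF K0 t d Ψ) (h' : HF K0 t d Ψ') :
    HF K0 t d (Ψ ∪ Ψ') := fun a ha => (Finset.mem_union.1 ha).elim (h a) (h' a)

lemma HF.prod (ht : t ≠ 0) (h : HF K0 t d Ψ) {I : Finset K} (hI : I ⊆ Ψ) :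
    (∏ a ∈ I, a) / t ^ ((I.card : ℤ) * d) ∈ K0 := by
  have h1 := hom_prod (K0 := K0) ht I (fun a => a) (fun _ => d) fun a ha => h a (hI ha)
  rwa [Finset.sum_const, nsmul_eq_mul] at h1

lemma HF.es (ht : t ≠ 0) (h : HF K0 t d Ψ) (l : ℕ) : es Ψ l / t ^ ((l : ℤ) * d) ∈ K0 := by
  unfold Helper46.AQ.es
  rw [Finset.sum_div]
  refine K0.sum_mem fun I hI => ?_
  obtain ⟨h1, h2⟩ := Finset.mem_powersetCard.1 hI
  rw [← h2]
  exact h.prod ht h1

end Pool.Agent.Helper49.PQ
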