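import Pool.Agent.Helper49.PQ.SysC
import Pool.Graph.R_seed8.W559.Mg.U1

/-!
# Valuations of the fraction field and normality
-/

set_option autoImplicit false
set_option linter.unusedSectionVars false

namespace Pool.Agent.Helper49.PQ

open Finset Pool.Agent.W559.Mg Pool.Agent.Helper46.AQ

section dom

variable {k D F : Type} [Field k] [CommRing D] [IsDomain D] [Algebra k D] [Field F] [Algebra D F]
  [FaithfulSMul D F]

/-- A valuation which dominates the localization at a prime. -/
lemma exists_dom (C : Subalgebra k D) (Q : Ideal C) [Q.IsPrime] :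
    ∃ V : ValuationSubring F, (∀ c : C, V.valuation (algebraMap D F c) ≤ 1) ∧
      ∀ c : C, V.valuation (algebraMap D F c) < 1 ↔ c ∈ Q := by
  let g : C →+* F := (algebraMap D F).comp C.val.toRingHom
  have hg : Function.Injective g :=
    (FaithfulSMul.algebraMap_injective D F).comp Subtype.val_injective
  have hg' : ∀ y : Q.primeCompl, IsUnit (g y) := by
    intro y
    rw [isUnit_iff_ne_zero]
    intro h0
    have h1 : (y : C) = 0 := hg (by rw [h0, map_zero])
    exact y.2 (by rw [h1]; exact Q.zero_mem)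
  let f : Localization.AtPrime Q →+* F := IsLocalization.lift (M := Q.primeCompl) hg'
  obtain ⟨V, hV, hloc⟩ := IsLocalRing.exists_factor_valuationRing f
  have hfg : ∀ c : C, f (algebraMap C _ c) = g c := fun c => IsLocalization.lift_eq hg' c
  have h1 : ∀ c : C, g c ∈ V := fun c => by
    rw [← hfg]
    exact hV _
  refine ⟨V, fun c => (V.valuation_le_one_iff _).2 (h1 c), fun c => ?_⟩
  have h2 : IsUnit (algebraMap C (Localization.AtPrime Q) c) ↔ c ∉ Q :=
    IsLocalization.AtPrime.isUnit_to_map_iff (Localization.AtPrime Q) Q c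
  have h3 : IsUnit (f.codRestrict V.toSubring hV (algebraMap C _ c)) ↔
      IsUnit (algebraMap C (Localization.AtPrime Q) c) := isUnit_map_iff _ _
  have h4 : V.valuation (g c) = 1 ↔ IsUnit (⟨g c, h1 c⟩ : V) :=
    (V.valuation_eq_one_iff ⟨g c, h1 c⟩).symm
  have h5 : (f.codRestrict V.toSubring hV (algebraMap C _ c)) = (⟨g c, h1 c⟩ : V) :=
    Subtype.ext (hfg c)
  have h6 : V.valuation (g c) = 1 ↔ c ∉ Q := by
    rw [h4, ← h2, ← h3, h5]
  have h7 : V.valuation (g c) ≤ 1 := (V.valuation_le_one_iff _).2 (h1 c)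
  change V.valuation (g c) < 1 ↔ _
  constructor
  · intro h8
    by_contra h9
    exact h8.ne (h6.2 h9)
  · intro h8
    exact lt_of_le_of_ne h7 fun h9 => (h6.1 h9) h8

end dom

section IC

variable {k D : Type} [Field k] [CommRing D] [IsDomain D] [Algebra k D]

/-- The subalgebra is integrally closed in the ring. -/
def IC (R : Subalgebra k D) : Prop := ∀ f : D, IsIntegral R f → f ∈ R

/-- The valuative criterion. -/
lemma IC.of_val {R : Subalgebra k D} (hR : IC R) (F : Type) [Field F] [Algebra D F]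
    [FaithfulSMul D F] (f : D) (h : ∀ V : ValuationSubring F, (∀ r ∈ R, algebraMap D F r ∈ V) →
      algebraMap D F f ∈ V) : f ∈ R := by
  apply hR
  have hinj := FaithfulSMul.algebraMap_injective D F
  set S : Subring F := R.toSubring.map (algebraMap D F) with hS
  have h1 := iInf_valuationSubring_superset (s := (S : Set F))
  have h2 : algebraMap D F f ∈ (⨅ V : {V : ValuationSubring F // (S : Set F) ⊆ V.toSubring},
      V.1.toSubring) := by
    rw [Subring.mem_iInf]
    rintro ⟨V, hV⟩
    exact h V fun r hr => hV (Subring.mem_map.2 ⟨r, hr, rfl⟩)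
  rw [h1, Subring.closure_eq] at h2
  have h3 : IsIntegral S (algebraMap D F f) := h2
  obtain ⟨P, hP, hPf⟩ := h3
  let e : R.toSubring ≃+* S := R.toSubring.equivMapOfInjective _ hinj
  refine ⟨P.map e.symm.toRingHom, hP.map _, hinj ?_⟩
  rw [map_zero, Polynomial.eval₂_map, Polynomial.hom_eval₂, ← hPf]
  congr 1
  ext x
  obtain ⟨y, rfl⟩ := e.surjective x
  change algebraMap D F ((e.symm (e y) : R.toSubring) : D) = ((e y : S) : F)
  rw [e.symm_apply_apply]
  rfl

lemma IC.lc {R : Subalgebra k D} (hR : IC R) {x : D} (hx : x ∈ R) (hu : IsUnit x) :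
    IC (lc R x hx) := by
  intro f hf
  let _ : Algebra R (Pool.Agent.W559.Mg.lc R x hx) :=
    (Subalgebra.inclusion (le_lc R x hx)).toRingHom.toAlgebra
  have _ : IsScalarTower R (Pool.Agent.W559.Mg.lc R x hx) D :=
    IsScalarTower.of_algebraMap_eq fun r => rfl
  have hloc := isLoc_lc R hx hu
  obtain ⟨⟨m, hm⟩, h1⟩ := IsIntegral.exists_multiple_integral_of_isLocalization
    (Submonoid.powers (⟨x, hx⟩ : R)) (Rₘ := Pool.Agent.W559.Mg.lc R x hx) f hf
  obtain ⟨n, rfl⟩ := hm
  exact ⟨n, hR _ h1⟩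

/-- Every element is a fraction. -/
def Frc (R : Subalgebra k D) : Prop := ∀ f : D, ∃ a ∈ R, a ≠ 0 ∧ a * f ∈ R

lemma IC.of_normal (R : Subalgebra k D) [IsIntegrallyClosed R] (h : Frc R) : IC R := by
  intro f hf
  let F := FractionRing D
  have hinj : Function.Injective (algebraMap D F) := IsFractionRing.injective D F
  have _ : IsScalarTower R D F := inferInstance
  have hRF : ∀ r : R, algebraMap R F r = algebraMap D F r := fun r => rfl
  have hinj' : Function.Injective (algebraMap R F) := hinj.comp Subtype.val_injective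
  have : FaithfulSMul R F := (faithfulSMul_iff_algebraMap_injective R F).2 hinj'
  have hfr : IsFractionRing R F := by
    refine IsFractionRing.of_field R F fun z => ?_
    obtain ⟨a, b, hb, rfl⟩ := IsFractionRing.div_surjective (A := D) z
    obtain ⟨c, hc, hc0, hca⟩ := h a
    obtain ⟨d, hd, hd0, hdb⟩ := h b
    have hb0 : b ≠ 0 := nonZeroDivisors.ne_zero hb
    refine ⟨⟨d * (c * a), R.mul_mem hd hca⟩, ⟨c * (d * b), R.mul_mem hc hdb⟩, ?_⟩
    rw [hRF, hRF]
    change _ = algebraMap D F (d * (c * a)) / algebraMap D F (c * (d * b))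
    have h1 : algebraMap D F b ≠ 0 := fun h2 => hb0 (hinj (by rw [h2, map_zero]))
    have h3 : algebraMap D F c ≠ 0 := fun h2 => hc0 (hinj (by rw [h2, map_zero]))
    have h4 : algebraMap D F d ≠ 0 := fun h2 => hd0 (hinj (by rw [h2, map_zero]))
    rw [map_mul, map_mul, map_mul, map_mul, mul_left_comm, mul_div_mul_left _ _ h3,
      mul_div_mul_left _ _ h4]
  have h1 : IsIntegral R (algebraMap D F f) := hf.map (IsScalarTower.toAlgHom R D F)
  obtain ⟨r, hr⟩ := (IsIntegrallyClosed.isIntegral_iff).1 h1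
  have h2 : (r : D) = f := hinj hr
  rw [← h2]
  exact r.2

/-- Saturated subalgebras. -/
def Sat (Z : Subalgebra k D) : Prop := ∀ a b, a ∈ Z → a ≠ 0 → a * b ∈ Z → b ∈ Z

lemma Acl.sat {Z : Subalgebra k D} (h : Acl Z) : Sat Z := fun _ _ ha h0 hab => h.of_mul ha h0 hab

/-- The fractions. -/
def frz (R : Subalgebra k D) : Subalgebra k D where
  carrier := {f | ∃ a ∈ R, a ≠ 0 ∧ a * f ∈ R}
  mul_mem' := by
    rintro f g ⟨a, ha, ha0, haf⟩ ⟨b, hb, hb0, hbg⟩
    refine ⟨a * b, R.mul_mem ha hb, mul_ne_zero ha0 hb0, ?_⟩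
    have : a * b * (f * g) = (a * f) * (b * g) := by ring
    rw [this]
    exact R.mul_mem haf hbg
  add_mem' := by
    rintro f g ⟨a, ha, ha0, haf⟩ ⟨b, hb, hb0, hbg⟩
    refine ⟨a * b, R.mul_mem ha hb, mul_ne_zero ha0 hb0, ?_⟩
    have : a * b * (f + g) = b * (a * f) + a * (b * g) := by ring
    rw [this]
    exact R.add_mem (R.mul_mem hb haf) (R.mul_mem ha hbg)
  algebraMap_mem' r := ⟨1, R.one_mem, one_ne_zero, by rw [one_mul]; exact R.algebraMap_mem r⟩

lemma le_frz (R : Subalgebra k D) : R ≤ frz R :=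
  fun f hf => ⟨1, R.one_mem, one_ne_zero, by rw [one_mul]; exact hf⟩

lemma sat_frz (R : Subalgebra k D) : Sat (frz R) := by
  rintro f b ⟨a, ha, ha0, haf⟩ hf0 ⟨c, hc, hc0, hcf⟩
  refine ⟨c * (a * f), R.mul_mem hc haf, mul_ne_zero hc0 (mul_ne_zero ha0 hf0), ?_⟩
  have : c * (a * f) * b = a * (c * (f * b)) := by ring
  rw [this]
  exact R.mul_mem ha hcf

lemma frc_of_frz {R : Subalgebra k D} (h : frz R = ⊤) : Frc R := fun f => by
  have : f ∈ frz R := by rw [h]; trivial
  exact this

end IC

end Pool.Agent.Helper49.PQ
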