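import Pool.Agent.Helper49.PQ.Loc1

/-!
# The local model
-/

set_option autoImplicit false
set_option linter.unusedSectionVars false

namespace Pool.Agent.Helper49.PQ

open Finset Pool.Agent.W559.Mg Cardinal Pool.Agent.Helper46.AQ

section hom

variable {Γ : Type} [LinearOrderedCommGroupWithZero Γ] {ι : Type} [Fintype ι] [DecidableEq ι]

lemma mz_of_hom (θ : (ι → ℤ) → Γ) (h0 : ∀ m, θ m ≠ 0) (ha : ∀ m m', θ (m + m') = θ m * θ m')
    (m : ι → ℤ) : θ m = mz (fun i => θ (Pi.single i 1)) m := by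
  have hz : θ 0 = 1 := by
    have h1 := ha 0 0
    rw [add_zero] at h1
    exact (mul_eq_left₀ (h0 0)).1 h1.symm
  have hn : ∀ m, θ (-m) = (θ m)⁻¹ := by
    intro m
    refine eq_inv_of_mul_eq_one_left ?_
    rw [← ha, neg_add_cancel, hz]
  have hnat : ∀ (n : ℕ) m, θ (n • m) = θ m ^ n := by
    intro n m
    induction n with
    | zero => rw [zero_nsmul, pow_zero, hz]
    | succ n ih => rw [succ_nsmul, ha, ih, pow_succ]
  have hzs : ∀ (n : ℤ) m, θ (n • m) = θ m ^ n := by
    intro n m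
    rcases Int.eq_nat_or_neg n with ⟨a, rfl | rfl⟩
    · rw [natCast_zsmul, hnat, zpow_natCast]
    · rw [neg_zsmul, hn, natCast_zsmul, hnat, zpow_neg, zpow_natCast]
  have hs : ∀ (s : Finset ι) (f : ι → ι → ℤ), θ (∑ i ∈ s, f i) = ∏ i ∈ s, θ (f i) := by
    intro s f
    induction s using Finset.induction_on with
    | empty => simp [hz]
    | insert a s h ih => rw [Finset.sum_insert h, Finset.prod_insert h, ha, ih]
  have h1 : m = ∑ i, m i • Pi.single i (1 : ℤ) := by
    rw [← Finset.univ_sum_single m]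
    refine Finset.sum_congr rfl fun i _ => ?_
    funext j
    by_cases hj : j = i
    · subst hj
      simp
    · simp [hj]
  conv_lhs => rw [h1]
  rw [hs]
  unfold mz
  exact Finset.prod_congr rfl fun i _ => hzs _ _

end hom

section xz

variable {k K : Type} [Field k] [Field K] [Algebra k K] {ι : Type} [Fintype ι] [DecidableEq ι]
  {L : Type} [AddCommGroup L] (dg : L ≃+ (ι → ℤ))

/-- The monomials. -/
noncomputable def xz (K : Type) [Field K] {ι : Type} {L : Type} [AddCommGroup L]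
    (dg : L ≃+ (ι → ℤ)) (m : ι → ℤ) : ML K L := mo (dg.symm (-m)) 1

lemma xz_add (m m' : ι → ℤ) : xz K dg (m + m') = xz K dg m * xz K dg m' := by
  unfold xz
  rw [mo_mul, ← map_add, neg_add, one_mul]

lemma xz_zero : xz K dg 0 = 1 := by
  unfold xz
  rw [neg_zero, map_zero, mo_one]

lemma xz_ne (m : ι → ℤ) : xz K dg m ≠ 0 := mo_ne_zero one_ne_zero

lemma xz_inv (m : ι → ℤ) : xz K dg m * xz K dg (-m) = 1 := by
  rw [← xz_add, add_neg_cancel, xz_zero]

lemma xz_pow (m : ι → ℤ) (n : ℕ) : xz K dg m ^ n = xz K dg (n • m) := by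
  induction n with
  | zero => rw [pow_zero, zero_nsmul, xz_zero]
  | succ n ih => rw [pow_succ, ih, succ_nsmul, xz_add]

lemma mo_eq_xz (m : L) (a : K) : mo m a = mo 0 a * xz K dg (-(dg m)) := by
  unfold xz
  rw [mo_mul, neg_neg, AddEquiv.symm_apply_apply, zero_add, mul_one]

variable {dg}

lemma xz_mem {Z : Subalgebra k (ML K L)} {J : Set ι} (hx : ∀ i, xz K dg (Pi.single i 1) ∈ Z)
    (hxi : ∀ i, i ∉ J → xz K dg (Pi.single i (-1)) ∈ Z) {m : ι → ℤ} (hm : ∀ i ∈ J, 0 ≤ m i) :
    xz K dg m ∈ Z := by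
  have h1 : ∀ (i : ι) (n : ℕ), xz K dg (Pi.single i (n : ℤ)) ∈ Z := by
    intro i n
    have h2 : (Pi.single i (n : ℤ) : ι → ℤ) = n • Pi.single i 1 := by
      funext j
      by_cases hj : j = i
      · subst hj
        simp
      · simp [hj]
    rw [h2, ← xz_pow]
    exact Z.pow_mem (hx i) n
  have h1' : ∀ (i : ι) (n : ℕ), i ∉ J → xz K dg (Pi.single i (-(n : ℤ))) ∈ Z := by
    intro i n hi
    have h2 : (Pi.single i (-(n : ℤ)) : ι → ℤ) = n • Pi.single i (-1) := by
      funext j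
      by_cases hj : j = i
      · subst hj
        simp
      · simp [hj]
    rw [h2, ← xz_pow]
    exact Z.pow_mem (hxi i hi) n
  have h3 : ∀ i, xz K dg (Pi.single i (m i)) ∈ Z := by
    intro i
    rcases Int.eq_nat_or_neg (m i) with ⟨n, hn | hn⟩
    · rw [hn]
      exact h1 i n
    · by_cases hi : i ∈ J
      · have h4 := hm i hi
        have h5 : (n : ℤ) = 0 := by omega
        rw [hn, h5, neg_zero]
        exact h1 i 0
      · rw [hn]
        exact h1' i n hi
  have h4 : ∀ s : Finset ι, xz K dg (∑ i ∈ s, Pi.single i (m i)) ∈ Z := by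
    intro s
    induction s using Finset.induction_on with
    | empty => rw [Finset.sum_empty, xz_zero]; exact Z.one_mem
    | insert a s h ih => rw [Finset.sum_insert h, xz_add]; exact Z.mul_mem (h3 a) ih
  have h5 := h4 Finset.univ
  rwa [Finset.univ_sum_single] at h5

lemma xz_mem_of_sat {Z : Subalgebra k (ML K L)} (hZ : Sat Z)
    (hx : ∀ i, xz K dg (Pi.single i 1) ∈ Z) (m : ι → ℤ) : xz K dg m ∈ Z := by
  refine xz_mem (J := ∅) hx (fun i _ => ?_) fun i hi => absurd hi (Set.notMem_empty i)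
  refine hZ _ _ (hx i) (xz_ne dg _) ?_
  rw [Pi.single_neg, xz_inv]
  exact Z.one_mem

/-- A saturated subalgebra which contains the generators is everything. -/
lemma sat_top {Z : Subalgebra k (ML K L)} (hZ : Sat Z) {Φ : Set K}
    (hx : ∀ i, xz K dg (Pi.single i 1) ∈ Z) (hs : ∀ s ∈ Φ, ∃ m, mo m s ∈ Z)
    (hK : ∀ x : K, ∃ a ∈ Algebra.adjoin k Φ, ∃ b ∈ Algebra.adjoin k Φ, b ≠ 0 ∧ x = a / b) :
    Z = ⊤ := by
  have hmon := xz_mem_of_sat hZ hx
  have h1 : ∀ s ∈ Φ, mo 0 s ∈ Z := by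
    intro s hs'
    obtain ⟨m, hm⟩ := hs s hs'
    have h2 : mo 0 s = mo m s * xz K dg (dg m) := by
      unfold xz
      rw [mo_mul, mul_one, map_neg, AddEquiv.symm_apply_apply, add_neg_cancel]
    rw [h2]
    exact Z.mul_mem hm (hmon _)
  have h3 : Algebra.adjoin k Φ ≤ Z.comap (zr k K L) := Algebra.adjoin_le fun s hs' => h1 s hs'
  have h4 : ∀ x : K, mo 0 x ∈ Z := by
    intro x
    obtain ⟨a, ha, b, hb, hb0, rfl⟩ := hK x
    refine hZ (mo 0 b) _ (h3 hb) (mo_ne_zero hb0) ?_
    rw [mo_mul, add_zero, mul_div_cancel₀ _ hb0]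
    exact h3 ha
  rw [eq_top_iff]
  intro f _
  rw [eq_sum_mo f]
  refine Z.sum_mem fun m _ => ?_
  rw [mo_eq_xz dg]
  exact Z.mul_mem (h4 _) (hmon _)

lemma trdeg_ML (dg : L ≃+ (ι → ℤ)) [IsDomain (ML K L)] {n : ℕ} (h : (n : Cardinal) ≤ Algebra.trdeg k K) :
    (n : Cardinal) + Fintype.card ι ≤ Algebra.trdeg k (ML K L) := by
  have h1 : AlgebraicIndependent K fun i : ι => (mo (dg.symm (Pi.single i 1)) 1 : ML K L) := by
    refine algInd_mono (fun i => dg.symm (Pi.single i 1)) ?_
    have key : ∀ (f : ι →₀ ℕ) (i : ι), dg (Finsupp.liftAddHom (fun i =>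
        (multiplesHom L (dg.symm (Pi.single i 1)))) f) i = (f i : ℤ) := by
      intro f i
      rw [Finsupp.liftAddHom_apply, Finsupp.sum, map_sum, Finset.sum_apply]
      have h4 : ∀ j, dg ((multiplesHom L (dg.symm (Pi.single j 1))) (f j)) i =
          if j = i then (f j : ℤ) else 0 := by
        intro j
        rw [multiplesHom_apply, map_nsmul, AddEquiv.apply_symm_apply, Pi.smul_apply]
        by_cases hj : j = i
        · subst hj
          simp
        · rw [if_neg hj, Pi.single_eq_of_ne (Ne.symm hj), smul_zero]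
      rw [Finset.sum_congr rfl fun j _ => h4 j, Finset.sum_ite_eq']
      by_cases h5 : i ∈ f.support
      · rw [if_pos h5]
      · rw [if_neg h5, Finsupp.notMem_support_iff.1 h5]
        rfl
    intro f g hfg
    ext i
    have h5 := key f i
    have h6 := key g i
    have hfg' : (Finsupp.liftAddHom (fun i => (multiplesHom L (dg.symm (Pi.single i 1))))) f =
      (Finsupp.liftAddHom (fun i => (multiplesHom L (dg.symm (Pi.single i 1))))) g := hfg
    rw [hfg'] at h5
    exact_mod_cast h5.symm.trans h6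
  have h2 := h1.cardinalMk_le_trdeg
  rw [Cardinal.mk_fintype] at h2
  calc (n : Cardinal) + Fintype.card ι ≤ Algebra.trdeg k K + Algebra.trdeg K (ML K L) :=
        add_le_add h h2
    _ ≤ _ := trdeg_add_le

end xz

end Pool.Agent.Helper49.PQ
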