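import Pool.Agent.Helper49.PQ.Loc2
import Pool.Graph.R_seed8.Y223.G.Base

/-!
# The local model: smoothness and normality
-/

set_option autoImplicit false
set_option linter.unusedSectionVars false

namespace Pool.Agent.Helper49.PQ

open Finset Pool.Agent.W559.Mg Cardinal Pool.Agent.Helper46.AQ

section rank

variable {k K : Type} [Field k] [Field K] [Algebra k K]

/-- The span of the last elements. -/
def Wj (k : Type) {K : Type} [Field k] [Field K] [Algebra k K] (e : ℕ → K) (M j : ℕ) :
    Submodule k K := Submodule.span k (e '' {i | j ≤ i ∧ i < M})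

lemma Wj_fin (e : ℕ → K) (M j : ℕ) : Module.Finite k (Wj k e M j) := by
  refine Module.Finite.span_of_finite k ?_
  refine Set.Finite.image _ ?_
  exact (Set.finite_Iio M).subset fun i hi => hi.2

lemma Wj_anti (e : ℕ → K) (M : ℕ) {j j' : ℕ} (h : j ≤ j') : Wj k e M j' ≤ Wj k e M j := by
  refine Submodule.span_mono (Set.image_mono ?_)
  rintro i ⟨h1, h2⟩
  exact ⟨by omega, h2⟩

open Classical in
/-- The indices of the basis. -/
noncomputable def Tb (k : Type) {K : Type} [Field k] [Field K] [Algebra k K] (e : ℕ → K) (M : ℕ) :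
    Finset ℕ := (range M).filter fun j => e j ∉ Wj k e M (j + 1)

lemma rank_T (e : ℕ → K) (M : ℕ) (t : ℕ) : t ≤ M →
    ((Tb k e M).filter fun j => M - t ≤ j).card ≤ Module.finrank k (Wj k e M (M - t)) := by
  classical
  induction t with
  | zero =>
    intro _
    have h1 : (Tb k e M).filter (fun j => M - 0 ≤ j) = ∅ := by
      rw [Finset.filter_eq_empty_iff]
      intro j hj h2
      have h3 := Finset.mem_range.1 (Finset.mem_filter.1 hj).1
      omega
    rw [h1, Finset.card_empty]
    exact Nat.zero_le _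
  | succ t ih =>
    intro ht
    have ih' := ih (by omega)
    set j := M - (t + 1) with hj
    have hj1 : M - t = j + 1 := by omega
    rw [hj1] at ih'
    have hfin := Wj_fin (k := k) e M j
    have hfin' := Wj_fin (k := k) e M (j + 1)
    by_cases hjT : j ∈ Tb k e M
    · have h1 : (Tb k e M).filter (fun i => j ≤ i) =
          insert j ((Tb k e M).filter fun i => j + 1 ≤ i) := by
        ext i
        simp only [Finset.mem_filter, Finset.mem_insert]
        constructor
        · rintro ⟨h2, h3⟩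
          by_cases h4 : i = j
          · exact Or.inl h4
          · exact Or.inr ⟨h2, by omega⟩
        · rintro (rfl | ⟨h2, h3⟩)
          · exact ⟨hjT, le_rfl⟩
          · exact ⟨h2, by omega⟩
      rw [h1, Finset.card_insert_of_notMem (by simp)]
      have h2 : Wj k e M (j + 1) < Wj k e M j := by
        refine lt_of_le_of_ne (Wj_anti e M (Nat.le_succ _)) fun h3 => ?_
        have h4 : e j ∈ Wj k e M j := Submodule.subset_span
          ⟨j, ⟨le_rfl, by omega⟩, rfl⟩
        rw [← h3] at h4
        exact (Finset.mem_filter.1 hjT).2 h4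
      have h3 := Submodule.finrank_lt_finrank_of_lt h2
      omega
    · have h1 : (Tb k e M).filter (fun i => j ≤ i) = (Tb k e M).filter fun i => j + 1 ≤ i := by
        ext i
        simp only [Finset.mem_filter]
        constructor
        · rintro ⟨h2, h3⟩
          refine ⟨h2, ?_⟩
          by_contra h4
          have h5 : i = j := by omega
          exact hjT (h5 ▸ h2)
        · rintro ⟨h2, h3⟩
          exact ⟨h2, by omega⟩
      rw [h1]
      exact ih'.trans (Submodule.finrank_mono (Wj_anti e M (Nat.le_succ _)))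

lemma card_T [DecidableEq K] {Φ : Finset K} {e : ℕ → K} (he : IsEn Φ e) {n : ℕ}
    (hrk : Module.finrank k (Submodule.span k (Φ : Set K)) ≤ n) :
    (Tb k e Φ.card).card ≤ n := by
  classical
  have h2 := rank_T (k := k) e Φ.card Φ.card le_rfl
  rw [Nat.sub_self] at h2
  have h3 : (Tb k e Φ.card).filter (fun j => 0 ≤ j) = Tb k e Φ.card :=
    Finset.filter_true_of_mem fun _ _ => Nat.zero_le _
  rw [h3] at h2
  have h4 : Wj k e Φ.card 0 ≤ Submodule.span k (Φ : Set K) := by
    refine Submodule.span_mono ?_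
    rintro x ⟨j, hj, rfl⟩
    exact he.mem hj.2
  have h5 : Module.Finite k (Submodule.span k (Φ : Set K)) :=
    Module.Finite.span_of_finite k (Finset.finite_toSet Φ)
  have h6 := Submodule.finrank_mono h4
  omega

end rank

section reg

variable {k D : Type} [Field k] [CommRing D] [Algebra k D]

/-- Localizations of regular subalgebras are regular. -/
lemma regular_lc {C : Subalgebra k D} (hC : IsRegularRing C) {x : D} (hx : x ∈ C)
    (hu : IsUnit x) : IsRegularRing (lc C x hx) := by
  let _ : Algebra C (lc C x hx) := (Subalgebra.inclusion (le_lc C x hx)).toRingHom.toAlgebra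
  have hloc := isLoc_lc C hx hu
  exact Pool.Agent.Y223.G.regular_of_isLocalization (Submonoid.powers (⟨x, hx⟩ : C))

/-- Regularity is local. -/
lemma regular_of_lc [IsDomain D] {C : Subalgebra k D} (hn : IsNoetherianRing C)
    (h : ∀ Q : Ideal C, Q.IsPrime → ∃ (x : D) (hx : x ∈ C), IsUnit x ∧ (⟨x, hx⟩ : C) ∉ Q ∧
      IsRegularRing (lc C x hx)) : IsRegularRing C := by
  rw [isRegularRing_iff]
  intro Q hQ
  obtain ⟨x, hx, hu, hxQ, hreg⟩ := h Q hQ
  let _ : Algebra C (lc C x hx) := (Subalgebra.inclusion (le_lc C x hx)).toRingHom.toAlgebra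
  have hloc : IsLocalization (Submonoid.powers (⟨x, hx⟩ : C)) (lc C x hx) := isLoc_lc C hx hu
  have hdis : Disjoint ((Submonoid.powers (⟨x, hx⟩ : C) : Submonoid C) : Set C) (Q : Set C) := by
    rw [Set.disjoint_left]
    rintro _ ⟨m, rfl⟩ h1
    exact hxQ (hQ.mem_of_pow_mem m h1)
  let Q' : Ideal (lc C x hx) := Q.map (algebraMap C (lc C x hx))
  have hQ' : Q'.IsPrime :=
    IsLocalization.isPrime_of_isPrime_disjoint (Submonoid.powers (⟨x, hx⟩ : C)) _ Q hQ hdis
  have hcomap : Q'.comap (algebraMap C (lc C x hx)) = Q :=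
    IsLocalization.comap_map_of_isPrime_disjoint (Submonoid.powers (⟨x, hx⟩ : C)) _ hQ hdis
  have h1 : IsRegularLocalRing (Localization.AtPrime Q') := inferInstance
  have h2 : IsLocalization.AtPrime (Localization.AtPrime Q') (Q'.comap (algebraMap C _)) :=
    IsLocalization.isLocalization_isLocalization_atPrime_isLocalization
      (Submonoid.powers (⟨x, hx⟩ : C)) (Localization.AtPrime Q') Q'
  have h3 : IsLocalization.AtPrime (Localization.AtPrime Q') Q := by
    have h4 : (Q'.comap (algebraMap C (lc C x hx))).primeCompl = Q.primeCompl := by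
      ext y
      rw [Ideal.mem_primeCompl_iff, Ideal.mem_primeCompl_iff, hcomap]
    unfold IsLocalization.AtPrime at h2 ⊢
    rwa [h4] at h2
  exact IsRegularLocalRing.of_ringEquiv
    (IsLocalization.algEquiv Q.primeCompl (Localization.AtPrime Q')
      (Localization.AtPrime Q)).toRingEquiv

end reg

section loc

variable {k K : Type} [Field k] [Field K] [Algebra k K] {ι : Type} [Fintype ι] [DecidableEq ι]
  {L : Type} [AddCommGroup L] {dg : L ≃+ (ι → ℤ)}

/-- The rescaled elements. -/
noncomputable def sh (dg : L ≃+ (ι → ℤ)) (N : ℕ → ι → ℕ) (e : ℕ → K) (j : ℕ) : ML K L :=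
  mo (dg.symm (vz (N j))) (e j)

/-- The inverses of the rescaled elements. -/
noncomputable def shi (dg : L ≃+ (ι → ℤ)) (N : ℕ → ι → ℕ) (e : ℕ → K) (j : ℕ) : ML K L :=
  mo (-(dg.symm (vz (N j)))) (e j)⁻¹

lemma sh_mul_shi {N : ℕ → ι → ℕ} {e : ℕ → K} {j : ℕ} (h : e j ≠ 0) :
    sh dg N e j * shi dg N e j = 1 := mo_inv h

/-- The generators of the local model. -/
structure Gn (dg : L ≃+ (ι → ℤ)) (J : Set ι) (N : ℕ → ι → ℕ) (e : ℕ → K) (M : ℕ)
    (R : Subalgebra k (ML K L)) : Prop where
  x : ∀ i, xz K dg (Pi.single i 1) ∈ R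
  xi : ∀ i, i ∉ J → xz K dg (Pi.single i (-1)) ∈ R
  s : ∀ j, j < M → sh dg N e j ∈ R
  si : ∀ j, j < M → shi dg N e j ∈ R

/-- The local model. -/
theorem exists_model [DecidableEq K] [IsDomain (ML K L)] {Φ : Finset K} {J : Set ι}
    {N : ℕ → ι → ℕ} {e : ℕ → K}
    (he : IsEn Φ e) (h0 : ∀ a ∈ Φ, a ≠ 0) {n : ℕ}
    (hrk : Module.finrank k (Submodule.span k (Φ : Set K)) ≤ n)
    (htr : (n : Cardinal) ≤ Algebra.trdeg k K)
    (hN : ∀ j j' i, j ≤ j' → N j i ≤ N j' i)
    (hK : ∀ x : K, ∃ a ∈ Algebra.adjoin k (Φ : Set K), ∃ b ∈ Algebra.adjoin k (Φ : Set K),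
      b ≠ 0 ∧ x = a / b) :
    ∃ R : Subalgebra k (ML K L), Algebra.Smooth k R ∧ IsRegularRing R ∧ IC R ∧
      Gn dg J N e Φ.card R ∧
      ∀ R' : Subalgebra k (ML K L), Gn dg J N e Φ.card R' → R ≤ R' := by
  classical
  set M := Φ.card with hM
  have he0 : ∀ j < M, e j ≠ 0 := fun j hj => h0 _ (he.mem hj)
  let I := ι ⊕ (Tb k e M)
  let x : I → ML K L := Sum.elim (fun i => xz K dg (Pi.single i 1)) fun j => sh dg N e j
  let R0 := Algebra.adjoin k (Set.range x)
  have hx0 : ∀ i, xz K dg (Pi.single i 1) ∈ R0 := fun i =>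
    Algebra.subset_adjoin ⟨Sum.inl i, rfl⟩
  have hs0 : ∀ j ∈ Tb k e M, sh dg N e j ∈ R0 := fun j hj =>
    Algebra.subset_adjoin ⟨Sum.inr ⟨j, hj⟩, rfl⟩
  -- the localization at the invertible coordinates
  let mJ : ι → ℤ := fun i => if i ∈ J then 0 else 1
  have hg1 : xz K dg mJ ∈ R0 := by
    refine xz_mem (J := Set.univ) hx0 (fun i hi => absurd (Set.mem_univ i) hi) fun i _ => ?_
    change 0 ≤ (if i ∈ J then (0 : ℤ) else 1)
    split_ifs <;> omega
  let R1 := lc R0 (xz K dg mJ) hg1
  have h01 : R0 ≤ R1 := le_lc _ _ _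
  have hx1i : ∀ i, i ∉ J → xz K dg (Pi.single i (-1)) ∈ R1 := by
    intro i hi
    refine ⟨1, ?_⟩
    rw [pow_one, ← xz_add]
    refine xz_mem (J := Set.univ) hx0 (fun i hi => absurd (Set.mem_univ i) hi) fun l _ => ?_
    rw [Pi.add_apply]
    change 0 ≤ (if l ∈ J then (0 : ℤ) else 1) + _
    by_cases hl : l = i
    · subst hl
      rw [if_neg hi, Pi.single_eq_same]
      omega
    · rw [Pi.single_eq_of_ne hl]
      split_ifs <;> omega
  have hxz1 : ∀ m : ι → ℤ, (∀ i ∈ J, 0 ≤ m i) → xz K dg m ∈ R1 := fun m hm =>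
    xz_mem (fun i => h01 (hx0 i)) hx1i hm
  -- all rescaled elements are there
  have hs1 : ∀ t, t ≤ M → ∀ j, M - t ≤ j → j < M → sh dg N e j ∈ R1 := by
    intro t
    induction t with
    | zero =>
      intro _ j h2 h3
      omega
    | succ t ih =>
      intro ht j h2 h3
      have ih' := ih (by omega)
      by_cases h4 : M - t ≤ j
      · exact ih' j h4 h3
      have hjt : M - t = j + 1 := by omega
      rw [hjt] at ih'
      by_cases hjT : j ∈ Tb k e M
      · exact h01 (hs0 j hjT)
      have hjW : e j ∈ Wj k e M (j + 1) := by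
        by_contra hcon
        exact hjT (Finset.mem_filter.2 ⟨Finset.mem_range.2 h3, hcon⟩)
      unfold Wj at hjW
      have hset : {i | j + 1 ≤ i ∧ i < M} = {i | j < i ∧ i < M} := rfl
      rw [hset] at hjW
      -- the submodule of elements whose rescaling is in the algebra
      let Z : Submodule k K :=
        { carrier := {y | mo (dg.symm (vz (N j))) y ∈ R1}
          add_mem' := fun {a b} ha hb => by
            change mo _ (a + b) ∈ R1
            rw [mo_add]
            exact R1.add_mem ha hb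
          zero_mem' := by
            change mo _ 0 ∈ R1
            rw [mo_zero]
            exact R1.zero_mem
          smul_mem' := fun r a ha => by
            change mo _ (r • a) ∈ R1
            rw [← smul_mo]
            exact R1.smul_mem ha r }
      have hwZ : e j ∈ Z := by
        have h5 : Submodule.span k (e '' {i | j < i ∧ i < M}) ≤ Z := by
          rw [Submodule.span_le]
          rintro _ ⟨i, ⟨hi1, hi2⟩, rfl⟩
          change mo (dg.symm (vz (N j))) (e i) ∈ R1
          have h6 : mo (dg.symm (vz (N j))) (e i) =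
              sh dg N e i * xz K dg (vz (N i) - vz (N j)) := by
            unfold sh xz
            rw [mo_mul, mul_one, ← map_add]
            congr 2
            abel
          rw [h6]
          refine R1.mul_mem (ih' i hi1 hi2) (hxz1 _ fun l _ => ?_)
          have := hN j i l hi1.le
          simp only [vz, Pi.sub_apply]
          omega
        exact h5 hjW
      exact hwZ
  have hs1' : ∀ j < M, sh dg N e j ∈ R1 := fun j hj => hs1 M le_rfl j (by omega) hj
  -- the localization at the rescaled elements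
  let g2 : ML K L := ∏ j ∈ range M, sh dg N e j
  have hg2 : g2 ∈ R1 := R1.prod_mem fun j hj => hs1' j (Finset.mem_range.1 hj)
  let R2 := lc R1 g2 hg2
  have h12 : R1 ≤ R2 := le_lc _ _ _
  have hgn : Gn dg J N e M R2 :=
    { x := fun i => h12 (h01 (hx0 i))
      xi := fun i hi => h12 (hx1i i hi)
      s := fun j hj => h12 (hs1' j hj)
      si := fun j hj => by
        refine ⟨1, ?_⟩
        rw [pow_one]
        change (∏ j ∈ range M, sh dg N e j) * _ ∈ R1
        rw [← Finset.mul_prod_erase _ _ (Finset.mem_range.2 hj), mul_right_comm,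
          sh_mul_shi (he0 j hj), one_mul]
        exact R1.prod_mem fun i hi => hs1' i (Finset.mem_range.1 (Finset.mem_of_mem_erase hi)) }
  -- units
  have hu1 : IsUnit (xz K dg mJ) := IsUnit.of_mul_eq_one _ (xz_inv dg mJ)
  have hu2 : IsUnit g2 := by
    have h5 : g2 * (∏ j ∈ range M, shi dg N e j) = 1 := by
      change (∏ j ∈ range M, sh dg N e j) * _ = 1
      rw [← Finset.prod_mul_distrib]
      exact Finset.prod_eq_one fun j hj => sh_mul_shi (he0 j (Finset.mem_range.1 hj))
    exact IsUnit.of_mul_eq_one _ h5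
  -- minimality
  have hmin : ∀ R' : Subalgebra k (ML K L), Gn dg J N e M R' → R2 ≤ R' := by
    intro R' h'
    have h5 : R0 ≤ R' := by
      refine Algebra.adjoin_le ?_
      rintro _ ⟨i | ⟨j, hj⟩, rfl⟩
      · exact h'.x i
      · exact h'.s j (Finset.mem_range.1 (Finset.mem_filter.1 hj).1)
    have h6 : R1 ≤ R' := by
      refine lc_le hg1 (xz_inv dg mJ) h5 (xz_mem h'.x h'.xi fun i hi => ?_)
      change 0 ≤ -(if i ∈ J then (0 : ℤ) else 1)
      rw [if_pos hi]
      rfl
    refine lc_le (y := ∏ j ∈ range M, shi dg N e j) hg2 ?_ h6 (R'.prod_mem fun j hj =>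
      h'.si j (Finset.mem_range.1 hj))
    change (∏ j ∈ range M, sh dg N e j) * _ = 1
    rw [← Finset.prod_mul_distrib]
    exact Finset.prod_eq_one fun j hj => sh_mul_shi (he0 j (Finset.mem_range.1 hj))
  -- the generators are algebraically independent
  have hsat : ∀ Z : Subalgebra k (ML K L), Sat Z → (∀ i, x i ∈ Z) → Z = ⊤ := by
    intro Z hZ hxZ
    have h5 : R2 ≤ Z := by
      have h6 : R0 ≤ Z := Algebra.adjoin_le (by rintro _ ⟨i, rfl⟩; exact hxZ i)
      have h7 : R1 ≤ Z := by
        rintro f ⟨r, hr⟩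
        refine hZ _ _ (Z.pow_mem (h6 hg1) r) (pow_ne_zero _ (xz_ne dg _)) (h6 hr)
      rintro f ⟨r, hr⟩
      exact hZ _ _ (Z.pow_mem (h7 hg2) r) (pow_ne_zero _ hu2.ne_zero) (h7 hr)
    refine sat_top (dg := dg) hZ (fun i => h5 (hgn.x i)) (fun s hs => ?_) hK
    obtain ⟨j, hj, rfl⟩ := he.exists_eq hs
    exact ⟨_, h5 (hgn.s j hj)⟩
  have hcard : #I ≤ Algebra.trdeg k (ML K L) := by
    have h5 := trdeg_ML (k := k) dg htr
    refine le_trans ?_ h5
    have h6 := card_T he hrk
    have h7 : #I = (Fintype.card ι + (Tb k e M).card : ℕ) := by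
      rw [Cardinal.mk_fintype]
      simp [I]
    rw [h7]
    have h8 : Fintype.card ι + (Tb k e M).card ≤ n + Fintype.card ι := by
      rw [add_comm]
      exact Nat.add_le_add_right h6 _
    exact_mod_cast h8
  have halg : Algebra.IsAlgebraic R0 (ML K L) := by
    refine isAlgebraic_of_acl _ fun Z hZ hle => hsat Z (Acl.sat hZ) fun i => ?_
    exact hle (Algebra.subset_adjoin ⟨i, rfl⟩)
  have hb := Algebra.IsAlgebraic.isTranscendenceBasis_of_le_trdeg_of_finite k x hcard
  have hai : AlgebraicIndependent k x := hb.1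
  have hsm0 : Algebra.Smooth k R0 := by
    have hsm : Algebra.Smooth k (MvPolynomial I k) := by
      constructor
      · infer_instance
      · infer_instance
    exact Algebra.Smooth.of_equiv hai.aevalEquiv
  have hreg0 : IsRegularRing R0 := by
    have h5 : IsRegularRing (MvPolynomial I k) := inferInstance
    exact IsRegularRing.of_ringEquiv hai.aevalEquiv.toRingEquiv
  have hic0 : IC R0 := by
    have : IsIntegrallyClosed R0 :=
      IsIntegrallyClosed.of_equiv hai.aevalEquiv.toRingEquiv
    refine IC.of_normal R0 (frc_of_frz (hsat _ (sat_frz R0) fun i => ?_))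
    exact le_frz R0 (Algebra.subset_adjoin ⟨i, rfl⟩)
  refine ⟨R2, ?_, ?_, ?_, hgn, hmin⟩
  · exact smooth_lc (smooth_lc hsm0 hg1 hu1) hg2 hu2
  · exact regular_lc (regular_lc hreg0 hg1 hu1) hg2 hu2
  · exact (hic0.lc hg1 hu1).lc hg2 hu2

end loc

end Pool.Agent.Helper49.PQ
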