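import Pool.Agent.Helper49.PQ.Loc3

/-!
# Comparison of the chart with the local model
-/

set_option autoImplicit false
set_option linter.unusedSectionVars false

namespace Pool.Agent.Helper49.PQ

open Finset Pool.Agent.W559.Mg Cardinal Pool.Agent.Helper46.AQ

section mzlt

variable {Γ : Type} [LinearOrderedCommGroupWithZero Γ] {ι : Type} [Fintype ι]

lemma mz_lt_one {ξ : ι → Γ} (h1 : ∀ i, ξ i ≤ 1) {m : ι → ℤ}
    (hm : ∀ i, 0 ≤ m i) {i : ι} (hi : 0 < m i) (hξ : ξ i < 1) : mz ξ m < 1 := by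
  classical
  unfold mz
  rw [← Finset.mul_prod_erase _ _ (Finset.mem_univ i)]
  have h2 : ξ i ^ m i < 1 := by
    obtain ⟨n, hn⟩ := Int.eq_ofNat_of_zero_le (hm i)
    rw [hn, zpow_natCast]
    refine pow_lt_one₀ zero_le hξ ?_
    omega
  have h3 : ∏ j ∈ univ.erase i, ξ j ^ m j ≤ 1 := by
    refine Finset.prod_le_one' fun j _ => ?_
    obtain ⟨n, hn⟩ := Int.eq_ofNat_of_zero_le (hm j)
    rw [hn, zpow_natCast]
    exact pow_le_one' (h1 j) n
  calc ξ i ^ m i * ∏ j ∈ univ.erase i, ξ j ^ m j ≤ ξ i ^ m i * 1 := mul_le_mul_right h3 _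
    _ < 1 := by rw [mul_one]; exact h2

lemma all_one_of_prod {J : Type} [Fintype J] {a : J → Γ} (h1 : ∀ j, a j ≤ 1)
    (h : ∏ j, a j = 1) (j : J) : a j = 1 := by
  classical
  by_contra hcon
  have h2 : a j < 1 := lt_of_le_of_ne (h1 j) hcon
  rw [← Finset.mul_prod_erase _ _ (Finset.mem_univ j)] at h
  have h3 : ∏ i ∈ univ.erase j, a i ≤ 1 := Finset.prod_le_one' fun i _ => h1 i
  have h4 : a j * ∏ i ∈ univ.erase j, a i < 1 :=
    calc a j * ∏ i ∈ univ.erase j, a i ≤ a j * 1 := mul_le_mul_right h3 _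
      _ < 1 := by rw [mul_one]; exact h2
  exact h4.ne h

end mzlt

section val

variable {k K : Type} [Field k] [Field K] [Algebra k K] {ι : Type} [Fintype ι] [DecidableEq ι]
  {L : Type} [AddCommGroup L] {dg : L ≃+ (ι → ℤ)} {F : Type} [Field F] [Algebra (ML K L) F]
  [FaithfulSMul (ML K L) F] {Γ : Type} [LinearOrderedCommGroupWithZero Γ]

/-- The restriction of a valuation to the coefficients. -/
noncomputable def vK (k : Type) {K : Type} [Field k] [Field K] [Algebra k K] (L : Type)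
    [AddCommGroup L] {F : Type} [Field F] [Algebra (ML K L) F] {Γ : Type}
    [LinearOrderedCommGroupWithZero Γ] (W : Valuation F Γ) : Valuation K Γ :=
  W.comap ((algebraMap (ML K L) F).comp (zr k K L).toRingHom)

/-- The values of the variables. -/
noncomputable def om (dg : L ≃+ (ι → ℤ)) (W : Valuation F Γ) (i : ι) : Γ :=
  W (algebraMap (ML K L) F (xz K dg (Pi.single i 1)))

variable {W : Valuation F Γ}

lemma vK_apply (a : K) : vK k L W a = W (algebraMap (ML K L) F (mo 0 a)) := rfl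

lemma am_ne {f : ML K L} (hf : f ≠ 0) : W (algebraMap (ML K L) F f) ≠ 0 := by
  rw [Valuation.ne_zero_iff]
  intro h
  exact hf (FaithfulSMul.algebraMap_injective (ML K L) F (by rw [h, map_zero]))

lemma om_ne (i : ι) : om (K := K) dg W i ≠ 0 := am_ne (xz_ne dg _)

lemma val_xz (m : ι → ℤ) : W (algebraMap (ML K L) F (xz K dg m)) = mz (om (K := K) dg W) m := by
  refine mz_of_hom (fun m => W (algebraMap (ML K L) F (xz K dg m)))
    (fun m => am_ne (xz_ne dg m)) (fun m m' => ?_) m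
  rw [xz_add, map_mul, map_mul]

lemma val_mo (m : L) (a : K) : W (algebraMap (ML K L) F (mo m a)) =
    vK k L W a / mz (om (K := K) dg W) (dg m) := by
  rw [mo_eq_xz dg m a, map_mul, map_mul, val_xz, mz_neg, ← vK_apply (k := k), div_eq_mul_inv]

lemma val_sum_le {f : ML K L} {c : Γ} (h : ∀ m, W (algebraMap (ML K L) F (mo m (f.coeff m))) ≤ c) :
    W (algebraMap (ML K L) F f) ≤ c := by
  rw [eq_sum_mo f, map_sum]
  exact W.map_sum_le fun m _ => h m

end val

section model

variable {k K : Type} [Field k] [Field K] [Algebra k K] [DecidableEq K] {G : Type} [Group G]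
  {ρ : G →* (K ≃ₐ[k] K)} {B : Subalgebra k K} {Φ : Finset K}
  {ι : Type} [Fintype ι] [DecidableEq ι] {A B' : ι → Finset K} {Ex : ι → ι → Prop}
  {N : ℕ → ι → ℕ} {L : Type} [AddCommGroup L] {dg : L ≃+ (ι → ℤ)}
  (hS : Sys ρ B Φ A B' Ex N) (hB : B = Algebra.adjoin k (Φ : Set K))

lemma pos_of_gen (hB : B = Algebra.adjoin k (Φ : Set K)) {Γ : Type}
    [LinearOrderedCommGroupWithZero Γ] {w : Valuation K Γ} (hk : ∀ r : k, w (algebraMap k K r) ≤ 1)
    (hs : ∀ s ∈ Φ, w s ≤ 1) (h1 : ∃ s ∈ Φ, w s = 1) : Pos B Φ w := by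
  let S : Subalgebra k K :=
    { carrier := {x | w x ≤ 1}
      mul_mem' := fun {a b} ha hb => by
        change w (a * b) ≤ 1
        rw [map_mul]
        exact mul_le_one' ha hb
      add_mem' := fun {a b} ha hb => (w.map_add a b).trans (max_le ha hb)
      algebraMap_mem' := hk }
  have h2 : B ≤ S := by
    rw [hB]
    exact Algebra.adjoin_le hs
  refine ⟨fun b hb => h2 hb, le_antisymm (mx_le hs) ?_⟩
  obtain ⟨s, hs1, hs2⟩ := h1
  rw [← hs2]
  exact le_mx hs1

variable {Γ₀ : Type} [LinearOrderedCommGroupWithZero Γ₀] {v : Valuation K Γ₀} {e : ℕ → K}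

/-- The hypotheses on the enumeration. -/
structure EnV (B : Subalgebra k K) (Φ : Finset K) (A B' : ι → Finset K) (N : ℕ → ι → ℕ)
    (v : Valuation K Γ₀) (e : ℕ → K) : Prop where
  pos : Pos B Φ v
  en : IsEn Φ e
  va : ∀ j < Φ.card, v (e j) = mz (al A B' v) (vz (N j))

include hS in
lemma EnV.anti (h : EnV B Φ A B' N v e) {i j : ℕ} (hij : i ≤ j) (hj : j < Φ.card) :
    v (e j) ≤ v (e i) := by
  rw [h.va j hj, h.va i (by omega)]
  exact mz_anti (hS.pc.al_ne v) (hS.pc.le1 _ v h.pos) fun l => hS.mono _ _ _ hij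

section W

variable {F : Type} [Field F] [Algebra (ML K L) F] [FaithfulSMul (ML K L) F] {Γ : Type}
  [LinearOrderedCommGroupWithZero Γ] {W : Valuation F Γ}

include hS hB in
/-- The values of a valuation which is bounded on the local model. -/
lemma model_val (h : EnV B Φ A B' N v e) (h0 : ∀ a ∈ Φ, a ≠ 0) {R : Subalgebra k (ML K L)}
    (hR : Gn dg {i | al A B' v i < 1} N e Φ.card R)
    (hW : ∀ r ∈ R, W (algebraMap (ML K L) F r) ≤ 1) :
    Pos B Φ (vK k L W) ∧ om (K := K) dg W = al A B' (vK k L W) := by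
  have hω1 : ∀ i, om (K := K) dg W i ≤ 1 := fun i => hW _ (hR.x i)
  have hω : ∀ i, ¬ al A B' v i < 1 → om (K := K) dg W i = 1 := by
    intro i hi
    refine le_antisymm (hω1 i) ?_
    have h1 := hW _ (hR.xi i hi)
    have h2 : om (K := K) dg W i * W (algebraMap (ML K L) F (xz K dg (Pi.single i (-1)))) = 1 := by
      unfold om
      rw [← map_mul, ← map_mul, Pi.single_neg, xz_inv, map_one, map_one]
    calc (1 : Γ) = om (K := K) dg W i * W (algebraMap (ML K L) F (xz K dg (Pi.single i (-1)))) :=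
          h2.symm
      _ ≤ om (K := K) dg W i * 1 := mul_le_mul_right h1 _
      _ = _ := mul_one _
  have hs1 : ∀ j < Φ.card, W (algebraMap (ML K L) F (sh dg N e j)) = 1 := by
    intro j hj
    refine le_antisymm (hW _ (hR.s j hj)) ?_
    have h1 := hW _ (hR.si j hj)
    have h2 : W (algebraMap (ML K L) F (sh dg N e j)) *
        W (algebraMap (ML K L) F (shi dg N e j)) = 1 := by
      rw [← map_mul, ← map_mul, sh_mul_shi (h0 _ (h.en.mem hj)), map_one, map_one]
    calc (1 : Γ) = W (algebraMap (ML K L) F (sh dg N e j)) *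
          W (algebraMap (ML K L) F (shi dg N e j)) := h2.symm
      _ ≤ W (algebraMap (ML K L) F (sh dg N e j)) * 1 := mul_le_mul_right h1 _
      _ = _ := mul_one _
  have hev : ∀ j < Φ.card, vK k L W (e j) = mz (om (K := K) dg W) (vz (N j)) := by
    intro j hj
    have h1 := hs1 j hj
    unfold sh at h1
    rw [val_mo (k := k) (dg := dg), AddEquiv.apply_symm_apply,
      div_eq_one_iff_eq (mz_ne_zero om_ne _)] at h1
    exact h1
  have hpos : Pos B Φ (vK k L W) := by
    refine pos_of_gen hB (fun r => ?_) (fun s hs => ?_) ?_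
    · rw [vK_apply]
      exact hW _ (R.algebraMap_mem r)
    · obtain ⟨j, hj, rfl⟩ := h.en.exists_eq hs
      rw [hev j hj]
      exact mz_le_one hω1 (vz_nonneg _)
    · have hc : 0 < Φ.card := hS.pc.fΦ.ne.card_pos
      refine ⟨e 0, h.en.mem hc, ?_⟩
      have hz : vz (N 0) = 0 := by
        funext i
        simp [vz, hS.z0 i]
      rw [hev 0 hc, hz, mz_zero]
  refine ⟨hpos, hS.un _ _ hpos _ om_ne hω1 (fun i j hij => ?_) e h.en hev⟩
  rcases hS.ex _ v h.pos i j hij with h1 | h1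
  · exact Or.inl (hω i (by rw [h1]; exact lt_irrefl _))
  · exact Or.inr (hω j (by rw [h1]; exact lt_irrefl _))

end W

/-- The exponents of the families. -/
def LA (B : Subalgebra k K) (Φ : Finset K) (A B' : ι → Finset K)
    (c : Option (ι ⊕ ι) → ι → ℤ) : Prop :=
  ∀ (Γ : Type) [LinearOrderedCommGroupWithZero Γ] (v : Valuation K Γ),
    Pos B Φ v → ∀ j, mx v (fm Φ A B' j) = mz (al A B' v) (c j)

/-- The rescaled functions of the chart. -/
noncomputable def hz (dg : L ≃+ (ι → ℤ)) (c : Option (ι ⊕ ι) → ι → ℤ) (D : Tp Φ A B') (j : Option (ι ⊕ ι)) :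
    ML K L := mo (dg.symm (EE Φ A B' • c j)) (hh D j)

/-- The inverses of the rescaled functions of the chart. -/
noncomputable def hzi (dg : L ≃+ (ι → ℤ)) (c : Option (ι ⊕ ι) → ι → ℤ) (D : Tp Φ A B') (j : Option (ι ⊕ ι)) :
    ML K L := mo (-(dg.symm (EE Φ A B' • c j))) (hh D j)⁻¹

lemma hz_mul_hzi (c : Option (ι ⊕ ι) → ι → ℤ) (D : Tp Φ A B') (j : Option (ι ⊕ ι)) :
    hz dg c D j * hzi dg c D j = 1 := mo_inv (hh_ne D j)

variable {c : Option (ι ⊕ ι) → ι → ℤ} (hc : LA B Φ A B' c) {D : Tp Φ A B'}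

include hc in
lemma hz_mem (hPC : PC ρ B Φ A B') (j : Option (ι ⊕ ι)) : hz dg c D j ∈ CC dg hPC D := by
  unfold hz
  rw [mo_mem_CC]
  intro Γ _ v hv
  rw [AddEquiv.apply_symm_apply, nm_nsmul, hv.2 j, hc Γ v hv.1 j]
  exact le_rfl

include hc in
lemma hzi_mem (hPC : PC ρ B Φ A B') (j : Option (ι ⊕ ι)) : hzi dg c D j ∈ CC dg hPC D := by
  unfold hzi
  rw [mo_mem_CC]
  intro Γ _ v hv
  rw [map_neg, AddEquiv.apply_symm_apply, nm_neg, nm_nsmul, map_inv₀, hv.2 j, hc Γ v hv.1 j]
  exact le_rfl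

include hS hB hc in
/-- The rescaled functions are in the model and the chart is in the localization. -/
theorem model_A [IsDomain (ML K L)] (h : EnV B Φ A B' N v e) (h0 : ∀ a ∈ Φ, a ≠ 0)
    {R : Subalgebra k (ML K L)}
    (hR : Gn dg {i | al A B' v i < 1} N e Φ.card R) (hIC : IC R) :
    ∃ hm : (∏ j, hz dg c D j) ∈ R, CC dg hS.pc D ≤ lc R (∏ j, hz dg c D j) hm := by
  let F := FractionRing (ML K L)
  have hval : ∀ (V : ValuationSubring F), (∀ r ∈ R, algebraMap (ML K L) F r ∈ V) → ∀ j,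
      V.valuation (algebraMap (ML K L) F (hz dg c D j)) =
        vK k L V.valuation (hh D j) / mx (vK k L V.valuation) (fm Φ A B' j) ^ EE Φ A B' := by
    intro V hV j
    obtain ⟨h1, h2⟩ := model_val (W := V.valuation) hS hB h h0 hR
      (fun r hr => (V.valuation_le_one_iff _).2 (hV r hr))
    unfold hz
    rw [val_mo (k := k) (dg := dg), AddEquiv.apply_symm_apply, mz_nsmul, h2, hc _ _ h1 j]
  have hle : ∀ (V : ValuationSubring F), (∀ r ∈ R, algebraMap (ML K L) F r ∈ V) → ∀ j,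
      V.valuation (algebraMap (ML K L) F (hz dg c D j)) ≤ 1 := by
    intro V hV j
    rw [hval V hV j]
    have h3 : mx (vK k L V.valuation) (fm Φ A B' j) ^ EE Φ A B' ≠ 0 := pow_ne_zero _ (hS.pc.mx_ne _ j)
    rw [div_le_one₀ (zero_lt_iff.2 h3)]
    exact hh_le D j
  have hm : ∀ j, hz dg c D j ∈ R := fun j => hIC.of_val F _ fun V hV =>
    (V.valuation_le_one_iff _).1 (hle V hV j)
  have hm' : (∏ j, hz dg c D j) ∈ R := R.prod_mem fun j _ => hm j
  have hprod : (∏ j, hz dg c D j) * ∏ j, hzi dg c D j = 1 := by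
    rw [← Finset.prod_mul_distrib]
    exact Finset.prod_eq_one fun j _ => hz_mul_hzi c D j
  have hunit : IsUnit (∏ j, hz dg c D j) := IsUnit.of_mul_eq_one _ hprod
  refine ⟨hm', fun f hf => (hIC.lc hm' hunit).of_val F _ fun V hV => ?_⟩
  have hVR : ∀ r ∈ R, algebraMap (ML K L) F r ∈ V := fun r hr => hV r (le_lc _ _ _ hr)
  obtain ⟨h1, h2⟩ := model_val (W := V.valuation) hS hB h h0 hR
    (fun r hr => (V.valuation_le_one_iff _).2 (hVR r hr))
  have h3 : ∏ j, V.valuation (algebraMap (ML K L) F (hz dg c D j)) = 1 := by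
    rw [← map_prod, ← map_prod]
    have h4 : V.valuation (algebraMap (ML K L) F (∏ j, hz dg c D j)) *
        V.valuation (algebraMap (ML K L) F (∏ j, hzi dg c D j)) = 1 := by
      rw [← map_mul, ← map_mul, hprod, map_one, map_one]
    have h5 := (V.valuation_le_one_iff _).2 (hV _ (le_lc _ _ _ hm'))
    have h6 := (V.valuation_le_one_iff _).2 (hV _ (inv_mem_lc R _ _ hm' hprod))
    refine le_antisymm h5 ?_
    calc (1 : V.ValueGroup) = _ := h4.symm
      _ ≤ V.valuation (algebraMap (ML K L) F (∏ j, hz dg c D j)) * 1 := mul_le_mul_right h6 _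
      _ = _ := mul_one _
  have h4 := all_one_of_prod (hle V hVR) h3
  have hVd : Vd B (vK k L V.valuation) D := by
    refine ⟨h1, fun j => ?_⟩
    have h5 := h4 j
    rw [hval V hVR j, div_eq_one_iff_eq (pow_ne_zero _ (hS.pc.mx_ne _ j))] at h5
    exact h5
  rw [← V.valuation_le_one_iff]
  refine val_sum_le fun m => ?_
  rw [val_mo (k := k) (dg := dg), div_le_one₀ (zero_lt_iff.2 (mz_ne_zero om_ne _)), h2]
  exact hf _ _ hVd m

end model

end Pool.Agent.Helper49.PQ
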