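import Pool.Agent.Helper49.PQ.Loc4
import Pool.Graph.R_seed8.W559.Mg.T2

/-!
# Smoothness of the charts
-/

set_option autoImplicit false
set_option linter.unusedSectionVars false

namespace Pool.Agent.Helper49.PQ

open Finset Pool.Agent.W559.Mg Cardinal Pool.Agent.Helper46.AQ

variable {k K : Type} [Field k] [Field K] [Algebra k K] [DecidableEq K] {G : Type} [Group G]
  {ρ : G →* (K ≃ₐ[k] K)} {B : Subalgebra k K} {Φ : Finset K}
  {ι : Type} [Fintype ι] [DecidableEq ι] {A B' : ι → Finset K} {Ex : ι → ι → Prop}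
  {N : ℕ → ι → ℕ} {L : Type} [AddCommGroup L] {dg : L ≃+ (ι → ℤ)}

/-- The basic hypotheses. -/
structure Base (ρ : G →* (K ≃ₐ[k] K)) (B : Subalgebra k K) (Φ : Finset K) (n : ℕ) : Prop where
  fam : Fam ρ B Φ
  gen : B = Algebra.adjoin k (Φ : Set K)
  rk : Module.finrank k (Submodule.span k (Φ : Set K)) ≤ n
  tr : (n : Cardinal) ≤ Algebra.trdeg k K
  fr : ∀ x : K, ∃ a ∈ Algebra.adjoin k (Φ : Set K), ∃ b ∈ Algebra.adjoin k (Φ : Set K),
    b ≠ 0 ∧ x = a / b
  sub : ∀ a ∈ Φ, ∀ b ∈ Φ, a ≠ b → a - b ∈ Φ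

section pt

variable (hS : Sys ρ B Φ A B' Ex N) {D : Tp Φ A B'}

lemma xz_mem_CC (hPC : PC ρ B Φ A B') (i : ι) : xz K dg (Pi.single i 1) ∈ CC dg hPC D := by
  unfold xz
  rw [mo_mem_CC]
  intro Γ _ v hv
  rw [AddEquiv.apply_symm_apply, nm_neg, nm_single, map_one, zpow_one]
  exact (one_le_inv₀ (zero_lt_iff.2 (hPC.al_ne v i))).2 (hPC.le1 Γ v hv.1 i)

lemma xz_mem_CC' (hPC : PC ρ B Φ A B') {m : ι → ℤ} (hm : ∀ i, 0 ≤ m i) :
    xz K dg m ∈ CC dg hPC D :=
  xz_mem (J := Set.univ) (xz_mem_CC hPC) (fun i hi => absurd (Set.mem_univ i) hi)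
    fun i _ => hm i

/-- Valuations centred at a prime of the chart. -/
structure Cen (dg : L ≃+ (ι → ℤ)) (hPC : PC ρ B Φ A B') (D : Tp Φ A B') (Q : Ideal (CC dg hPC D))
    {F Γ : Type} [Field F] [Algebra (ML K L) F] [LinearOrderedCommGroupWithZero Γ]
    (W : Valuation F Γ) : Prop where
  le : ∀ f ∈ CC dg hPC D, W (algebraMap (ML K L) F f) ≤ 1
  lt : ∀ f : CC dg hPC D, W (algebraMap (ML K L) F f) < 1 ↔ f ∈ Q

variable {F Γ : Type} [Field F] [Algebra (ML K L) F] [FaithfulSMul (ML K L) F]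
  [LinearOrderedCommGroupWithZero Γ] {W : Valuation F Γ} {hPC : PC ρ B Φ A B'}
  {Q : Ideal (CC dg hPC D)}

lemma Cen.pos (h : Cen dg hPC D Q W) : Pos B Φ (vK k L W) := by
  have h1 : ∀ b ∈ B, vK k L W b ≤ 1 := by
    intro b hb
    rw [vK_apply]
    refine h.le _ ((mo_mem_CC hPC).2 fun Γ _ v hv => ?_)
    rw [map_zero, nm_zero]
    exact hv.1.1 _ hb
  refine ⟨h1, le_antisymm (mx_le fun a ha => h1 a (hPC.fΦ.mem a ha)) ?_⟩
  have h2 : vK k L W (hh D none)⁻¹ ≤ 1 := by
    rw [vK_apply]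
    refine h.le _ ((mo_mem_CC hPC).2 fun Γ _ v hv => ?_)
    rw [map_zero, nm_zero, map_inv₀, hv.hn, inv_one]
  have h3 : vK k L W (hh D none) ≠ 0 := (Valuation.ne_zero_iff _).2 (hh_ne D none)
  rw [map_inv₀] at h2
  have h4 : 1 ≤ vK k L W (hh D none) := (inv_le_one₀ (zero_lt_iff.2 h3)).1 h2
  have h5 := h4.trans (hh_le (v := vK k L W) D none)
  by_contra hcon
  push Not at hcon
  have h6 : mx (vK k L W) Φ ^ EE Φ A B' < 1 := pow_lt_one₀ zero_le hcon EE_pos.ne'
  exact absurd h5 (not_le.2 h6)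

lemma Cen.vd (h : Cen dg hPC D Q W) : Vd B (vK k L W) D := by
  refine hPC.vd_of h.pos D fun D' => ?_
  have h1 : vK k L W (HH D' / HH D) ≤ 1 := by
    rw [vK_apply]
    refine h.le _ ((mo_mem_CC hPC).2 fun Γ _ v hv => ?_)
    rw [map_zero, nm_zero]
    exact hv.RD_le _ (div_mem_RD D D')
  rw [map_div₀] at h1
  have h2 : vK k L W (HH D) ≠ 0 := (Valuation.ne_zero_iff _).2 (HH_ne D)
  rwa [div_le_one₀ (zero_lt_iff.2 h2)] at h1

lemma Cen.one_of_inv (h : Cen dg hPC D Q W) {f g : ML K L} (hf : f ∈ CC dg hPC D)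
    (hg : g ∈ CC dg hPC D) (hfg : f * g = 1) : W (algebraMap (ML K L) F f) = 1 := by
  have h1 : W (algebraMap (ML K L) F f) * W (algebraMap (ML K L) F g) = 1 := by
    rw [← map_mul, ← map_mul, hfg, map_one, map_one]
  refine le_antisymm (h.le _ hf) ?_
  calc (1 : Γ) = _ := h1.symm
    _ ≤ W (algebraMap (ML K L) F f) * 1 := mul_le_mul_right (h.le _ hg) _
    _ = _ := mul_one _

lemma Cen.om (h : Cen dg hPC D Q W) : PQ.om (K := K) dg W = al A B' (vK k L W) := by
  funext i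
  have hvd := h.vd
  set m : ι → ℤ := Pi.single i 1 with hm
  have h1 : mo (dg.symm (EE Φ A B' • m)) (uu D m) ∈ CC dg hPC D := by
    rw [mo_mem_CC]
    intro Γ _ v hv
    rw [AddEquiv.apply_symm_apply, hv.uu_eq, nm_nsmul]
  have h2 : mo (-(dg.symm (EE Φ A B' • m))) (uu D m)⁻¹ ∈ CC dg hPC D := by
    rw [mo_mem_CC]
    intro Γ _ v hv
    rw [map_neg, AddEquiv.apply_symm_apply, map_inv₀, hv.uu_eq, nm_neg, nm_nsmul]
  have h3 := h.one_of_inv h1 h2 (mo_inv (uu_ne D m))
  rw [val_mo (k := k) (dg := dg), AddEquiv.apply_symm_apply, hvd.uu_eq, mz_nsmul,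
    div_eq_one_iff_eq (pow_ne_zero _ (mz_ne_zero om_ne _)), hm, nm_single, mz_single,
    zpow_one, zpow_one] at h3
  exact (pow_left_inj₀ zero_le zero_le EE_pos.ne').1 h3.symm

lemma Cen.mo (h : Cen dg hPC D Q W) (m : L) (a : K) :
    W (algebraMap (ML K L) F (mo m a)) = vK k L W a / mz (al A B' (vK k L W)) (dg m) := by
  rw [val_mo (k := k) (dg := dg), h.om]

lemma exists_cen [IsDomain (ML K L)] (hPC : PC ρ B Φ A B') (D : Tp Φ A B') (Q : Ideal (CC dg hPC D))
    [Q.IsPrime] : ∃ V : ValuationSubring (FractionRing (ML K L)), Cen dg hPC D Q V.valuation := by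
  obtain ⟨V, h1, h2⟩ := exists_dom (F := FractionRing (ML K L)) (CC dg hPC D) Q
  exact ⟨V, fun f hf => h1 ⟨f, hf⟩, h2⟩

end pt

section prods

variable (hS : Sys ρ B Φ A B' Ex N) {D : Tp Φ A B'} {e : ℕ → K}

/-- The products of the rescaled elements. -/
noncomputable def ph (dg : L ≃+ (ι → ℤ)) (N : ℕ → ι → ℕ) (e : ℕ → K) (b : ℕ) : ML K L :=
  ∏ j ∈ range b, sh dg N e j

lemma ph_succ (b : ℕ) : ph dg N e (b + 1) = ph dg N e b * sh dg N e b :=
  Finset.prod_range_succ _ _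

lemma ph_eq (b : ℕ) : ph dg N e b =
    mo (dg.symm (∑ j ∈ range b, vz (N j))) (∏ j ∈ range b, e j) := by
  unfold ph sh
  rw [mo_prod, map_sum]

include hS in
lemma Sys.srt {Γ : Type} [LinearOrderedCommGroupWithZero Γ] {w : Valuation K Γ} (hw : Pos B Φ w) :
    ∃ e, Srt Φ w e ∧ ∀ j < Φ.card, w (e j) = mz (al A B' w) (vz (N j)) := by
  obtain ⟨e, he, hev⟩ := hS.en Γ w hw
  refine ⟨e, ⟨he, fun i j hij hj => ?_⟩, hev⟩
  rw [hev j hj, hev i (by omega)]
  exact mz_anti (hS.pc.al_ne w) (hS.pc.le1 _ w hw) fun l => hS.mono _ _ _ hij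

include hS in
lemma ph_mem (he : IsEn Φ e) {b : ℕ} (hb : b ≤ Φ.card) : ph dg N e b ∈ CC dg hS.pc D := by
  rw [ph_eq, mo_mem_CC]
  intro Γ _ w hw
  rw [AddEquiv.apply_symm_apply, nm_eq_mz, mz_sum (hS.pc.al_ne w)]
  obtain ⟨e', he', hev⟩ := hS.srt hw.1
  have hinj : Set.InjOn e (range b) := he.inj.mono (by
    intro j hj
    rw [Finset.coe_range, Set.mem_Iio] at hj ⊢
    omega)
  have h1 : ∏ j ∈ range b, e j = ∏ a ∈ (range b).image e, a := by
    rw [Finset.prod_image fun x hx y hy hxy => hinj hx hy hxy]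
  have h2 : (range b).image e ⊆ Φ := by
    intro a ha
    obtain ⟨j, hj, rfl⟩ := Finset.mem_image.1 ha
    exact he.mem (by have := Finset.mem_range.1 hj; omega)
  have h3 := he'.prod_le h2
  rw [Finset.card_image_of_injOn hinj, Finset.card_range] at h3
  rw [h1]
  refine h3.trans (le_of_eq (Finset.prod_congr rfl fun j hj => ?_))
  exact hev j (by have := Finset.mem_range.1 hj; omega)

end prods

section smooth

variable {n : ℕ} (hb : Base ρ B Φ n) (hS : Sys ρ B Φ A B' Ex N) {D : Tp Φ A B'}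
  {F Γ : Type} [Field F] [Algebra (ML K L) F] [FaithfulSMul (ML K L) F]
  [LinearOrderedCommGroupWithZero Γ] {W : Valuation F Γ} {Q : Ideal (CC dg hS.pc D)} {e : ℕ → K}

lemma Cen.sh (h : Cen dg hS.pc D Q W) (he : EnV B Φ A B' N (vK k L W) e) {j : ℕ}
    (hj : j < Φ.card) : W (algebraMap (ML K L) F (PQ.sh dg N e j)) = 1 := by
  unfold PQ.sh
  rw [h.mo, AddEquiv.apply_symm_apply, he.va j hj, div_self (mz_ne_zero (hS.pc.al_ne _) _)]

lemma Cen.ph (h : Cen dg hS.pc D Q W) (he : EnV B Φ A B' N (vK k L W) e) {b : ℕ}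
    (hb : b ≤ Φ.card) : W (algebraMap (ML K L) F (PQ.ph dg N e b)) = 1 := by
  unfold PQ.ph
  rw [map_prod, map_prod]
  exact Finset.prod_eq_one fun j hj => h.sh hS he (by have := Finset.mem_range.1 hj; omega)

/-- The indicator of the invertible coordinates. -/
noncomputable def mI (J : Set ι) : ι → ℤ := by
  classical exact fun i => if i ∈ J then 0 else 1

lemma mI_nonneg (J : Set ι) (i : ι) : 0 ≤ mI J i := by
  unfold mI
  split_ifs <;> omega

lemma mI_mem {J : Set ι} {i : ι} (hi : i ∈ J) : mI J i = 0 := if_pos hi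

lemma mI_not {J : Set ι} {i : ι} (hi : i ∉ J) : mI J i = 1 := if_neg hi

/-- The denominator. -/
noncomputable def gd (dg : L ≃+ (ι → ℤ)) (N : ℕ → ι → ℕ) (e : ℕ → K) (M : ℕ) (J : Set ι) :
    ML K L := (∏ b ∈ range (M + 1), ph dg N e b) * xz K dg (mI J)

include hS in
lemma gd_mem (he : IsEn Φ e) (J : Set ι) : gd dg N e Φ.card J ∈ CC dg hS.pc D := by
  refine (CC dg hS.pc D).mul_mem ((CC dg hS.pc D).prod_mem fun b hb => ?_)
    (xz_mem_CC' hS.pc (mI_nonneg J))
  exact ph_mem hS he (by have := Finset.mem_range.1 hb; omega)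

include hS in
lemma Cen.gd (h : Cen dg hS.pc D Q W) (he : EnV B Φ A B' N (vK k L W) e) :
    W (algebraMap (ML K L) F (PQ.gd dg N e Φ.card {i | al A B' (vK k L W) i < 1})) = 1 := by
  unfold PQ.gd
  rw [map_mul, map_mul, map_prod, map_prod, val_xz, h.om]
  have h1 : mz (al A B' (vK k L W)) (mI {i | al A B' (vK k L W) i < 1}) = 1 := by
    unfold mz
    refine Finset.prod_eq_one fun i _ => ?_
    by_cases hi : i ∈ {i | al A B' (vK k L W) i < 1}
    · rw [mI_mem hi, zpow_zero]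
    · rw [mI_not hi, zpow_one]
      exact le_antisymm (hS.pc.le1 _ _ h.pos i) (not_lt.1 hi)
  rw [h1, mul_one]
  exact Finset.prod_eq_one fun b hb => h.ph hS he (by have := Finset.mem_range.1 hb; omega)

variable {c : Option (ι ⊕ ι) → ι → ℤ} (hc : LA B Φ A B' c)

include hb hS hc in
/-- The charts are locally the model. -/
theorem lc_eq [IsDomain (ML K L)] (_ : Cen dg hS.pc D Q W)
    (he : EnV B Φ A B' N (vK k L W) e) :
    ∃ (R : Subalgebra k (ML K L)) (hm : (∏ j, hz dg c D j) ∈ R), Algebra.Smooth k R ∧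
      IsRegularRing R ∧ Gn dg {i | al A B' (vK k L W) i < 1} N e Φ.card R ∧
      (∀ R' : Subalgebra k (ML K L),
        Gn dg {i | al A B' (vK k L W) i < 1} N e Φ.card R' → R ≤ R') ∧
      CC dg hS.pc D ≤ lc R (∏ j, hz dg c D j) hm ∧
      lc (CC dg hS.pc D) (gd dg N e Φ.card {i | al A B' (vK k L W) i < 1})
        (gd_mem hS he.en _) = lc R (∏ j, hz dg c D j) hm := by
  set J : Set ι := {i | al A B' (vK k L W) i < 1} with hJ
  set M := Φ.card with hM
  have he0 : ∀ j < M, e j ≠ 0 := fun j hj => hb.fam.n0 _ (he.en.mem hj)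
  obtain ⟨R, hsm, hreg, hIC, hR, hmin⟩ := exists_model (dg := dg) (J := J) he.en hb.fam.n0 hb.rk
    hb.tr hS.mono hb.fr
  obtain ⟨hm, hle⟩ := model_A (D := D) hS hb.gen hc he hb.fam.n0 hR hIC
  refine ⟨R, hm, hsm, hreg, hR, hmin, hle, le_antisymm ?_ ?_⟩
  · -- the denominator is invertible in the model
    have hinv : gd dg N e M J * ((∏ b ∈ range (M + 1), ∏ j ∈ range b, shi dg N e j) *
        xz K dg (-(mI J))) = 1 := by
      have h1 : (∏ b ∈ range (M + 1), ph dg N e b) *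
          (∏ b ∈ range (M + 1), ∏ j ∈ range b, shi dg N e j) = 1 := by
        rw [← Finset.prod_mul_distrib]
        refine Finset.prod_eq_one fun b hb' => ?_
        unfold ph
        rw [← Finset.prod_mul_distrib]
        exact Finset.prod_eq_one fun j hj => sh_mul_shi (he0 j (by
          have := Finset.mem_range.1 hj
          have := Finset.mem_range.1 hb'
          omega))
      unfold gd
      calc _ = ((∏ b ∈ range (M + 1), ph dg N e b) *
          (∏ b ∈ range (M + 1), ∏ j ∈ range b, shi dg N e j)) *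
          (xz K dg (mI J) * xz K dg (-(mI J))) := by ring
        _ = 1 := by rw [h1, xz_inv, one_mul]
    refine lc_le _ hinv hle (le_lc _ _ _ (R.mul_mem (R.prod_mem fun b hb' =>
      R.prod_mem fun j hj => hR.si j ?_) (xz_mem hR.x hR.xi fun i hi => ?_)))
    · have := Finset.mem_range.1 hj
      have := Finset.mem_range.1 hb'
      omega
    · rw [Pi.neg_apply, mI_mem hi]
      rfl
  · have hinv : (∏ j, hz dg c D j) * ∏ j, hzi dg c D j = 1 := by
      rw [← Finset.prod_mul_distrib]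
      exact Finset.prod_eq_one fun j _ => hz_mul_hzi c D j
    refine lc_le hm hinv (hmin _ ?_) (le_lc _ _ _ ((CC dg hS.pc D).prod_mem fun j _ =>
      hzi_mem hc hS.pc j))
    have hrest : ∀ b0 ≤ M, (∏ b ∈ (range (M + 1)).erase b0, ph dg N e b) ∈ CC dg hS.pc D := by
      intro b0 _
      refine (CC dg hS.pc D).prod_mem fun b hb' => ph_mem hS he.en ?_
      have := Finset.mem_range.1 (Finset.mem_of_mem_erase hb')
      omega
    have hx : xz K dg (mI J) ∈ CC dg hS.pc D := xz_mem_CC' hS.pc (mI_nonneg J)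
    refine ⟨fun i => le_lc _ _ _ (xz_mem_CC hS.pc i), fun i hi => ⟨1, ?_⟩, fun j hj => ⟨1, ?_⟩,
      fun j hj => ⟨1, ?_⟩⟩
    · rw [pow_one]
      unfold gd
      rw [mul_assoc, ← xz_add]
      refine (CC dg hS.pc D).mul_mem ((CC dg hS.pc D).prod_mem fun b hb' =>
        ph_mem hS he.en (by have := Finset.mem_range.1 hb'; omega))
        (xz_mem_CC' hS.pc fun l => ?_)
      rw [Pi.add_apply]
      by_cases hl : l = i
      · subst hl
        rw [mI_not hi, Pi.single_eq_same]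
        omega
      · rw [Pi.single_eq_of_ne hl, add_zero]
        exact mI_nonneg J l
    · rw [pow_one]
      unfold gd
      rw [← Finset.mul_prod_erase _ _ (Finset.mem_range.2 (show j < M + 1 by omega))]
      have h1 : ph dg N e j * (∏ b ∈ (range (M + 1)).erase j, ph dg N e b) * xz K dg (mI J) *
          sh dg N e j = ph dg N e (j + 1) * ((∏ b ∈ (range (M + 1)).erase j, ph dg N e b) *
          xz K dg (mI J)) := by
        rw [ph_succ]
        ring
      rw [h1]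
      exact (CC dg hS.pc D).mul_mem (ph_mem hS he.en (by omega))
        ((CC dg hS.pc D).mul_mem (hrest j (by omega)) hx)
    · rw [pow_one]
      unfold gd
      rw [← Finset.mul_prod_erase _ _ (Finset.mem_range.2 (show j + 1 < M + 1 by omega))]
      have h1 : ph dg N e (j + 1) * (∏ b ∈ (range (M + 1)).erase (j + 1), ph dg N e b) *
          xz K dg (mI J) * shi dg N e j =
          ph dg N e j * ((∏ b ∈ (range (M + 1)).erase (j + 1), ph dg N e b) *
          xz K dg (mI J)) := by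
        rw [ph_succ]
        calc _ = (sh dg N e j * shi dg N e j) * (ph dg N e j *
            ((∏ b ∈ (range (M + 1)).erase (j + 1), ph dg N e b) * xz K dg (mI J))) := by ring
          _ = _ := by rw [sh_mul_shi (he0 j hj), one_mul]
      rw [h1]
      exact (CC dg hS.pc D).mul_mem (ph_mem hS he.en (by omega))
        ((CC dg hS.pc D).mul_mem (hrest (j + 1) (by omega)) hx)

include hb hS in
/-- The charts are locally smooth and regular. -/
theorem loc_CC [IsDomain (ML K L)] (D : Tp Φ A B') (Q : Ideal (CC dg hS.pc D)) (hQ : Q.IsPrime) :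
    ∃ (x : ML K L) (hx : x ∈ CC dg hS.pc D), IsUnit x ∧ (⟨x, hx⟩ : CC dg hS.pc D) ∉ Q ∧
      Algebra.Smooth k (lc (CC dg hS.pc D) x hx) ∧ IsRegularRing (lc (CC dg hS.pc D) x hx) := by
  obtain ⟨c, hc⟩ := hS.la
  obtain ⟨V, hV⟩ := exists_cen (dg := dg) hS.pc D Q
  obtain ⟨e, he1, he2⟩ := hS.en _ (vK k L V.valuation) hV.pos
  have he : EnV B Φ A B' N (vK k L V.valuation) e := ⟨hV.pos, he1, he2⟩
  obtain ⟨R, hm, hsm, hreg, -, -, -, heq⟩ := lc_eq hb hS hc hV he
  have hu : IsUnit (∏ j, hz dg c D j) := by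
    refine IsUnit.of_mul_eq_one (∏ j, hzi dg c D j) ?_
    rw [← Finset.prod_mul_distrib]
    exact Finset.prod_eq_one fun j _ => hz_mul_hzi c D j
  refine ⟨gd dg N e Φ.card {i | al A B' (vK k L V.valuation) i < 1}, gd_mem hS he.en _,
    ?_, ?_, ?_, ?_⟩
  · -- a unit
    unfold gd
    refine IsUnit.mul ?_ (IsUnit.of_mul_eq_one _ (xz_inv dg _))
    rw [← Finset.prod_attach]
    refine IsUnit.mem_submonoid_iff _ |>.1 (Submonoid.prod_mem _ fun b _ => ?_)
    rw [IsUnit.mem_submonoid_iff, ph_eq]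
    refine isUnit_mo (Finset.prod_ne_zero_iff.2 fun j hj => hb.fam.n0 _ (he.en.mem ?_))
    have := Finset.mem_range.1 hj
    have := Finset.mem_range.1 b.2
    omega
  · intro hcon
    have h1 := (hV.lt _).2 hcon
    have h2 := hV.gd hS he
    exact h1.ne h2
  · rw [heq]
    exact smooth_lc hsm hm hu
  · rw [heq]
    exact regular_lc hreg hm hu

include hb hS in
/-- The charts are smooth. -/
theorem smooth_CC [IsDomain (ML K L)] (D : Tp Φ A B') : Algebra.Smooth k (CC dg hS.pc D) := by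
  refine smooth_of_lc _ fun Q hQ => ?_
  obtain ⟨x, hx, hu, hxQ, hsm, -⟩ := loc_CC (dg := dg) hb hS D Q hQ
  exact ⟨x, hx, hu, hxQ, hsm⟩

include hb hS in
/-- The charts are regular. -/
theorem regular_CC [IsDomain (ML K L)] (D : Tp Φ A B') : IsRegularRing (CC dg hS.pc D) := by
  have h1 := smooth_CC (dg := dg) hb hS D
  have h2 : IsNoetherianRing (CC dg hS.pc D) := Algebra.FiniteType.isNoetherianRing k _
  refine regular_of_lc h2 fun Q hQ => ?_
  obtain ⟨x, hx, hu, hxQ, -, hreg⟩ := loc_CC (dg := dg) hb hS D Q hQ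
  exact ⟨x, hx, hu, hxQ, hreg⟩

end smooth

end Pool.Agent.Helper49.PQ
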