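import Pool.Agent.Helper49.PQ.Loc5

/-!
# The action of the group and inertia
-/

set_option autoImplicit false
set_option linter.unusedSectionVars false

namespace Pool.Agent.Helper49.PQ

open Finset Pool.Agent.W559.Mg Cardinal Pool.Agent.Helper46.AQ

variable {k K : Type} [Field k] [Field K] [Algebra k K] [DecidableEq K] {G : Type} [Group G]
  {ρ : G →* (K ≃ₐ[k] K)} {B : Subalgebra k K} {Φ : Finset K}
  {ι : Type} [Fintype ι] [DecidableEq ι] {A B' : ι → Finset K} {Ex : ι → ι → Prop}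
  {N : ℕ → ι → ℕ} {L : Type} [AddCommGroup L] {dg : L ≃+ (ι → ℤ)}

section act

/-- The action on Laurent polynomials. -/
noncomputable def ga (ρ : G →* (K ≃ₐ[k] K)) (L : Type) [AddCommGroup L] (γ : G) :
    ML K L →ₐ[k] ML K L := gm L ((ρ γ : K ≃ₐ[k] K) : K →ₐ[k] K)

lemma ga_mo (γ : G) (m : L) (a : K) : ga ρ L γ (mo m a) = mo m (ρ γ a) := gm_mo _ m a

lemma ga_coeff (γ : G) (f : ML K L) (m : L) : (ga ρ L γ f).coeff m = ρ γ (f.coeff m) :=
  gm_coeff _ f m

lemma ga_one (f : ML K L) : ga ρ L 1 f = f := by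
  refine ml_ext fun m => ?_
  rw [ga_coeff, map_one]
  rfl

lemma ga_mul (γ γ' : G) (f : ML K L) : ga ρ L (γ * γ') f = ga ρ L γ (ga ρ L γ' f) := by
  refine ml_ext fun m => ?_
  rw [ga_coeff, ga_coeff, ga_coeff, map_mul]
  rfl

lemma ga_xz (γ : G) (m : ι → ℤ) : ga ρ L γ (xz K dg m) = xz K dg m := by
  unfold xz
  rw [ga_mo, map_one]

variable {n : ℕ} (hb : Base ρ B Φ n)

include hb in
lemma Base.stable (γ : G) : ∀ b ∈ B, ρ γ b ∈ B := by
  have h1 : B ≤ B.comap ((ρ γ : K ≃ₐ[k] K) : K →ₐ[k] K) := by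
    conv_lhs => rw [hb.gen]
    refine Algebra.adjoin_le fun s hs => ?_
    exact hb.fam.mem _ (hb.fam.st γ s hs)
  exact h1

lemma mx_comap {Ψ : Finset K} (hΨ : Fam ρ B Ψ) {Γ : Type} [LinearOrderedCommGroupWithZero Γ]
    (v : Valuation K Γ) (γ : G) :
    mx (v.comap ((ρ γ : K ≃ₐ[k] K) : K →+* K)) Ψ = mx v Ψ := by
  apply le_antisymm
  · refine mx_le fun a ha => ?_
    exact le_mx (hΨ.st γ a ha)
  · refine mx_le fun a ha => ?_
    have h1 : a = ρ γ (ρ γ⁻¹ a) := by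
      rw [← AlgEquiv.mul_apply, ← map_mul, mul_inv_cancel, map_one, AlgEquiv.one_apply]
    rw [h1]
    exact le_mx (v := v.comap ((ρ γ : K ≃ₐ[k] K) : K →+* K)) (hΨ.st γ⁻¹ a ha)

include hb in
lemma ga_mem_CC (hPC : PC ρ B Φ A B') {D : Tp Φ A B'} (γ : G) {f : ML K L}
    (hf : f ∈ CC dg hPC D) : ga ρ L γ f ∈ CC dg hPC D := by
  intro Γ _ v hv m
  set v' := v.comap ((ρ γ : K ≃ₐ[k] K) : K →+* K) with hv'
  have hal : al A B' v' = al A B' v := by
    funext i
    unfold al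
    rw [mx_comap (hPC.fA i), mx_comap (hPC.fB i)]
  have hvd : Vd B v' D := by
    refine ⟨⟨fun b hb' => hv.1.1 _ (hb.stable γ b hb'), by
      rw [mx_comap hPC.fΦ]; exact hv.1.2⟩, fun j => ?_⟩
    rw [mx_comap (hPC.fam j), ← hv.2 j]
    change v (ρ γ (hh D j)) = _
    rw [hPC.hh_inv]
  have h1 := hf Γ v' hvd m
  rw [nm_eq_mz, hal] at h1
  rw [ga_coeff]
  exact h1

end act

section inertia

variable {n : ℕ} (hb : Base ρ B Φ n) (hS : Sys ρ B Φ A B' Ex N) {D : Tp Φ A B'}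
  {F Γ : Type} [Field F] [Algebra (ML K L) F] [FaithfulSMul (ML K L) F]
  [LinearOrderedCommGroupWithZero Γ] {W : Valuation F Γ} {Q : Ideal (CC dg hS.pc D)} {e : ℕ → K}

/-- Inertia in terms of the valuation. -/
def Inr (ρ : G →* (K ≃ₐ[k] K)) {L : Type} [AddCommGroup L] {F Γ : Type} [Field F]
    [Algebra (ML K L) F] [LinearOrderedCommGroupWithZero Γ] (C : Subalgebra k (ML K L))
    (W : Valuation F Γ) (γ : G) : Prop :=
  ∀ f ∈ C, W (algebraMap (ML K L) F (ga ρ L γ f - f)) < 1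

lemma val_ratio {Γ₀ : Type} [LinearOrderedCommGroupWithZero Γ₀] {v : Valuation K Γ₀}
    {g : K →+* K} {a b : K} (ha : a ≠ 0) (hb0 : b ≠ 0) (h1 : v (g a - a) < v a)
    (h2 : v (g (a * b) - a * b) < v (a * b)) : v (g b - b) < v b := by
  have h3 : v (g a) = v a := by
    have : g a = a + (g a - a) := by ring
    rw [this]
    exact v.map_add_eq_of_lt_left h1
  have h4 : g a * (g b - b) = (g (a * b) - a * b) - (g a - a) * b := by
    rw [map_mul]
    ring
  have hb' : v b ≠ 0 := (Valuation.ne_zero_iff _).2 hb0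
  have ha' : v a ≠ 0 := (Valuation.ne_zero_iff _).2 ha
  have h5 : v ((g a - a) * b) < v (a * b) := by
    rw [map_mul, map_mul]
    exact mul_lt_mul_of_pos_right h1 (zero_lt_iff.2 hb')
  have h6 : v (g a * (g b - b)) < v (a * b) := by
    rw [h4]
    exact v.map_sub_lt h2 h5
  rw [map_mul, map_mul, h3] at h6
  exact lt_of_mul_lt_mul_left h6 zero_le

include hb hS in
lemma Cen.inr (h : Cen dg hS.pc D Q W) (he : EnV B Φ A B' N (vK k L W) e) {γ : G}
    (hγ : Inr ρ (CC dg hS.pc D) W γ) : ∀ s ∈ Φ, vK k L W (ρ γ s - s) < vK k L W s := by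
  have h1 : ∀ b ≤ Φ.card, vK k L W (ρ γ (∏ j ∈ range b, e j) - ∏ j ∈ range b, e j) <
      vK k L W (∏ j ∈ range b, e j) := by
    intro b hb'
    have h2 := hγ _ (ph_mem (dg := dg) hS he.en hb')
    have h3 := h.ph hS he hb'
    rw [ph_eq] at h2 h3
    rw [ga_mo, ← mo_sub, h.mo] at h2
    rw [h.mo] at h3
    have h4 := mz_ne_zero (hS.pc.al_ne (vK k L W)) (dg (dg.symm (∑ j ∈ range b, vz (N j))))
    rw [div_lt_one₀ (zero_lt_iff.2 h4)] at h2
    rw [div_eq_one_iff_eq h4] at h3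
    rwa [h3]
  intro s hs
  obtain ⟨j, hj, rfl⟩ := he.en.exists_eq hs
  have h2 := h1 j (by omega)
  have h3 := h1 (j + 1) (by omega)
  rw [Finset.prod_range_succ] at h3
  refine val_ratio (g := ((ρ γ : K ≃ₐ[k] K) : K →+* K)) ?_ (hb.fam.n0 _ hs) h2 h3
  exact Finset.prod_ne_zero_iff.2 fun i hi => hb.fam.n0 _ (he.en.mem (by
    have := Finset.mem_range.1 hi; omega))

/-- Elements which lower the values strictly act nilpotently. -/
lemma nilp (hb : Base ρ B Φ n) {Γ₀ : Type} [LinearOrderedCommGroupWithZero Γ₀]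
    {v : Valuation K Γ₀} {γ : G} (h : ∀ s ∈ Φ, v (ρ γ s - s) < v s) (m : ℕ) :
    ∀ s ∈ Φ, (Φ.filter fun t => v t < v s).card < m →
      (((ρ γ : K ≃ₐ[k] K).toLinearMap - 1 : Module.End k K) ^ m) s = 0 := by
  induction m with
  | zero =>
    intro s _ h1
    omega
  | succ m ih =>
    intro s hs h1
    rw [pow_succ, Module.End.mul_apply]
    have h2 : ((ρ γ : K ≃ₐ[k] K).toLinearMap - 1 : Module.End k K) s = ρ γ s - s := rfl
    rw [h2]
    by_cases h3 : ρ γ s = s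
    · rw [h3, sub_self, map_zero]
    · have h4 : ρ γ s - s ∈ Φ := hb.sub _ (hb.fam.st γ s hs) _ hs h3
      refine ih _ h4 ?_
      have h5 : (Φ.filter fun t => v t < v (ρ γ s - s)) ⊂ Φ.filter fun t => v t < v s := by
        rw [Finset.ssubset_iff_of_subset]
        · exact ⟨_, Finset.mem_filter.2 ⟨h4, h s hs⟩, fun h6 =>
            (lt_irrefl _ (Finset.mem_filter.1 h6).2)⟩
        · intro t ht
          obtain ⟨h6, h7⟩ := Finset.mem_filter.1 ht
          exact Finset.mem_filter.2 ⟨h6, h7.trans (h s hs)⟩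
      have := Finset.card_lt_card h5
      omega

lemma eq_one_of_fix (hb : Base ρ B Φ n) {γ : G} (h : ∀ s ∈ Φ, ρ γ s = s) : ρ γ = 1 := by
  have h1 : Algebra.adjoin k (Φ : Set K) ≤
      AlgHom.equalizer ((ρ γ : K ≃ₐ[k] K) : K →ₐ[k] K) (AlgHom.id k K) :=
    Algebra.adjoin_le fun s hs => h s hs
  ext x
  obtain ⟨a, ha, b, hb', -, rfl⟩ := hb.fr x
  have h2 : ρ γ a = a := h1 ha
  have h3 : ρ γ b = b := h1 hb'
  rw [map_div₀, h2, h3]
  rfl

/-- Elements which lower the values strictly have `p`-power order. -/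
lemma exists_pow_eq_one (hb : Base ρ B Φ n) {p : ℕ} [Fact p.Prime] [CharP k p] {Γ₀ : Type}
    [LinearOrderedCommGroupWithZero Γ₀]
    {v : Valuation K Γ₀} {γ : G} (h : ∀ s ∈ Φ, v (ρ γ s - s) < v s) :
    ∃ r : ℕ, ρ (γ ^ p ^ r) = 1 := by
  refine ⟨Φ.card + 1, eq_one_of_fix hb fun s hs => ?_⟩
  have hchar : CharP (Module.End k K) p :=
    charP_of_injective_algebraMap (algebraMap k (Module.End k K)).injective p
  have h1 : (((ρ γ : K ≃ₐ[k] K).toLinearMap - 1 : Module.End k K) ^ p ^ (Φ.card + 1)) s = 0 := by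
    refine nilp hb h _ s hs ?_
    calc (Φ.filter fun t => v t < v s).card ≤ Φ.card := Finset.card_filter_le _ _
      _ < p ^ (Φ.card + 1) := (Nat.lt_succ_self _).trans
          (Nat.lt_pow_self (Fact.out : p.Prime).one_lt)
  rw [sub_pow_char_pow_of_commute _ _ (Commute.one_right _), one_pow] at h1
  have h2 : ∀ (m : ℕ) (x : K), ((ρ γ : K ≃ₐ[k] K).toLinearMap ^ m : Module.End k K) x =
      ρ (γ ^ m) x := by
    intro m
    induction m with
    | zero =>
      intro x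
      rw [pow_zero, pow_zero, map_one]
      rfl
    | succ m ih =>
      intro x
      rw [pow_succ, Module.End.mul_apply, ih, pow_succ, map_mul]
      rfl
  have h3 : ((ρ γ : K ≃ₐ[k] K).toLinearMap ^ p ^ (Φ.card + 1) : Module.End k K) s - s = 0 := h1
  rw [h2] at h3
  exact sub_eq_zero.1 h3

end inertia

end Pool.Agent.Helper49.PQ
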