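import Pool.Agent.Helper49.PQ.Loc6

/-!
# The ideal of the fixed points is locally principal
-/

set_option autoImplicit false
set_option linter.unusedSectionVars false

namespace Pool.Agent.Helper49.PQ

open Finset Pool.Agent.W559.Mg Cardinal Pool.Agent.Helper46.AQ

section mzlt

variable {Γ : Type} [LinearOrderedCommGroupWithZero Γ] {ι : Type} [Fintype ι]

lemma mz_lt_one' {ξ : ι → Γ} (h1 : ∀ i, ξ i ≤ 1) {m : ι → ℤ}
    (hm : ∀ i, ξ i < 1 → 0 ≤ m i) {i : ι} (hi : 0 < m i) (hξ : ξ i < 1) : mz ξ m < 1 := by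
  classical
  unfold mz
  rw [← Finset.mul_prod_erase _ _ (Finset.mem_univ i)]
  have h2 : ξ i ^ m i < 1 := by
    obtain ⟨n, hn⟩ := Int.eq_ofNat_of_zero_le hi.le
    rw [hn, zpow_natCast]
    refine pow_lt_one₀ zero_le hξ ?_
    omega
  have h3 : ∏ j ∈ univ.erase i, ξ j ^ m j ≤ 1 := by
    refine Finset.prod_le_one' fun j _ => ?_
    rcases (h1 j).lt_or_eq with h4 | h4
    · obtain ⟨n, hn⟩ := Int.eq_ofNat_of_zero_le (hm j h4)
      rw [hn, zpow_natCast]
      exact pow_le_one' (h1 j) n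
    · rw [h4, one_zpow]
  calc ξ i ^ m i * ∏ j ∈ univ.erase i, ξ j ^ m j ≤ ξ i ^ m i * 1 := mul_le_mul_right h3 _
    _ < 1 := by rw [mul_one]; exact h2

end mzlt

variable {k K : Type} [Field k] [Field K] [Algebra k K] [DecidableEq K] {G : Type} [Group G]
  {ρ : G →* (K ≃ₐ[k] K)} {B : Subalgebra k K} {Φ : Finset K}
  {ι : Type} [Fintype ι] [DecidableEq ι] {A B' : ι → Finset K} {Ex : ι → ι → Prop}
  {N : ℕ → ι → ℕ} {L : Type} [AddCommGroup L] {dg : L ≃+ (ι → ℤ)}

section DD

variable {F Γ : Type} [Field F] [Algebra (ML K L) F] [FaithfulSMul (ML K L) F]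
  [LinearOrderedCommGroupWithZero Γ] (C : Subalgebra k (ML K L)) (W : Valuation F Γ)

/-- The elements of the local ring with small difference. -/
def DD (τ : ML K L →ₐ[k] ML K L) (X : ML K L) (hX : X ∈ C) : Subalgebra k (ML K L) where
  carrier := {y | ∃ t ∈ C, W (algebraMap (ML K L) F t) = 1 ∧ t * y ∈ C ∧
    ∃ a ∈ C, t * (τ y - y) = X * a}
  mul_mem' := by
    rintro y y' ⟨t, ht, htW, hty, a, ha, hta⟩ ⟨t', ht', htW', hty', a', ha', hta'⟩
    refine ⟨t * t', C.mul_mem ht ht', by rw [map_mul, map_mul, htW, htW', one_mul], ?_,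
      a * (t' * y') + (t * y) * a' + X * a * a', ?_, ?_⟩
    · have h1 : t * t' * (y * y') = (t * y) * (t' * y') := by ring
      rw [h1]
      exact C.mul_mem hty hty'
    · exact C.add_mem (C.add_mem (C.mul_mem ha hty') (C.mul_mem hty ha'))
        (C.mul_mem (C.mul_mem hX ha) ha')
    · rw [map_mul]
      calc t * t' * (τ y * τ y' - y * y') = (t * (τ y - y)) * (t' * y') +
          (t * y) * (t' * (τ y' - y')) + (t * (τ y - y)) * (t' * (τ y' - y')) := by ring
        _ = _ := by rw [hta, hta']; ring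
  add_mem' := by
    rintro y y' ⟨t, ht, htW, hty, a, ha, hta⟩ ⟨t', ht', htW', hty', a', ha', hta'⟩
    refine ⟨t * t', C.mul_mem ht ht', by rw [map_mul, map_mul, htW, htW', one_mul], ?_,
      t' * a + t * a', C.add_mem (C.mul_mem ht' ha) (C.mul_mem ht ha'), ?_⟩
    · have h1 : t * t' * (y + y') = t' * (t * y) + t * (t' * y') := by ring
      rw [h1]
      exact C.add_mem (C.mul_mem ht' hty) (C.mul_mem ht hty')
    · rw [map_add]
      calc t * t' * (τ y + τ y' - (y + y')) = t' * (t * (τ y - y)) + t * (t' * (τ y' - y')) := by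
            ring
        _ = _ := by rw [hta, hta']; ring
  algebraMap_mem' r := ⟨1, C.one_mem, by rw [map_one, map_one],
    by rw [one_mul]; exact C.algebraMap_mem r, 0, C.zero_mem, by
      rw [AlgHom.commutes, sub_self, mul_zero, mul_zero]⟩

variable {C W} {τ : ML K L →ₐ[k] ML K L} {X : ML K L} {hX : X ∈ C}

lemma val_tau {u : ML K L} (h1 : W (algebraMap (ML K L) F u) = 1)
    (h2 : W (algebraMap (ML K L) F (τ u - u)) < 1) : W (algebraMap (ML K L) F (τ u)) = 1 := by
  have h3 : τ u = u + (τ u - u) := by ring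
  rw [h3, map_add, ← h1]
  exact W.map_add_eq_of_lt_left (by rw [h1]; exact h2)

lemma DD_inv (hst : ∀ f ∈ C, τ f ∈ C) (hin : ∀ f ∈ C, W (algebraMap (ML K L) F (τ f - f)) < 1)
    {y z : ML K L} (hy : y ∈ DD C W τ X hX) (hyz : y * z = 1)
    (hWy : W (algebraMap (ML K L) F y) = 1) : z ∈ DD C W τ X hX := by
  obtain ⟨t, ht, htW, hty, a, ha, hta⟩ := hy
  have hu : W (algebraMap (ML K L) F (t * y)) = 1 := by
    rw [map_mul, map_mul, htW, hWy, one_mul]
  refine ⟨(t * y) * τ (t * y), C.mul_mem hty (hst _ hty), ?_, ?_, -(τ t * a),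
    C.neg_mem (C.mul_mem (hst _ ht) ha), ?_⟩
  · rw [map_mul, map_mul, hu, val_tau hu (hin _ hty), one_mul]
  · have h1 : t * y * τ (t * y) * z = t * τ (t * y) * (y * z) := by ring
    rw [h1, hyz, mul_one]
    exact C.mul_mem ht (hst _ hty)
  · have h1 : τ y * τ z = 1 := by rw [← map_mul, hyz, map_one]
    rw [map_mul]
    calc t * y * (τ t * τ y) * (τ z - z) = t * y * τ t * (τ y * τ z) -
          t * τ t * τ y * (y * z) := by ring
      _ = -(τ t * (t * (τ y - y))) := by rw [h1, hyz]; ring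
      _ = X * -(τ t * a) := by rw [hta]; ring

end DD

section princ

variable {n : ℕ} (hb : Base ρ B Φ n) (hS : Sys ρ B Φ A B' Ex N) {D : Tp Φ A B'}
  {F Γ : Type} [Field F] [Algebra (ML K L) F] [FaithfulSMul (ML K L) F]
  [LinearOrderedCommGroupWithZero Γ] {W : Valuation F Γ} {Q : Ideal (CC dg hS.pc D)} {e : ℕ → K}

include hb hS in
/-- The ideal of the fixed points of an element of the inertia group is locally principal. -/
theorem princ [IsDomain (ML K L)]
    (hcmp : ∀ q : ℕ × ℕ × ℕ × ℕ, q.1 < Φ.card → q.2.1 < Φ.card → q.2.2.1 < Φ.card →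
      q.2.2.2 < Φ.card → Cmp Ex (dq N q))
    (h : Cen dg hS.pc D Q W) (he : EnV B Φ A B' N (vK k L W) e) {τ : G}
    (hτ : Inr ρ (CC dg hS.pc D) W τ) (hτ1 : ρ τ ≠ 1) {p : ℕ} (hτp : τ ^ p = 1) (hp : 0 < p) :
    ∃ b ∈ CC dg hS.pc D, ∀ c ∈ CC dg hS.pc D, ∃ s ∈ CC dg hS.pc D,
      W (algebraMap (ML K L) F s) = 1 ∧ ∃ u ∈ CC dg hS.pc D,
        s * (ga ρ L τ c - c) = u * (ga ρ L τ b - b) := by
  classical
  obtain ⟨c₀, hc₀⟩ := hS.la
  obtain ⟨R, hm, -, -, -, hmin, hCle, -⟩ := lc_eq hb hS hc₀ h he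
  set v : Valuation K Γ := vK k L W with hv
  set M := Φ.card with hM
  set C := CC dg hS.pc D with hC
  set J : Set ι := {i | al A B' v i < 1} with hJ
  have hst : ∀ f ∈ C, ga ρ L τ f ∈ C := fun f hf => ga_mem_CC hb hS.pc τ hf
  have hlt := h.inr hb hS he hτ
  have hal1 := hS.pc.le1 _ v h.pos
  have hal0 := hS.pc.al_ne v
  have he0 : ∀ j < M, e j ≠ 0 := fun j hj => hb.fam.n0 _ (he.en.mem hj)
  -- the moved elements
  set mv := (range M).filter fun j => ρ τ (e j) ≠ e j with hmv
  have hne : mv.Nonempty := by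
    by_contra hcon
    rw [Finset.not_nonempty_iff_eq_empty, hmv, Finset.filter_eq_empty_iff] at hcon
    refine hτ1 (eq_one_of_fix hb fun s hs => ?_)
    obtain ⟨j, hj, rfl⟩ := he.en.exists_eq hs
    exact not_not.1 (hcon (Finset.mem_range.2 hj))
  have hσ : ∀ j, ∃ l, j ∈ mv → l < M ∧ e l = ρ τ (e j) - e j ∧ j ≤ l := by
    intro j
    by_cases hj : j ∈ mv
    · obtain ⟨h1, h2⟩ := Finset.mem_filter.1 hj
      have h3 : e j ∈ Φ := he.en.mem (Finset.mem_range.1 h1)
      obtain ⟨l, hl, h4⟩ := he.en.exists_eq (hb.sub _ (hb.fam.st τ _ h3) _ h3 h2)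
      refine ⟨l, fun _ => ⟨hl, h4, ?_⟩⟩
      by_contra hcon
      have h5 : v (e j) ≤ v (e l) := he.anti hS (by omega) (Finset.mem_range.1 h1)
      have h6 := hlt _ h3
      rw [← h4] at h6
      exact absurd h6 (not_lt.2 h5)
    · exact ⟨0, fun h1 => absurd h1 hj⟩
  choose σ hσ using hσ
  let d : ℕ → ι → ℤ := fun j => vz (N (σ j)) - vz (N j)
  have hd0 : ∀ j ∈ mv, ∀ i, 0 ≤ d j i := by
    intro j hj i
    have := hS.mono _ _ i (hσ j hj).2.2
    simp only [d, vz, Pi.sub_apply]
    omega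
  obtain ⟨j0, hj0, hmax⟩ := Finset.exists_max_image mv (fun j => mz (al A B' v) (d j)) hne
  have hj0M : j0 < M := Finset.mem_range.1 (Finset.mem_filter.1 hj0).1
  have hcomp : ∀ j ∈ mv, ∀ i ∈ J, 0 ≤ d j i - d j0 i := by
    intro j hj i' hi'
    by_contra hcon
    push Not at hcon
    have hjM : j < M := Finset.mem_range.1 (Finset.mem_filter.1 hj).1
    have hc := hcmp (σ j, j, σ j0, j0) (hσ j hj).1 hjM (hσ j0 hj0).1 hj0M
    have hdq : dq N (σ j, j, σ j0, j0) = d j - d j0 := rfl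
    rw [hdq] at hc
    have h1 : ∀ i, al A B' v i < 1 → 0 ≤ (d j0 - d j) i := by
      intro i hi
      by_contra hcon'
      rw [Pi.sub_apply] at hcon'
      refine hc i i' (fun hE => ?_) ?_ ?_
      · rcases hS.ex _ v h.pos i i' hE with h2 | h2
        · exact hi.ne h2
        · exact (show al A B' v i' < 1 from hi').ne h2
      · rw [Pi.sub_apply]
        omega
      · rw [Pi.sub_apply]
        exact hcon
    have h2 : mz (al A B' v) (d j0 - d j) < 1 :=
      mz_lt_one' hal1 h1 (i := i') (by rw [Pi.sub_apply]; omega) hi'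
    have h3 : mz (al A B' v) (d j0) < mz (al A B' v) (d j) := by
      have h4 : d j0 = d j + (d j0 - d j) := by rw [add_sub_cancel]
      rw [h4, mz_add hal0]
      calc mz (al A B' v) (d j) * mz (al A B' v) (d j0 - d j) < mz (al A B' v) (d j) * 1 :=
            mul_lt_mul_of_pos_left h2 (zero_lt_iff.2 (mz_ne_zero hal0 _))
        _ = _ := mul_one _
    exact absurd (hmax j hj) (not_le.2 h3)
  set X : ML K L := xz K dg (d j0) with hXdef
  have hX : X ∈ C := xz_mem_CC' hS.pc (hd0 j0 hj0)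
  -- the difference of the rescaled elements
  have hdiff : ∀ j ∈ mv, ga ρ L τ (sh dg N e j) - sh dg N e j =
      sh dg N e (σ j) * xz K dg (d j) := by
    intro j hj
    unfold sh xz
    rw [ga_mo, ← mo_sub, ← (hσ j hj).2.1, mo_mul, mul_one, ← map_add]
    congr 2
    change vz (N j) = vz (N (σ j)) + -(vz (N (σ j)) - vz (N j))
    abel
  have hxz1 : ∀ m : ι → ℤ, (∀ i ∈ J, m i = 0) → W (algebraMap (ML K L) F (xz K dg m)) = 1 := by
    intro m hm'
    rw [val_xz, h.om]
    unfold mz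
    refine Finset.prod_eq_one fun i _ => ?_
    by_cases hi : i ∈ J
    · rw [hm' i hi, zpow_zero]
    · have h1 : al A B' v i = 1 := le_antisymm (hal1 i) (not_lt.1 hi)
      rw [← hv, h1, one_zpow]
  -- the generators
  have hgn : Gn dg J N e M (DD C W (ga ρ L τ) X hX) := by
    have hx : ∀ i, xz K dg (Pi.single i 1) ∈ DD C W (ga ρ L τ) X hX := fun i =>
      ⟨1, C.one_mem, by rw [map_one, map_one], by rw [one_mul]; exact xz_mem_CC hS.pc i, 0,
        C.zero_mem, by rw [ga_xz, sub_self, mul_zero, mul_zero]⟩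
    have hs : ∀ j < M, sh dg N e j ∈ DD C W (ga ρ L τ) X hX := by
      intro j hj
      by_cases hjm : j ∈ mv
      · let m' : ι → ℤ := fun i => if i ∈ J then 0 else |d j i - d j0 i|
        have hm'0 : ∀ i, 0 ≤ m' i := by
          intro i
          change 0 ≤ (if i ∈ J then (0 : ℤ) else |d j i - d j0 i|)
          split_ifs
          · exact le_rfl
          · exact abs_nonneg _
        have hm'1 : ∀ i, 0 ≤ (d j - d j0 + m') i := by
          intro i
          rw [Pi.add_apply, Pi.sub_apply]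
          change 0 ≤ d j i - d j0 i + (if i ∈ J then (0 : ℤ) else |d j i - d j0 i|)
          split_ifs with hi
          · rw [add_zero]
            exact hcomp j hjm i hi
          · have := neg_abs_le (d j i - d j0 i)
            omega
        have hσM := (hσ j hjm).1
        refine ⟨ph dg N e j * ph dg N e (σ j) * xz K dg m', ?_, ?_, ?_,
          ph dg N e j * ph dg N e (σ j + 1) * xz K dg (d j - d j0 + m'), ?_, ?_⟩
        · exact C.mul_mem (C.mul_mem (ph_mem hS he.en (by omega)) (ph_mem hS he.en (by omega)))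
            (xz_mem_CC' hS.pc hm'0)
        · rw [map_mul, map_mul, map_mul, map_mul, h.ph hS he (by omega), h.ph hS he (by omega),
            hxz1 m' (fun i hi => if_pos hi), one_mul, one_mul]
        · have h1 : ph dg N e j * ph dg N e (σ j) * xz K dg m' * sh dg N e j =
              ph dg N e (j + 1) * ph dg N e (σ j) * xz K dg m' := by
            rw [ph_succ]
            ring
          rw [h1]
          exact C.mul_mem (C.mul_mem (ph_mem hS he.en (by omega)) (ph_mem hS he.en (by omega)))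
            (xz_mem_CC' hS.pc hm'0)
        · exact C.mul_mem (C.mul_mem (ph_mem hS he.en (by omega)) (ph_mem hS he.en (by omega)))
            (xz_mem_CC' hS.pc hm'1)
        · rw [hdiff j hjm, ph_succ, xz_add, hXdef]
          have h1 : xz K dg (d j) = xz K dg (d j0) * xz K dg (d j - d j0) := by
            rw [← xz_add, add_sub_cancel]
          rw [h1]
          ring
      · have hfix : ρ τ (e j) = e j := by
          by_contra hcon
          exact hjm (Finset.mem_filter.2 ⟨Finset.mem_range.2 hj, hcon⟩)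
        refine ⟨ph dg N e j, ph_mem hS he.en (by omega), h.ph hS he (by omega), ?_, 0,
          C.zero_mem, ?_⟩
        · rw [← ph_succ]
          exact ph_mem hS he.en (by omega)
        · have h1 : ga ρ L τ (sh dg N e j) = sh dg N e j := by
            unfold sh
            rw [ga_mo, hfix]
          rw [h1, sub_self, mul_zero, mul_zero]
    refine ⟨hx, fun i hi => ?_, hs, fun j hj => ?_⟩
    · refine DD_inv hst hτ (hx i) (by rw [Pi.single_neg, xz_inv]) (hxz1 _ fun l hl => ?_)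
      rw [Pi.single_eq_of_ne]
      rintro rfl
      exact hi hl
    · exact DD_inv hst hτ (hs j hj) (sh_mul_shi (he0 j hj)) (h.sh hS he hj)
  have hRle := hmin _ hgn
  have hinvh : (∏ j, hz dg c₀ D j) * ∏ j, hzi dg c₀ D j = 1 := by
    rw [← Finset.prod_mul_distrib]
    exact Finset.prod_eq_one fun j _ => hz_mul_hzi c₀ D j
  have hCDD : C ≤ DD C W (ga ρ L τ) X hX := by
    refine hCle.trans (lc_le hm hinvh hRle (DD_inv hst hτ (hRle hm) hinvh ?_))
    exact h.one_of_inv (C.prod_mem fun j _ => hz_mem hc₀ hS.pc j)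
      (C.prod_mem fun j _ => hzi_mem hc₀ hS.pc j) hinvh
  -- the norm
  have hval : ∀ (l : ℕ) (u : ML K L), u ∈ C → W (algebraMap (ML K L) F u) = 1 →
      ga ρ L (τ ^ l) u ∈ C ∧ W (algebraMap (ML K L) F (ga ρ L (τ ^ l) u)) = 1 := by
    intro l u hu hWu
    induction l with
    | zero =>
      rw [pow_zero, ga_one]
      exact ⟨hu, hWu⟩
    | succ l ih =>
      rw [pow_succ', ga_mul]
      exact ⟨hst _ ih.1, val_tau ih.2 (hτ _ ih.1)⟩
  set u0 : ML K L := ph dg N e j0 with hu0
  have hu0C : u0 ∈ C := ph_mem hS he.en (by omega)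
  have hu0W : W (algebraMap (ML K L) F u0) = 1 := h.ph hS he (by omega)
  have hu00 : u0 ≠ 0 := by
    intro hz'
    rw [hz', map_zero, map_zero] at hu0W
    exact zero_ne_one hu0W
  let Nm : ML K L := ∏ l ∈ range p, ga ρ L (τ ^ l) u0
  let Nm' : ML K L := ∏ l ∈ (range p).erase 0, ga ρ L (τ ^ l) u0
  have hNm' : u0 * Nm' = Nm := by
    change _ = ∏ l ∈ range p, ga ρ L (τ ^ l) u0
    rw [← Finset.mul_prod_erase _ _ (Finset.mem_range.2 hp), pow_zero, ga_one]
  have hNmC : Nm ∈ C := C.prod_mem fun l _ => (hval l u0 hu0C hu0W).1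
  have hNm'C : Nm' ∈ C := C.prod_mem fun l _ => (hval l u0 hu0C hu0W).1
  have hNmW : W (algebraMap (ML K L) F Nm) = 1 := by
    change W (algebraMap (ML K L) F (∏ l ∈ range p, ga ρ L (τ ^ l) u0)) = 1
    rw [map_prod, map_prod]
    exact Finset.prod_eq_one fun l _ => (hval l u0 hu0C hu0W).2
  have hNmfix : ga ρ L τ Nm = Nm := by
    change ga ρ L τ (∏ l ∈ range p, ga ρ L (τ ^ l) u0) = ∏ l ∈ range p, ga ρ L (τ ^ l) u0
    rw [map_prod]
    have h1 : ∀ l, ga ρ L τ (ga ρ L (τ ^ l) u0) = ga ρ L (τ ^ (l + 1)) u0 := fun l => by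
      rw [pow_succ', ga_mul]
    rw [Finset.prod_congr rfl fun l _ => h1 l]
    have h2 := Finset.prod_range_succ' (fun l => ga ρ L (τ ^ l) u0) p
    rw [Finset.prod_range_succ, hτp, pow_zero, ga_one] at h2
    exact (mul_right_cancel₀ hu00 h2).symm
  refine ⟨ph dg N e (j0 + 1) * Nm', C.mul_mem (ph_mem hS he.en (by omega)) hNm'C,
    fun c hc => ?_⟩
  have hbeq : ph dg N e (j0 + 1) * Nm' = sh dg N e j0 * Nm := by
    rw [← hNm', ph_succ]
    ring
  have hbd : ga ρ L τ (ph dg N e (j0 + 1) * Nm') - ph dg N e (j0 + 1) * Nm' =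
      Nm * (sh dg N e (σ j0) * X) := by
    rw [hbeq, map_mul, hNmfix, ← hdiff j0 hj0]
    ring
  obtain ⟨t, htC, htW, -, a, haC, hta⟩ := hCDD hc
  have hσ0 := (hσ j0 hj0).1
  refine ⟨t * (Nm * ph dg N e (σ j0 + 1)), C.mul_mem htC (C.mul_mem hNmC
    (ph_mem hS he.en (by omega))), ?_, a * ph dg N e (σ j0), C.mul_mem haC
    (ph_mem hS he.en (by omega)), ?_⟩
  · rw [map_mul, map_mul, map_mul, map_mul, htW, hNmW, h.ph hS he (by omega), one_mul, one_mul]
  · rw [hbd, ph_succ]
    calc t * (Nm * (ph dg N e (σ j0) * sh dg N e (σ j0))) * (ga ρ L τ c - c) =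
        (t * (ga ρ L τ c - c)) * (Nm * (ph dg N e (σ j0) * sh dg N e (σ j0))) := by ring
      _ = _ := by rw [hta]; ring

end princ

end Pool.Agent.Helper49.PQ
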