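import Pool.Agent.Helper49.PQ.Fin
import Pool.Agent.Helper12.PN.Hmg

/-!
# Regular models of the quotients of projective space by linear groups
-/

set_option autoImplicit false
set_option linter.unusedSectionVars false

namespace Pool.Agent.Helper49.PQ

open Finset Cardinal Pool.Agent.Helper46.AQ Pool.Agent.Helper49.PN Pool.Agent.Helper12.PN
  MvPolynomial

/-- The quotients of projective space by finite linear groups of order not divisible by `p ^ 2`
have regular models. -/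
theorem hasModel_lin (p : ℕ) [Fact p.Prime] {k : Type} [Field k] [Finite k] [CharP k p] {n : ℕ}
    {G : Type} [Group G] [Finite G]
    (ρ : G →* (MvPolynomial (Fin (n + 1)) k ≃ₐ[k] MvPolynomial (Fin (n + 1)) k))
    (hρ : ∀ g i, (ρ g (X i)).IsHomogeneous 1) (hG : ¬ p ^ 2 ∣ Nat.card G) :
    HasModel (fx0 ρ) := by
  classical
  have hfin := TT_clos_fin ρ p
  have : Finite (rK ρ).range :=
    Finite.of_surjective (rK ρ).rangeRestrict (rK ρ).rangeRestrict_surjective
  obtain ⟨b1, b2, b3, b4, b5, b6⟩ := base_lin (hfin := hfin) ρ hρ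
  have hb : Base (rK ρ).range.subtype (Ps k (n + 1)).range (PP ρ hfin) (n + 1) :=
    ⟨b1, b2, b3, b4, b5, b6⟩
  have hF : ∀ a, a ∈ fx0 ρ ↔ a ∈ K0 k n ∧ ∀ γ, (rK ρ).range.subtype γ a = a := by
    intro a
    rw [mem_fx0]
    constructor
    · rintro ⟨h1, h2⟩
      refine ⟨h2, ?_⟩
      rintro ⟨_, g, rfl⟩
      exact h1 g
    · rintro ⟨h1, h2⟩
      exact ⟨fun g => h2 ⟨_, g, rfl⟩, h1⟩
  have hS : Scl (rK ρ).range.subtype (PP ρ hfin) (K0 k n) (fx0 ρ) (Ps k (n + 1) (X 0)) := by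
    refine ⟨X_mem_PP ρ 0, tr_K0, ?_, ?_, hF⟩
    · intro a ha
      rw [zpow_one]
      exact PP_div_X_mem ρ hρ ha 0
    · rintro ⟨_, g, rfl⟩ a ha
      exact rK_K0 ρ hρ g ha
  refine hasModel_of_base hb (p := p) ?_ (fun γ h => Subtype.ext h) hS (Ps_X_ne_zero 0)
  intro P _ _ hd
  exact hG ((hd.trans (Subgroup.card_subgroup_dvd_card _)).trans
    (Subgroup.card_range_dvd (rK ρ)))

/-- The quotients of affine space by finite affine groups of order not divisible by `p ^ 2`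
have regular models. -/
theorem hasModel_aff (p : ℕ) [Fact p.Prime] {k : Type} [Field k] [Finite k] [CharP k p] {n : ℕ}
    {G : Type} [Group G] [Finite G]
    (ρ : G →* (MvPolynomial (Fin n) k ≃ₐ[k] MvPolynomial (Fin n) k))
    (hρ : ∀ g i, (ρ g (X i)).totalDegree ≤ 1) (hG : ¬ p ^ 2 ∣ Nat.card G) :
    HasModel (fx ρ) := by
  obtain ⟨X', h1, g, h2, h3, ⟨h4⟩⟩ := hasModel_lin p (hm ρ hρ) (hm_hom ρ hρ) hG
  exact ⟨X', h1, g, h2, h3, ⟨h4.trans (fxE ρ hρ).symm.toRingEquiv⟩⟩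

end Pool.Agent.Helper49.PQ
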