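import Pool.Agent.Helper46.AQ.Val
import Pool.Graph.R_seed8.W559.Mg.A7

/-!
# Atlases given by piecewise monomial functions
-/

set_option autoImplicit false
set_option linter.unusedSectionVars false

namespace Pool.Agent.Helper49.PQ

open Finset Pool.Agent.W559.Mg Pool.Agent.Helper46.AQ

section pos

variable {k K : Type} [Field k] [Field K] [Algebra k K]

/-- The valuation is bounded by one on `B` and the maximum of its values on `Φ` is one. -/
def Pos {Γ : Type} [LinearOrderedCommGroupWithZero Γ] (B : Subalgebra k K) (Φ : Finset K)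
    (v : Valuation K Γ) : Prop := (∀ b ∈ B, v b ≤ 1) ∧ mx v Φ = 1

/-- Elements which are in all valuation rings are integral. -/
lemma isIntegral_of_val (R : Subalgebra k K) (x : K)
    (h : ∀ V : ValuationSubring K, (∀ r ∈ R, r ∈ V) → x ∈ V) : IsIntegral R x := by
  have h1 := iInf_valuationSubring_superset (s := (R.toSubring : Set K))
  have h2 : x ∈ (⨅ V : {V : ValuationSubring K // (R.toSubring : Set K) ⊆ V.toSubring},
      V.1.toSubring) := by
    rw [Subring.mem_iInf]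
    rintro ⟨V, hV⟩
    exact h V fun r hr => hV hr
  rw [h1, Subring.closure_eq] at h2
  exact h2

end pos

section lcint

variable {k K : Type} [Field k] [Field K] [Algebra k K]

/-- Clearing denominators of integral elements. -/
lemma exists_pow_integral (R S : Subalgebra k K) (x : K) (hx0 : x ≠ 0) (hx : x ∈ S)
    (h : ∀ r ∈ R, ∃ n : ℕ, x ^ n * r ∈ S) (y : K) (hy : IsIntegral R y) :
    ∃ n : ℕ, IsIntegral S (x ^ n * y) := by
  have hle : R ≤ lc S x hx := fun r hr => h r hr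
  let _ : Algebra S (lc S x hx) :=
    (Subalgebra.inclusion (le_lc S x hx)).toRingHom.toAlgebra
  have _ : IsScalarTower S (lc S x hx) K := IsScalarTower.of_algebraMap_eq fun r => rfl
  have hloc := isLoc_lc S hx (isUnit_iff_ne_zero.2 hx0)
  have hy' : IsIntegral (lc S x hx) y := by
    obtain ⟨P, hP, hPy⟩ := hy
    refine ⟨P.map (Subalgebra.inclusion hle).toRingHom, hP.map _, ?_⟩
    rw [Polynomial.eval₂_map]
    exact hPy
  obtain ⟨⟨m, hm⟩, h1⟩ := IsIntegral.exists_multiple_integral_of_isLocalization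
    (Submonoid.powers (⟨x, hx⟩ : S)) (Rₘ := lc S x hx) y hy'
  obtain ⟨n, rfl⟩ := hm
  exact ⟨n, h1⟩

end lcint

section al

variable {K Γ : Type} [Field K] [LinearOrderedCommGroupWithZero Γ] {ι : Type} [Fintype ι]

/-- The piecewise monomial coordinates of a valuation. -/
def al (A B' : ι → Finset K) (v : Valuation K Γ) (i : ι) : Γ := mx v (A i) / mx v (B' i)

/-- The value of a monomial. -/
def nm (A B' : ι → Finset K) (v : Valuation K Γ) (m : ι → ℤ) : Γ := ∏ i, al A B' v i ^ m i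

variable {A B' : ι → Finset K} {v : Valuation K Γ}

lemma nm_zero : nm A B' v 0 = 1 := by
  unfold nm
  simp

lemma nm_add (h : ∀ i, al A B' v i ≠ 0) (m m' : ι → ℤ) :
    nm A B' v (m + m') = nm A B' v m * nm A B' v m' := by
  unfold nm
  rw [← Finset.prod_mul_distrib]
  exact Finset.prod_congr rfl fun i _ => zpow_add₀ (h i) _ _

lemma nm_neg (m : ι → ℤ) : nm A B' v (-m) = (nm A B' v m)⁻¹ := by
  unfold nm
  rw [← Finset.prod_inv_distrib]
  exact Finset.prod_congr rfl fun i _ => zpow_neg _ _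

lemma nm_nsmul (n : ℕ) (m : ι → ℤ) : nm A B' v (n • m) = nm A B' v m ^ n := by
  unfold nm
  rw [← Finset.prod_pow]
  refine Finset.prod_congr rfl fun i _ => ?_
  rw [Pi.smul_apply, nsmul_eq_mul, mul_comm, zpow_mul, zpow_natCast]

lemma nm_ne_zero (h : ∀ i, al A B' v i ≠ 0) (m : ι → ℤ) : nm A B' v m ≠ 0 :=
  Finset.prod_ne_zero_iff.2 fun i _ => zpow_ne_zero _ (h i)

lemma nm_single [DecidableEq ι] (i : ι) (n : ℤ) : nm A B' v (Pi.single i n) = al A B' v i ^ n := by
  unfold nm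
  rw [Finset.prod_eq_single i]
  · rw [Pi.single_eq_same]
  · intro j _ hj
    rw [Pi.single_eq_of_ne hj, zpow_zero]
  · intro h
    exact absurd (Finset.mem_univ i) h

end al

section sys

variable {k K : Type} [Field k] [Field K] [Algebra k K] {G : Type} [Group G]

/-- Piecewise monomial coordinates. -/
structure PC {ι : Type} (ρ : G →* (K ≃ₐ[k] K)) (B : Subalgebra k K) (Φ : Finset K)
    (A B' : ι → Finset K) : Prop where
  fΦ : Fam ρ B Φ
  fA : ∀ i, Fam ρ B (A i)
  fB : ∀ i, Fam ρ B (B' i)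
  le1 : ∀ (Γ : Type) [LinearOrderedCommGroupWithZero Γ] (v : Valuation K Γ), Pos B Φ v →
    ∀ i, al A B' v i ≤ 1

variable {ι : Type} [Fintype ι] {ρ : G →* (K ≃ₐ[k] K)} {B : Subalgebra k K} {Φ : Finset K}
  {A B' : ι → Finset K}

/-- All the families. -/
def fm (Φ : Finset K) (A B' : ι → Finset K) : Option (ι ⊕ ι) → Finset K
  | none => Φ
  | some j => Sum.elim A B' j

lemma PC.fam (h : PC ρ B Φ A B') (j : Option (ι ⊕ ι)) : Fam ρ B (fm Φ A B' j) := by
  rcases j with _ | i | i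
  · exact h.fΦ
  · exact h.fA i
  · exact h.fB i

lemma PC.al_ne (h : PC ρ B Φ A B') {Γ : Type} [LinearOrderedCommGroupWithZero Γ]
    (v : Valuation K Γ) (i : ι) : al A B' v i ≠ 0 :=
  div_ne_zero (mx_ne_zero (h.fA i).ne (h.fA i).n0) (mx_ne_zero (h.fB i).ne (h.fB i).n0)

lemma PC.mx_ne (h : PC ρ B Φ A B') {Γ : Type} [LinearOrderedCommGroupWithZero Γ]
    (v : Valuation K Γ) (j : Option (ι ⊕ ι)) : mx v (fm Φ A B' j) ≠ 0 :=
  mx_ne_zero (h.fam j).ne (h.fam j).n0

/-- The exponent. -/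
def EE (Φ : Finset K) (A B' : ι → Finset K) : ℕ := ∏ j, (fm Φ A B' j).card.factorial

lemma EE_pos : 0 < EE Φ A B' := Finset.prod_pos fun _ _ => Nat.factorial_pos _

/-- The indices of the charts. -/
def Tp (Φ : Finset K) (A B' : ι → Finset K) : Type :=
  {D : (j : Option (ι ⊕ ι)) → Fin ((fm Φ A B' j).card + 1) //
    ∀ j, 1 ≤ (D j : ℕ) ∧ es (fm Φ A B' j) (D j) ≠ 0}

instance : Finite (Tp Φ A B') := by
  unfold Tp
  infer_instance

lemma dvd_EE (D : Tp Φ A B') (j : Option (ι ⊕ ι)) : (D.1 j : ℕ) ∣ EE Φ A B' :=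
  (Nat.dvd_factorial (D.2 j).1 (by have := (D.1 j).2; omega)).trans
    (Finset.dvd_prod_of_mem _ (Finset.mem_univ j))

/-- The functions on a chart. -/
def hh (D : Tp Φ A B') (j : Option (ι ⊕ ι)) : K :=
  es (fm Φ A B' j) (D.1 j) ^ (EE Φ A B' / D.1 j)

lemma hh_ne (D : Tp Φ A B') (j : Option (ι ⊕ ι)) : hh D j ≠ 0 := pow_ne_zero _ (D.2 j).2

lemma PC.hh_mem (h : PC ρ B Φ A B') (D : Tp Φ A B') (j : Option (ι ⊕ ι)) : hh D j ∈ B :=
  B.pow_mem ((h.fam j).es_mem _) _

lemma PC.hh_inv (h : PC ρ B Φ A B') (D : Tp Φ A B') (j : Option (ι ⊕ ι)) (γ : G) :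
    ρ γ (hh D j) = hh D j := by
  unfold hh
  rw [map_pow, (h.fam j).es_inv]

section val

variable {Γ : Type} [LinearOrderedCommGroupWithZero Γ] {v : Valuation K Γ}

lemma hh_le (D : Tp Φ A B') (j : Option (ι ⊕ ι)) :
    v (hh D j) ≤ mx v (fm Φ A B' j) ^ EE Φ A B' := by
  unfold hh
  rw [map_pow]
  calc v (es (fm Φ A B' j) (D.1 j)) ^ (EE Φ A B' / D.1 j)
      ≤ (mx v (fm Φ A B' j) ^ (D.1 j : ℕ)) ^ (EE Φ A B' / D.1 j) :=
        pow_le_pow_left' (es_le _) _
    _ = mx v (fm Φ A B' j) ^ EE Φ A B' := by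
        rw [← pow_mul, Nat.mul_div_cancel' (dvd_EE D j)]

/-- Every valuation has a chart. -/
lemma PC.exists_chart (h : PC ρ B Φ A B') (v : Valuation K Γ) :
    ∃ D : Tp Φ A B', ∀ j, v (hh D j) = mx v (fm Φ A B' j) ^ EE Φ A B' := by
  choose l hl1 hl2 hl3 using fun j => es_eq (v := v) (h.fam j).ne (h.fam j).n0
  have h0 : ∀ j, es (fm Φ A B' j) (l j) ≠ 0 := by
    intro j h1
    have h2 := hl3 j
    rw [h1, map_zero] at h2
    exact pow_ne_zero _ (h.mx_ne v j) h2.symm
  let D : Tp Φ A B' := ⟨fun j => ⟨l j, by have := hl2 j; omega⟩, fun j => ⟨hl1 j, h0 j⟩⟩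
  refine ⟨D, fun j => ?_⟩
  unfold hh
  rw [map_pow]
  change v (es (fm Φ A B' j) (l j)) ^ (EE Φ A B' / l j) = _
  rw [hl3, ← pow_mul, Nat.mul_div_cancel' (dvd_EE D j)]

/-- The valuation has its centre in the chart. -/
def Vd (B : Subalgebra k K) (v : Valuation K Γ) (D : Tp Φ A B') : Prop :=
  Pos B Φ v ∧ ∀ j, v (hh D j) = mx v (fm Φ A B' j) ^ EE Φ A B'

lemma Vd.hn {D : Tp Φ A B'} (h : Vd B v D) : v (hh D none) = 1 := by
  rw [h.2 none]
  change mx v Φ ^ _ = 1
  rw [h.1.2, one_pow]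

end val

/-- The product of the functions. -/
def HH (D : Tp Φ A B') : K := ∏ j, hh D j

lemma HH_ne (D : Tp Φ A B') : HH D ≠ 0 := Finset.prod_ne_zero_iff.2 fun j _ => hh_ne D j

lemma PC.HH_mem (h : PC ρ B Φ A B') (D : Tp Φ A B') : HH D ∈ B :=
  B.prod_mem fun j _ => h.hh_mem D j

lemma PC.HH_inv (h : PC ρ B Φ A B') (D : Tp Φ A B') (γ : G) : ρ γ (HH D) = HH D := by
  unfold HH
  rw [map_prod]
  exact Finset.prod_congr rfl fun j _ => h.hh_inv D j γ

/-- The chart with a changed first index. -/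
def sw (D D' : Tp Φ A B') : Tp Φ A B' :=
  ⟨fun j => Option.rec (motive := fun j => Fin ((fm Φ A B' j).card + 1)) (D.1 none)
    (fun i => D'.1 (some i)) j, by
    rintro (_ | i)
    · exact D.2 none
    · exact D'.2 (some i)⟩

lemma hh_sw_none (D D' : Tp Φ A B') : hh (sw D D') none = hh D none := rfl

lemma hh_sw_some (D D' : Tp Φ A B') (i : ι ⊕ ι) : hh (sw D D') (some i) = hh D' (some i) := rfl

lemma HH_eq (D : Tp Φ A B') : HH D = hh D none * ∏ i, hh D (some i) := by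
  unfold HH
  rw [Fintype.prod_option]

lemma HH_sw (D D' : Tp Φ A B') : HH (sw D D') * hh D' none = HH D' * hh D none := by
  rw [HH_eq, HH_eq D', hh_sw_none]
  have h1 : ∏ i, hh (sw D D') (some i) = ∏ i, hh D' (some i) := rfl
  rw [h1]
  ring

section val

variable {Γ : Type} [LinearOrderedCommGroupWithZero Γ] {v : Valuation K Γ}

lemma HH_le (D : Tp Φ A B') : v (HH D) ≤ ∏ j, mx v (fm Φ A B' j) ^ EE Φ A B' := by
  unfold HH
  rw [map_prod]
  exact Finset.prod_le_prod' fun j _ => hh_le D j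

lemma Vd.HH_eq {D : Tp Φ A B'} (h : Vd B v D) :
    v (HH D) = ∏ j, mx v (fm Φ A B' j) ^ EE Φ A B' := by
  unfold HH
  rw [map_prod]
  exact Finset.prod_congr rfl fun j _ => h.2 j

lemma Vd.HH_le {D : Tp Φ A B'} (h : Vd B v D) (D' : Tp Φ A B') : v (HH D') ≤ v (HH D) := by
  rw [h.HH_eq]
  exact PQ.HH_le D'

/-- Criterion for the charts. -/
lemma PC.vd_of (h : PC ρ B Φ A B') (hv : Pos B Φ v) (D : Tp Φ A B')
    (hD : ∀ D' : Tp Φ A B', v (HH D') ≤ v (HH D)) : Vd B v D := by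
  refine ⟨hv, ?_⟩
  obtain ⟨D', hD'⟩ := h.exists_chart v
  have h1 : v (HH D) = ∏ j, mx v (fm Φ A B' j) ^ EE Φ A B' := by
    refine le_antisymm (PQ.HH_le D) ?_
    have h2 : Vd B v D' := ⟨hv, hD'⟩
    rw [← h2.HH_eq]
    exact hD D'
  have h3 : ∏ j, v (hh D j) = ∏ j, mx v (fm Φ A B' j) ^ EE Φ A B' := by
    rw [← h1]
    unfold HH
    rw [map_prod]
  intro j
  by_contra hcon
  have h4 : v (hh D j) < mx v (fm Φ A B' j) ^ EE Φ A B' := lt_of_le_of_ne (hh_le D j) hcon
  have h5 : ∏ j, v (hh D j) < ∏ j, mx v (fm Φ A B' j) ^ EE Φ A B' := by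
    classical
    rw [← Finset.mul_prod_erase _ _ (Finset.mem_univ j),
      ← Finset.mul_prod_erase _ (fun j => mx v (fm Φ A B' j) ^ EE Φ A B') (Finset.mem_univ j)]
    have h6 : ∏ x ∈ univ.erase j, v (hh D x) ≤
        ∏ x ∈ univ.erase j, mx v (fm Φ A B' x) ^ EE Φ A B' :=
      Finset.prod_le_prod' fun i _ => hh_le D i
    have h7 : (0 : Γ) < ∏ x ∈ univ.erase j, mx v (fm Φ A B' x) ^ EE Φ A B' :=
      zero_lt_iff.2 (Finset.prod_ne_zero_iff.2 fun i _ => pow_ne_zero _ (h.mx_ne v i))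
    calc v (hh D j) * ∏ x ∈ univ.erase j, v (hh D x)
        ≤ v (hh D j) * ∏ x ∈ univ.erase j, mx v (fm Φ A B' x) ^ EE Φ A B' := by gcongr
      _ < _ := mul_lt_mul_of_pos_right h4 h7
  exact absurd h3 h5.ne

end val

variable {L : Type} [AddCommGroup L] (dg : L ≃+ (ι → ℤ))

/-- The graded algebra of a chart. -/
noncomputable def CC (hPC : PC ρ B Φ A B') (D : Tp Φ A B') : Subalgebra k (ML K L) where
  carrier := {f | ∀ (Γ : Type) [LinearOrderedCommGroupWithZero Γ] (v : Valuation K Γ), Vd B v D →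
    ∀ m, v (f.coeff m) ≤ nm A B' v (dg m)}
  mul_mem' := by
    intro f g hf hg Γ _ v hv m
    rw [coeff_mul_sum]
    refine v.map_sum_le fun a _ => ?_
    rw [map_mul]
    have h1 : nm A B' v (dg m) = nm A B' v (dg a) * nm A B' v (dg (m - a)) := by
      rw [← nm_add (hPC.al_ne v), ← map_add, add_sub_cancel]
    rw [h1]
    exact mul_le_mul' (hf Γ v hv a) (hg Γ v hv _)
  add_mem' := by
    intro f g hf hg Γ _ v hv m
    rw [coeff_add']
    exact (v.map_add _ _).trans (max_le (hf Γ v hv m) (hg Γ v hv m))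
  algebraMap_mem' := by
    classical
    intro r Γ _ v hv m
    rw [algebraMap_ML, coeff_mo]
    split_ifs with h
    · rw [← h, map_zero, nm_zero]
      exact hv.1.1 _ (B.algebraMap_mem r)
    · rw [map_zero]
      exact zero_le

variable {dg} (hPC : PC ρ B Φ A B')

lemma mem_CC {D : Tp Φ A B'} {f : ML K L} : f ∈ CC dg hPC D ↔
    ∀ (Γ : Type) [LinearOrderedCommGroupWithZero Γ] (v : Valuation K Γ), Vd B v D →
      ∀ m, v (f.coeff m) ≤ nm A B' v (dg m) := Iff.rfl

lemma mo_mem_CC {D : Tp Φ A B'} {m : L} {a : K} : mo m a ∈ CC dg hPC D ↔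
    ∀ (Γ : Type) [LinearOrderedCommGroupWithZero Γ] (v : Valuation K Γ), Vd B v D →
      v a ≤ nm A B' v (dg m) := by
  classical
  constructor
  · intro h Γ _ v hv
    have h1 := h Γ v hv m
    rwa [coeff_mo_same] at h1
  · intro h Γ _ v hv m'
    rw [coeff_mo]
    split_ifs with h1
    · rw [← h1]
      exact h Γ v hv
    · rw [map_zero]
      exact zero_le

lemma gr_CC (D : Tp Φ A B') : Gr (CC dg hPC D) := by
  intro f hf d
  rw [mo_mem_CC]
  exact fun Γ _ v hv => hf Γ v hv d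

/-- The invariants. -/
noncomputable def Fx (ρ : G →* (K ≃ₐ[k] K)) (L : Type) [AddCommGroup L] :
    Subalgebra k (ML K L) where
  carrier := {f | ∀ γ m, ρ γ (f.coeff m) = f.coeff m}
  mul_mem' := by
    intro f g hf hg γ m
    rw [coeff_mul_sum, map_sum]
    exact Finset.sum_congr rfl fun a _ => by rw [map_mul, hf, hg]
  add_mem' := by
    intro f g hf hg γ m
    rw [coeff_add', map_add, hf, hg]
  algebraMap_mem' := by
    classical
    intro r γ m
    rw [algebraMap_ML, coeff_mo]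
    split_ifs with h
    · exact (ρ γ).commutes r
    · rw [map_zero]

lemma mo_mem_Fx {m : L} {a : K} : mo m a ∈ Fx ρ L ↔ ∀ γ, ρ γ a = a := by
  classical
  constructor
  · intro h γ
    have h1 := h γ m
    rwa [coeff_mo_same] at h1
  · intro h γ m'
    rw [coeff_mo]
    split_ifs
    · exact h γ
    · rw [map_zero]

/-- The ring of a chart. -/
def RD (B : Subalgebra k K) (D : Tp Φ A B') : Subalgebra k K :=
  B ⊔ Algebra.adjoin k (insert (hh D none)⁻¹ (Set.range fun D' : Tp Φ A B' => HH D' / HH D))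

lemma le_RD (D : Tp Φ A B') : B ≤ RD B D := le_sup_left

lemma div_mem_RD (D D' : Tp Φ A B') : HH D' / HH D ∈ RD B D :=
  (le_sup_right : _ ≤ RD B D) (Algebra.subset_adjoin (Set.mem_insert_of_mem _ ⟨D', rfl⟩))

lemma inv_mem_RD (D : Tp Φ A B') : (hh D none)⁻¹ ∈ RD B D :=
  (le_sup_right : _ ≤ RD B D) (Algebra.subset_adjoin (Set.mem_insert _ _))

lemma RD_le {D : Tp Φ A B'} {S : Subalgebra k K} (h1 : B ≤ S)
    (h2 : ∀ D' : Tp Φ A B', HH D' / HH D ∈ S) (h3 : (hh D none)⁻¹ ∈ S) :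
    RD B D ≤ S := by
  refine sup_le h1 (Algebra.adjoin_le ?_)
  rintro _ (rfl | ⟨D', rfl⟩)
  · exact h3
  · exact h2 D'

include hPC in
/-- The integral closure of the ring of a chart. -/
lemma integral_RD {D : Tp Φ A B'} {x : K} (hx : ∀ (Γ : Type) [LinearOrderedCommGroupWithZero Γ]
    (v : Valuation K Γ), Vd B v D → v x ≤ 1) : IsIntegral (RD B D) x := by
  refine isIntegral_of_val _ _ fun V hV => ?_
  rw [← V.valuation_le_one_iff]
  refine hx _ V.valuation (hPC.vd_of ?_ D fun D' => ?_)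
  · have hB : ∀ b ∈ B, V.valuation b ≤ 1 := by
      intro b hb
      exact (V.valuation_le_one_iff _).2 (hV b (le_RD D hb))
    refine ⟨hB, le_antisymm (mx_le fun a ha => hB a (hPC.fΦ.mem a ha)) ?_⟩
    have h1 := (V.valuation_le_one_iff _).2 (hV _ (inv_mem_RD D))
    have h2 : V.valuation (hh D none) ≠ 0 := (Valuation.ne_zero_iff _).2 (hh_ne D none)
    rw [map_inv₀] at h1
    have h3 : 1 ≤ V.valuation (hh D none) := (inv_le_one₀ (zero_lt_iff.2 h2)).1 h1
    have h4 := h3.trans (hh_le (v := V.valuation) D none)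
    by_contra hcon
    push Not at hcon
    have h5 : mx V.valuation Φ ^ EE Φ A B' < 1 := pow_lt_one₀ zero_le hcon EE_pos.ne'
    exact absurd h4 (not_le.2 h5)
  · have h1 := (V.valuation_le_one_iff _).2 (hV _ (div_mem_RD D D'))
    rw [map_div₀] at h1
    have h2 : V.valuation (HH D) ≠ 0 := (Valuation.ne_zero_iff _).2 (HH_ne D)
    rwa [div_le_one₀ (zero_lt_iff.2 h2)] at h1

lemma val_of_integral {R : Subalgebra k K} {x : K} (hx : IsIntegral R x) {Γ : Type}
    [LinearOrderedCommGroupWithZero Γ] {v : Valuation K Γ} (hv : ∀ r ∈ R, v r ≤ 1) : v x ≤ 1 := by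
  obtain ⟨P, hP, hPx⟩ := hx
  have hint : IsIntegral v.integer x := by
    let φ : R →+* v.integer := Subring.inclusion (S := R.toSubring) (T := v.integer)
      (fun r hr => hv r hr)
    refine ⟨P.map φ, hP.map φ, ?_⟩
    rw [Polynomial.eval₂_map]
    exact hPx
  have h1 := (Valuation.integer.integers v).mem_of_integral hint
  exact h1

lemma Vd.RD_le {Γ : Type} [LinearOrderedCommGroupWithZero Γ] {v : Valuation K Γ} {D : Tp Φ A B'}
    (h : Vd B v D) : ∀ r ∈ RD B D, v r ≤ 1 := by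
  let S : Subalgebra k K :=
    { carrier := {x | v x ≤ 1}
      mul_mem' := fun {a b} ha hb => by
        change v (a * b) ≤ 1
        rw [map_mul]
        exact mul_le_one' ha hb
      add_mem' := fun {a b} ha hb => (v.map_add a b).trans (max_le ha hb)
      algebraMap_mem' := fun r => h.1.1 _ (B.algebraMap_mem r) }
  have h1 : RD B D ≤ S := by
    refine PQ.RD_le (fun b hb => h.1.1 b hb) (fun D' => ?_) ?_
    · change v (HH D' / HH D) ≤ 1
      rw [map_div₀]
      have h2 : v (HH D) ≠ 0 := (Valuation.ne_zero_iff _).2 (HH_ne D)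
      rw [div_le_one₀ (zero_lt_iff.2 h2)]
      exact h.HH_le D'
    · change v (hh D none)⁻¹ ≤ 1
      rw [map_inv₀, h.hn, inv_one]
  exact fun r hr => h1 hr

/-- The functions whose values are powers of the norms. -/
def uu (D : Tp Φ A B') (m : ι → ℤ) : K :=
  ∏ i, (hh D (some (Sum.inl i)) / hh D (some (Sum.inr i))) ^ m i

lemma uu_ne (D : Tp Φ A B') (m : ι → ℤ) : uu D m ≠ 0 :=
  Finset.prod_ne_zero_iff.2 fun i _ => zpow_ne_zero _ (div_ne_zero (hh_ne D _) (hh_ne D _))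

lemma PC.uu_inv (h : PC ρ B Φ A B') (D : Tp Φ A B') (m : ι → ℤ) (γ : G) :
    ρ γ (uu D m) = uu D m := by
  unfold uu
  rw [map_prod]
  refine Finset.prod_congr rfl fun i _ => ?_
  rw [map_zpow₀, map_div₀, h.hh_inv, h.hh_inv]

lemma Vd.uu_eq {Γ : Type} [LinearOrderedCommGroupWithZero Γ] {v : Valuation K Γ} {D : Tp Φ A B'}
    (h : Vd B v D) (m : ι → ℤ) : v (uu D m) = nm A B' v m ^ EE Φ A B' := by
  unfold uu nm
  rw [map_prod, ← Finset.prod_pow]
  refine Finset.prod_congr rfl fun i _ => ?_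
  rw [map_zpow₀, map_div₀, h.2, h.2, ← div_pow]
  change ((mx v (A i) / mx v (B' i)) ^ EE Φ A B') ^ m i = _
  rw [← zpow_natCast, ← zpow_mul, mul_comm, zpow_mul, zpow_natCast]
  rfl

end sys

end Pool.Agent.Helper49.PQ
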