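import Pool.Agent.Helper49.PQ.Hom

/-!
# Systems of coordinates: enumerations and the initial system
-/

set_option autoImplicit false
set_option linter.unusedSectionVars false

namespace Pool.Agent.Helper49.PQ

open Finset Pointwise Pool.Agent.Helper46.AQ

section mz

variable {Γ : Type} [LinearOrderedCommGroupWithZero Γ] {ι : Type} [Fintype ι]

/-- The value of a monomial at a tuple. -/
def mz (ξ : ι → Γ) (m : ι → ℤ) : Γ := ∏ i, ξ i ^ m i

lemma nm_eq_mz {K : Type} [Field K] (A B' : ι → Finset K) (v : Valuation K Γ) (m : ι → ℤ) :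
    nm A B' v m = mz (al A B' v) m := rfl

variable {ξ : ι → Γ}

lemma mz_zero : mz ξ 0 = 1 := by
  unfold mz
  simp

lemma mz_add (h : ∀ i, ξ i ≠ 0) (m m' : ι → ℤ) : mz ξ (m + m') = mz ξ m * mz ξ m' := by
  unfold mz
  rw [← Finset.prod_mul_distrib]
  exact Finset.prod_congr rfl fun i _ => zpow_add₀ (h i) _ _

lemma mz_neg (m : ι → ℤ) : mz ξ (-m) = (mz ξ m)⁻¹ := by
  unfold mz
  rw [← Finset.prod_inv_distrib]
  exact Finset.prod_congr rfl fun i _ => zpow_neg _ _

lemma mz_sub (h : ∀ i, ξ i ≠ 0) (m m' : ι → ℤ) : mz ξ (m - m') = mz ξ m / mz ξ m' := by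
  rw [sub_eq_add_neg, mz_add h, mz_neg, div_eq_mul_inv]

lemma mz_nsmul (n : ℕ) (m : ι → ℤ) : mz ξ (n • m) = mz ξ m ^ n := by
  unfold mz
  rw [← Finset.prod_pow]
  refine Finset.prod_congr rfl fun i _ => ?_
  rw [Pi.smul_apply, nsmul_eq_mul, mul_comm, zpow_mul, zpow_natCast]

lemma mz_ne_zero (h : ∀ i, ξ i ≠ 0) (m : ι → ℤ) : mz ξ m ≠ 0 :=
  Finset.prod_ne_zero_iff.2 fun i _ => zpow_ne_zero _ (h i)

lemma mz_single [DecidableEq ι] (i : ι) (n : ℤ) : mz ξ (Pi.single i n) = ξ i ^ n := by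
  unfold mz
  rw [Finset.prod_eq_single i]
  · rw [Pi.single_eq_same]
  · intro j _ hj
    rw [Pi.single_eq_of_ne hj, zpow_zero]
  · intro h
    exact absurd (Finset.mem_univ i) h

lemma mz_sum (h : ∀ i, ξ i ≠ 0) {J : Type} (s : Finset J) (m : J → ι → ℤ) :
    mz ξ (∑ j ∈ s, m j) = ∏ j ∈ s, mz ξ (m j) := by
  classical
  induction s using Finset.induction_on with
  | empty => simp [mz_zero]
  | insert a s ha ih => rw [Finset.sum_insert ha, Finset.prod_insert ha, mz_add h, ih]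

lemma mz_le_one (h1 : ∀ i, ξ i ≤ 1) {m : ι → ℤ} (hm : ∀ i, 0 ≤ m i) : mz ξ m ≤ 1 := by
  unfold mz
  refine Finset.prod_le_one' fun i _ => ?_
  obtain ⟨n, hn⟩ := Int.eq_ofNat_of_zero_le (hm i)
  rw [hn]
  simpa using pow_le_one' (h1 i) n

/-- The vector of a tuple of natural numbers. -/
def vz (N : ι → ℕ) : ι → ℤ := fun i => (N i : ℤ)

lemma vz_nonneg (N : ι → ℕ) (i : ι) : 0 ≤ vz N i := Int.natCast_nonneg _

lemma mz_anti (h0 : ∀ i, ξ i ≠ 0) (h1 : ∀ i, ξ i ≤ 1) {N N' : ι → ℕ} (h : ∀ i, N i ≤ N' i) :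
    mz ξ (vz N') ≤ mz ξ (vz N) := by
  have h2 : vz N' = vz N + (vz N' - vz N) := by rw [add_sub_cancel]
  rw [h2, mz_add h0]
  have h3 : mz ξ (vz N' - vz N) ≤ 1 := by
    refine mz_le_one h1 fun i => ?_
    have := h i
    simp only [vz, Pi.sub_apply]
    omega
  calc _ ≤ mz ξ (vz N) * 1 := mul_le_mul_right h3 _
    _ = _ := mul_one _

end mz

section en

variable {K : Type} [Field K] [DecidableEq K]

/-- An enumeration of a finite set. -/
def IsEn (Φ : Finset K) (e : ℕ → K) : Prop := (range Φ.card).image e = Φ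

variable {Φ : Finset K} {e : ℕ → K}

lemma IsEn.inj (h : IsEn Φ e) : Set.InjOn e (range Φ.card) := by
  refine Finset.injOn_of_card_image_eq ?_
  rw [h, Finset.card_range]

lemma IsEn.mem (h : IsEn Φ e) {j : ℕ} (hj : j < Φ.card) : e j ∈ Φ := by
  have : e j ∈ (range Φ.card).image e := Finset.mem_image_of_mem _ (Finset.mem_range.2 hj)
  rwa [h] at this

lemma IsEn.exists_eq (h : IsEn Φ e) {a : K} (ha : a ∈ Φ) : ∃ j < Φ.card, e j = a := by
  have : a ∈ (range Φ.card).image e := by rwa [h]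
  obtain ⟨j, hj, h1⟩ := Finset.mem_image.1 this
  exact ⟨j, Finset.mem_range.1 hj, h1⟩

variable {Γ : Type} [LinearOrderedCommGroupWithZero Γ]

/-- Sorted enumerations. -/
def Srt (Φ : Finset K) (v : Valuation K Γ) (e : ℕ → K) : Prop :=
  IsEn Φ e ∧ ∀ i j, i ≤ j → j < Φ.card → v (e j) ≤ v (e i)

lemma exists_srt_aux (v : Valuation K Γ) (n : ℕ) : ∀ Φ : Finset K, Φ.card = n →
    ∃ e, Srt Φ v e := by
  induction n with
  | zero =>
    intro Φ hΦ
    refine ⟨fun _ => 0, ?_, fun i j _ hj => by omega⟩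
    rw [Finset.card_eq_zero] at hΦ
    subst hΦ
    rfl
  | succ n ih =>
    intro Φ hΦ
    have hne : Φ.Nonempty := by
      rw [← Finset.card_pos, hΦ]
      omega
    obtain ⟨a, ha, hmin⟩ := Finset.exists_min_image Φ v hne
    have hc : (Φ.erase a).card = n := by rw [Finset.card_erase_of_mem ha, hΦ]; rfl
    obtain ⟨e, he1, he2⟩ := ih (Φ.erase a) hc
    have hlt : ∀ j, j < n → e j ∈ Φ.erase a := fun j hj => he1.mem (by rw [hc]; exact hj)
    refine ⟨fun j => if j < n then e j else a, ?_, ?_⟩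
    · unfold IsEn
      rw [hΦ, Finset.range_add_one, Finset.image_insert, if_neg (lt_irrefl n)]
      have h1 : (range n).image (fun j => if j < n then e j else a) = (range n).image e := by
        refine Finset.image_congr fun j hj => ?_
        rw [Finset.coe_range, Set.mem_Iio] at hj
        change (if j < n then e j else a) = e j
        rw [if_pos hj]
      have h2 : (range n).image e = Φ.erase a := by
        have := he1
        unfold IsEn at this
        rwa [hc] at this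
      rw [h1, h2, Finset.insert_erase ha]
    · intro i j hij hj
      rw [hΦ] at hj
      change v (if j < n then e j else a) ≤ v (if i < n then e i else a)
      by_cases hjn : j < n
      · rw [if_pos hjn, if_pos (by omega)]
        exact he2 i j hij (by rw [hc]; exact hjn)
      · rw [if_neg hjn]
        by_cases hin : i < n
        · rw [if_pos hin]
          exact hmin _ (Finset.mem_of_mem_erase (hlt i hin))
        · rw [if_neg hin]

lemma exists_srt (v : Valuation K Γ) (Φ : Finset K) : ∃ e, Srt Φ v e :=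
  exists_srt_aux v _ Φ rfl

/-- The rearrangement inequality. -/
lemma prod_le_range (μ : ℕ → Γ) (M : ℕ) (hμ : ∀ i j, i ≤ j → j < M → μ j ≤ μ i) (m : ℕ) :
    ∀ I ⊆ range M, I.card = m → ∏ j ∈ I, μ j ≤ ∏ j ∈ range m, μ j := by
  induction m with
  | zero =>
    intro I _ hI
    rw [Finset.card_eq_zero] at hI
    rw [hI]
    rfl
  | succ m ih =>
    intro I hIM hI
    have hne : I.Nonempty := by
      rw [← Finset.card_pos, hI]
      omega
    set x := I.max' hne with hx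
    have hxI : x ∈ I := Finset.max'_mem _ _
    have hxm : m ≤ x := by
      have h1 : I ⊆ range (x + 1) := fun y hy =>
        Finset.mem_range.2 (Nat.lt_succ_of_le (Finset.le_max' _ _ hy))
      have h2 := Finset.card_le_card h1
      rw [hI, Finset.card_range] at h2
      omega
    rw [← Finset.mul_prod_erase _ _ hxI, Finset.prod_range_succ, mul_comm]
    refine mul_le_mul' ?_ ?_
    · refine ih _ ((Finset.erase_subset _ _).trans hIM) ?_
      rw [Finset.card_erase_of_mem hxI, hI]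
      rfl
    · exact hμ _ _ hxm (Finset.mem_range.1 (hIM hxI))

lemma Srt.prod_le {v : Valuation K Γ} (h : Srt Φ v e) {I : Finset K} (hI : I ⊆ Φ) :
    v (∏ a ∈ I, a) ≤ ∏ j ∈ range I.card, v (e j) := by
  set I' := (range Φ.card).filter fun j => e j ∈ I with hI'
  have h1 : I'.image e = I := by
    ext a
    rw [Finset.mem_image]
    constructor
    · rintro ⟨j, hj, rfl⟩
      exact (Finset.mem_filter.1 hj).2
    · intro ha
      obtain ⟨j, hj, h2⟩ := h.1.exists_eq (hI ha)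
      exact ⟨j, Finset.mem_filter.2 ⟨Finset.mem_range.2 hj, by rwa [h2]⟩, h2⟩
  have hinj : Set.InjOn e I' := h.1.inj.mono (by
    intro j hj
    exact Finset.filter_subset _ _ hj)
  have h2 : I'.card = I.card := by
    rw [← h1, Finset.card_image_of_injOn hinj]
  have h3 : v (∏ a ∈ I, a) = ∏ j ∈ I', v (e j) := by
    rw [← h1, Finset.prod_image fun x hx y hy hxy => hinj hx hy hxy, map_prod]
  rw [h3]
  exact prod_le_range (fun j => v (e j)) Φ.card h.2 _ I' (Finset.filter_subset _ _) h2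

/-- The products of `m` elements. -/
def Pm (Φ : Finset K) (m : ℕ) : Finset K := (Φ.powersetCard m).image fun I => ∏ a ∈ I, a

lemma Srt.mx_Pm {v : Valuation K Γ} (h : Srt Φ v e) {m : ℕ} (hm : m ≤ Φ.card) :
    mx v (Pm Φ m) = ∏ j ∈ range m, v (e j) := by
  apply le_antisymm
  · refine mx_le fun a ha => ?_
    obtain ⟨I, hI, rfl⟩ := Finset.mem_image.1 ha
    obtain ⟨h1, h2⟩ := Finset.mem_powersetCard.1 hI
    rw [← h2]
    exact h.prod_le h1
  · have hinj : Set.InjOn e (range m) := h.1.inj.mono (by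
      intro j hj
      rw [Finset.coe_range, Set.mem_Iio] at hj ⊢
      omega)
    have h1 : ∏ j ∈ range m, v (e j) = v (∏ a ∈ (range m).image e, a) := by
      rw [Finset.prod_image fun x hx y hy hxy => hinj hx hy hxy, map_prod]
    rw [h1]
    refine le_mx (Finset.mem_image_of_mem _ (Finset.mem_powersetCard.2 ⟨?_, ?_⟩))
    · intro a ha
      obtain ⟨j, hj, rfl⟩ := Finset.mem_image.1 ha
      exact h.1.mem (by have := Finset.mem_range.1 hj; omega)
    · rw [Finset.card_image_of_injOn hinj, Finset.card_range]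

end en

section sys0

variable {k K : Type} [Field k] [Field K] [Algebra k K] [DecidableEq K] {G : Type} [Group G]
  {ρ : G →* (K ≃ₐ[k] K)} {B : Subalgebra k K} {Φ : Finset K}

lemma fam_Pm (h : Fam ρ B Φ) {m : ℕ} (hm : m ≤ Φ.card) : Fam ρ B (Pm Φ m) where
  ne := (Finset.powersetCard_nonempty.2 hm).image _
  mem := by
    intro a ha
    obtain ⟨I, hI, rfl⟩ := Finset.mem_image.1 ha
    exact B.prod_mem fun a ha => h.mem a ((Finset.mem_powersetCard.1 hI).1 ha)
  n0 := by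
    intro a ha
    obtain ⟨I, hI, rfl⟩ := Finset.mem_image.1 ha
    exact Finset.prod_ne_zero_iff.2 fun a ha => h.n0 a ((Finset.mem_powersetCard.1 hI).1 ha)
  st := by
    intro g a ha
    obtain ⟨I, hI, rfl⟩ := Finset.mem_image.1 ha
    obtain ⟨h1, h2⟩ := Finset.mem_powersetCard.1 hI
    refine Finset.mem_image.2 ⟨I.image (ρ g), Finset.mem_powersetCard.2 ⟨?_, ?_⟩, ?_⟩
    · intro x hx
      obtain ⟨y, hy, rfl⟩ := Finset.mem_image.1 hx
      exact h.st g y (h1 hy)
    · rw [Finset.card_image_of_injective _ (ρ g).injective, h2]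
    · rw [Finset.prod_image fun x _ y _ hxy => (ρ g).injective hxy, map_prod]

/-- Systems of coordinates. -/
structure Sys {ι : Type} [Fintype ι] (ρ : G →* (K ≃ₐ[k] K)) (B : Subalgebra k K) (Φ : Finset K)
    (A B' : ι → Finset K) (Ex : ι → ι → Prop) (N : ℕ → ι → ℕ) : Prop where
  pc : PC ρ B Φ A B'
  irr : ∀ i, ¬ Ex i i
  sym : ∀ i j, Ex i j → Ex j i
  mono : ∀ j j' i, j ≤ j' → N j i ≤ N j' i
  z0 : ∀ i, N 0 i = 0
  en : ∀ (Γ : Type) [LinearOrderedCommGroupWithZero Γ] (v : Valuation K Γ), Pos B Φ v →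
    ∃ e, IsEn Φ e ∧ ∀ j < Φ.card, v (e j) = mz (al A B' v) (vz (N j))
  ex : ∀ (Γ : Type) [LinearOrderedCommGroupWithZero Γ] (v : Valuation K Γ), Pos B Φ v →
    ∀ i j, Ex i j → al A B' v i = 1 ∨ al A B' v j = 1
  un : ∀ (Γ : Type) [LinearOrderedCommGroupWithZero Γ] (v : Valuation K Γ), Pos B Φ v →
    ∀ ξ : ι → Γ, (∀ i, ξ i ≠ 0) → (∀ i, ξ i ≤ 1) → (∀ i j, Ex i j → ξ i = 1 ∨ ξ j = 1) →
      ∀ e, IsEn Φ e → (∀ j < Φ.card, v (e j) = mz ξ (vz (N j))) → ξ = al A B' v
  la : ∃ c : Option (ι ⊕ ι) → ι → ℤ, ∀ (Γ : Type) [LinearOrderedCommGroupWithZero Γ] (v : Valuation K Γ),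
    Pos B Φ v → ∀ j, mx v (fm Φ A B' j) = mz (al A B' v) (c j)
  hm : ∀ (K0 : Subfield K) (t : K), t ≠ 0 → HF K0 t 1 Φ → ∃ δ : ι → ℤ,
    ∀ i, HF K0 t (δ i) (A i) ∧ HF K0 t (δ i) (B' i)

/-- The initial families. -/
def A0 (Φ : Finset K) (i : Fin (Φ.card - 1)) : Finset K := Pm Φ (i + 2) * Pm Φ i

/-- The initial families. -/
def B0 (Φ : Finset K) (i : Fin (Φ.card - 1)) : Finset K := Pm Φ (i + 1) * Pm Φ (i + 1)

/-- The initial exponents. -/
def N0 (Φ : Finset K) (j : ℕ) (i : Fin (Φ.card - 1)) : ℕ := if (i : ℕ) < j then 1 else 0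

variable {Γ : Type} [LinearOrderedCommGroupWithZero Γ] {v : Valuation K Γ} {e : ℕ → K}

lemma al0 (hΦ : Fam ρ B Φ) (h : Srt Φ v e) (i : Fin (Φ.card - 1)) :
    al (A0 Φ) (B0 Φ) v i = v (e (i + 1)) / v (e i) := by
  have hi := i.2
  have h0 : (Pm Φ i).Nonempty := (fam_Pm hΦ (by omega)).ne
  have h1 : (Pm Φ (i + 1)).Nonempty := (fam_Pm hΦ (by omega)).ne
  have h2 : (Pm Φ (i + 2)).Nonempty := (fam_Pm hΦ (by omega)).ne
  unfold al A0 B0
  rw [mx_mul h2 h0, mx_mul h1 h1, h.mx_Pm (by omega), h.mx_Pm (by omega), h.mx_Pm (by omega)]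
  have e0 : ∀ j, j < Φ.card → v (e j) ≠ 0 := fun j hj =>
    (Valuation.ne_zero_iff _).2 (hΦ.n0 _ (h.1.mem hj))
  have hp : ∏ j ∈ range (i : ℕ), v (e j) ≠ 0 :=
    Finset.prod_ne_zero_iff.2 fun j hj => e0 j (by have := Finset.mem_range.1 hj; omega)
  have hi0 := e0 i (by omega)
  rw [Finset.prod_range_succ _ ((i : ℕ) + 1), Finset.prod_range_succ _ (i : ℕ)]
  field_simp

lemma mz_N0 {ξ : Fin (Φ.card - 1) → Γ} (hξ : ∀ i, ξ i ≠ 0) {j : ℕ} (hj : j < Φ.card - 1) :
    mz ξ (vz (N0 Φ (j + 1))) = mz ξ (vz (N0 Φ j)) * ξ ⟨j, hj⟩ := by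
  have h1 : vz (N0 Φ (j + 1)) = vz (N0 Φ j) + Pi.single ⟨j, hj⟩ 1 := by
    funext i
    by_cases hi : i = ⟨j, hj⟩
    · subst hi
      simp [vz, N0]
    · have hi' : (i : ℕ) ≠ j := fun h => hi (Fin.ext h)
      have h2 : ((i : ℕ) < j + 1) ↔ ((i : ℕ) < j) := by omega
      simp [vz, N0, Pi.single_eq_of_ne hi, h2]
  rw [h1, mz_add hξ, mz_single, zpow_one]

lemma N0_zero : N0 Φ 0 = 0 := by
  funext i
  simp [N0]

lemma sys0_en (hΦ : Fam ρ B Φ) (hv : Pos B Φ v) (h : Srt Φ v e) :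
    ∀ j < Φ.card, v (e j) = mz (al (A0 Φ) (B0 Φ) v) (vz (N0 Φ j)) := by
  have e0 : ∀ j, j < Φ.card → v (e j) ≠ 0 := fun j hj =>
    (Valuation.ne_zero_iff _).2 (hΦ.n0 _ (h.1.mem hj))
  have hne : ∀ i, al (A0 Φ) (B0 Φ) v i ≠ 0 := fun i => by
    have hi := i.2
    rw [al0 hΦ h]
    exact div_ne_zero (e0 _ (by omega)) (e0 _ (by omega))
  intro j
  induction j with
  | zero =>
    intro hj
    have hz : vz (N0 Φ 0) = 0 := by
      funext i
      simp [vz, N0]
    rw [hz, mz_zero]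
    refine le_antisymm (hv.1 _ (hΦ.mem _ (h.1.mem hj))) ?_
    rw [← hv.2]
    refine mx_le fun a ha => ?_
    obtain ⟨l, hl, rfl⟩ := h.1.exists_eq ha
    exact h.2 0 l (Nat.zero_le _) hl
  | succ j ih =>
    intro hj
    have hj' : j < Φ.card - 1 := by omega
    rw [mz_N0 hne hj', ← ih (by omega), al0 hΦ h]
    change _ = v (e j) * (v (e (j + 1)) / v (e j))
    rw [mul_div_cancel₀ _ (e0 j (by omega))]

lemma hf_Pm {K0 : Subfield K} {t : K} (ht : t ≠ 0) (h : HF K0 t 1 Φ) (m : ℕ) :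
    HF K0 t m (Pm Φ m) := by
  intro a ha
  obtain ⟨I, hI, rfl⟩ := Finset.mem_image.1 ha
  obtain ⟨h1, h2⟩ := Finset.mem_powersetCard.1 hI
  have h3 := h.prod ht h1
  rwa [mul_one, h2] at h3

theorem sys0 (hΦ : Fam ρ B Φ) :
    Sys ρ B Φ (A0 Φ) (B0 Φ) (fun _ _ => False) (N0 Φ) where
  pc :=
    { fΦ := hΦ
      fA := fun i => by
        have hi := i.2
        exact (fam_Pm hΦ (by omega)).mul (fam_Pm hΦ (by omega))
      fB := fun i => by
        have hi := i.2
        exact (fam_Pm hΦ (by omega)).mul (fam_Pm hΦ (by omega))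
      le1 := by
        intro Γ _ v hv i
        obtain ⟨e, he⟩ := exists_srt v Φ
        have hi := i.2
        rw [al0 hΦ he]
        have h0 : v (e i) ≠ 0 :=
          (Valuation.ne_zero_iff _).2 (hΦ.n0 _ (he.1.mem (by omega)))
        rw [div_le_one₀ (zero_lt_iff.2 h0)]
        exact he.2 _ _ (by omega) (by omega) }
  irr := fun _ => id
  sym := fun _ _ => id
  mono := by
    intro j j' i hjj
    unfold N0
    split_ifs
    · exact le_rfl
    · omega
    · omega
    · exact le_rfl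
  z0 := fun i => by
    rw [N0_zero]
    rfl
  en := by
    intro Γ _ v hv
    obtain ⟨e, he⟩ := exists_srt v Φ
    exact ⟨e, he.1, sys0_en hΦ hv he⟩
  ex := fun _ _ _ _ _ _ h => h.elim
  un := by
    intro Γ _ v hv ξ hξ0 hξ1 _ e he hev
    have hsrt : Srt Φ v e := by
      refine ⟨he, fun i j hij hj => ?_⟩
      rw [hev j hj, hev i (by omega)]
      refine mz_anti hξ0 hξ1 fun l => ?_
      unfold N0
      split_ifs <;> omega
    have e0 : ∀ j, j < Φ.card → v (e j) ≠ 0 := fun j hj =>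
      (Valuation.ne_zero_iff _).2 (hΦ.n0 _ (he.mem hj))
    funext i
    have hi := i.2
    rw [al0 hΦ hsrt, hev (i + 1) (by omega), mz_N0 hξ0 hi, ← hev i (by omega)]
    rw [mul_comm, mul_div_assoc, div_self (e0 i (by omega)), mul_one]
  hm := by
    intro K0 t ht h
    refine ⟨fun i => ((i : ℕ) + 2 : ℕ) + ((i : ℕ) : ℤ), fun i => ⟨?_, ?_⟩⟩
    · exact (hf_Pm ht h _).mul ht (hf_Pm ht h _)
    · have h1 := (hf_Pm ht h ((i : ℕ) + 1)).mul ht (hf_Pm ht h ((i : ℕ) + 1))
      have h2 : ((((i : ℕ) + 1 : ℕ) : ℤ) + (((i : ℕ) + 1 : ℕ) : ℤ)) =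
          (((i : ℕ) + 2 : ℕ) : ℤ) + ((i : ℕ) : ℤ) := by push_cast; ring
      rw [h2] at h1
      exact h1
  la := by
    let c : ℕ → Fin (Φ.card - 1) → ℤ := fun m => ∑ j ∈ range m, vz (N0 Φ j)
    refine ⟨fun j => j.elim 0 (Sum.elim (fun i => c (i + 2) + c i)
      (fun i => c (i + 1) + c (i + 1))), ?_⟩
    intro Γ _ v hv
    obtain ⟨e, he⟩ := exists_srt v Φ
    have e0 : ∀ j, j < Φ.card → v (e j) ≠ 0 := fun j hj =>
      (Valuation.ne_zero_iff _).2 (hΦ.n0 _ (he.1.mem hj))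
    have hne : ∀ i, al (A0 Φ) (B0 Φ) v i ≠ 0 := fun i => by
      have hi := i.2
      rw [al0 hΦ he]
      exact div_ne_zero (e0 _ (by omega)) (e0 _ (by omega))
    have hc : ∀ m ≤ Φ.card, mx v (Pm Φ m) = mz (al (A0 Φ) (B0 Φ) v) (c m) := by
      intro m hm
      rw [he.mx_Pm hm, mz_sum hne]
      refine Finset.prod_congr rfl fun j hj => ?_
      exact sys0_en hΦ hv he j (by have := Finset.mem_range.1 hj; omega)
    rintro (_ | i | i)
    · change mx v Φ = mz _ 0
      rw [hv.2, mz_zero]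
    · have hi := i.2
      change mx v (Pm Φ (i + 2) * Pm Φ i) = mz _ (c (i + 2) + c i)
      rw [mx_mul (fam_Pm hΦ (by omega)).ne (fam_Pm hΦ (by omega)).ne, hc _ (by omega),
        hc _ (by omega), mz_add hne]
    · have hi := i.2
      change mx v (Pm Φ (i + 1) * Pm Φ (i + 1)) = mz _ (c (i + 1) + c (i + 1))
      rw [mx_mul (fam_Pm hΦ (by omega)).ne (fam_Pm hΦ (by omega)).ne, hc _ (by omega),
        mz_add hne]

end sys0

end Pool.Agent.Helper49.PQ
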