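import Pool.Agent.Helper49.PQ.SysA

/-!
# Refinement of systems of coordinates
-/

set_option autoImplicit false
set_option linter.unusedSectionVars false

namespace Pool.Agent.Helper49.PQ

open Finset Pointwise Pool.Agent.Helper46.AQ

section ref

variable {k K : Type} [Field k] [Field K] [Algebra k K] [DecidableEq K] {G : Type} [Group G]
  {ρ : G →* (K ≃ₐ[k] K)} {B : Subalgebra k K} {Φ : Finset K}
  {ι : Type} [Fintype ι] [DecidableEq ι] {A B' : ι → Finset K} {Ex : ι → ι → Prop}
  {N : ℕ → ι → ℕ} {i0 j0 : ι}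

/-- The refined families. -/
def rA (A B' : ι → Finset K) (i0 j0 : ι) : Option ι → Finset K
  | none => A i0 * B' j0 ∪ A j0 * B' i0
  | some i => if i = i0 then A i0 * B' j0 else if i = j0 then A j0 * B' i0 else A i

/-- The refined families. -/
def rB (A B' : ι → Finset K) (i0 j0 : ι) : Option ι → Finset K
  | none => B' i0 * B' j0
  | some i => if i = i0 ∨ i = j0 then A i0 * B' j0 ∪ A j0 * B' i0 else B' i

/-- The refined vectors. -/
def rv {R : Type} [Add R] (i0 j0 : ι) (m : ι → R) : Option ι → R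
  | none => m i0 + m j0
  | some i => m i

/-- The refined relation. -/
def rE (Ex : ι → ι → Prop) (i0 j0 : ι) : Option ι → Option ι → Prop
  | none, none => False
  | none, some b => Ex i0 b ∨ Ex j0 b
  | some b, none => Ex i0 b ∨ Ex j0 b
  | some a, some b => Ex a b ∨ (a = i0 ∧ b = j0) ∨ (a = j0 ∧ b = i0)

variable {Γ : Type} [LinearOrderedCommGroupWithZero Γ] {v : Valuation K Γ}

/-- The tuple downstairs. -/
def dn (i0 j0 : ι) (ξ : Option ι → Γ) (i : ι) : Γ :=
  ξ (some i) * ((if i = i0 then ξ none else 1) * (if i = j0 then ξ none else 1))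

lemma mz_rv {ξ : Option ι → Γ} (hξ : ∀ i, ξ i ≠ 0) (m : ι → ℤ) :
    mz ξ (rv i0 j0 m) = mz (dn i0 j0 ξ) m := by
  unfold mz dn
  rw [Fintype.prod_option]
  have h1 : ∀ i, (ξ (some i) * ((if i = i0 then ξ none else 1) * (if i = j0 then ξ none else 1))) ^
      m i = ξ (some i) ^ m i * ((if i = i0 then ξ none ^ m i else 1) *
        (if i = j0 then ξ none ^ m i else 1)) := by
    intro i
    rw [mul_zpow, mul_zpow]
    congr 2
    · split_ifs
      · rfl
      · rw [one_zpow]
    · split_ifs
      · rfl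
      · rw [one_zpow]
  rw [Finset.prod_congr rfl fun i _ => h1 i, Finset.prod_mul_distrib, Finset.prod_mul_distrib,
    Finset.prod_ite_eq', Finset.prod_ite_eq', if_pos (Finset.mem_univ _),
    if_pos (Finset.mem_univ _), mul_comm]
  congr 1
  change ξ none ^ (m i0 + m j0) = _
  rw [zpow_add₀ (hξ none)]

lemma vz_rv (m : ι → ℕ) : vz (rv i0 j0 m) = rv i0 j0 (vz m) := by
  funext o
  rcases o with _ | i
  · simp [vz, rv]
  · rfl

lemma rv_sub (m m' : ι → ℤ) : rv i0 j0 (m - m') = rv i0 j0 m - rv i0 j0 m' := by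
  funext o
  rcases o with _ | i
  · simp only [rv, Pi.sub_apply]
    ring
  · rfl

section fams

variable (h : PC ρ B Φ A B') (hne : i0 ≠ j0)

include h in
lemma fam_max : Fam ρ B (A i0 * B' j0 ∪ A j0 * B' i0) :=
  ((h.fA i0).mul (h.fB j0)).union ((h.fA j0).mul (h.fB i0))

include h in
lemma mx_max : mx v (A i0 * B' j0 ∪ A j0 * B' i0) =
    max (al A B' v i0) (al A B' v j0) * (mx v (B' i0) * mx v (B' j0)) := by
  have h1 : mx v (B' i0) ≠ 0 := mx_ne_zero (h.fB i0).ne (h.fB i0).n0
  have h2 : mx v (B' j0) ≠ 0 := mx_ne_zero (h.fB j0).ne (h.fB j0).n0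
  have h3 : mx v (A i0 * B' j0) = al A B' v i0 * (mx v (B' i0) * mx v (B' j0)) := by
    rw [mx_mul (h.fA i0).ne (h.fB j0).ne]
    unfold al
    field_simp
  have h4 : mx v (A j0 * B' i0) = al A B' v j0 * (mx v (B' i0) * mx v (B' j0)) := by
    rw [mx_mul (h.fA j0).ne (h.fB i0).ne]
    unfold al
    field_simp
  rw [mx_union, h3, h4]
  rcases le_total (al A B' v i0) (al A B' v j0) with h5 | h5
  · rw [max_eq_right h5, max_eq_right (mul_le_mul_left h5 _)]
  · rw [max_eq_left h5, max_eq_left (mul_le_mul_left h5 _)]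

include h in
lemma al_none : al (rA A B' i0 j0) (rB A B' i0 j0) v none =
    max (al A B' v i0) (al A B' v j0) := by
  have h1 : mx v (B' i0) ≠ 0 := mx_ne_zero (h.fB i0).ne (h.fB i0).n0
  have h2 : mx v (B' j0) ≠ 0 := mx_ne_zero (h.fB j0).ne (h.fB j0).n0
  change mx v (A i0 * B' j0 ∪ A j0 * B' i0) / mx v (B' i0 * B' j0) = _
  rw [mx_max h, mx_mul (h.fB i0).ne (h.fB j0).ne, mul_div_assoc, div_self (mul_ne_zero h1 h2),
    mul_one]

include h in
lemma max_ne : max (al A B' v i0) (al A B' v j0) ≠ 0 := by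
  rcases max_choice (al A B' v i0) (al A B' v j0) with h1 | h1
  · rw [h1]; exact h.al_ne v _
  · rw [h1]; exact h.al_ne v _

include h in
lemma al_i0 : al (rA A B' i0 j0) (rB A B' i0 j0) v (some i0) =
    al A B' v i0 / max (al A B' v i0) (al A B' v j0) := by
  have h1 : mx v (B' i0) ≠ 0 := mx_ne_zero (h.fB i0).ne (h.fB i0).n0
  have h2 : mx v (B' j0) ≠ 0 := mx_ne_zero (h.fB j0).ne (h.fB j0).n0
  have h3 := max_ne (v := v) (i0 := i0) (j0 := j0) h
  have e1 : rA A B' i0 j0 (some i0) = A i0 * B' j0 := if_pos rfl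
  have e2 : rB A B' i0 j0 (some i0) = A i0 * B' j0 ∪ A j0 * B' i0 := if_pos (Or.inl rfl)
  unfold al at h3 ⊢
  rw [e1, e2, mx_max h, mx_mul (h.fA i0).ne (h.fB j0).ne]
  unfold al
  field_simp

include h hne in
lemma al_j0 : al (rA A B' i0 j0) (rB A B' i0 j0) v (some j0) =
    al A B' v j0 / max (al A B' v i0) (al A B' v j0) := by
  have h1 : mx v (B' i0) ≠ 0 := mx_ne_zero (h.fB i0).ne (h.fB i0).n0
  have h2 : mx v (B' j0) ≠ 0 := mx_ne_zero (h.fB j0).ne (h.fB j0).n0
  have h3 := max_ne (v := v) (i0 := i0) (j0 := j0) h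
  have e1 : rA A B' i0 j0 (some j0) = A j0 * B' i0 := by
    change (if j0 = i0 then A i0 * B' j0 else if j0 = j0 then A j0 * B' i0 else A j0) = _
    rw [if_neg (Ne.symm hne), if_pos rfl]
  have e2 : rB A B' i0 j0 (some j0) = A i0 * B' j0 ∪ A j0 * B' i0 := if_pos (Or.inr rfl)
  unfold al at h3 ⊢
  rw [e1, e2, mx_max h, mx_mul (h.fA j0).ne (h.fB i0).ne]
  unfold al
  field_simp

lemma al_some {i : ι} (h1 : i ≠ i0) (h2 : i ≠ j0) :
    al (rA A B' i0 j0) (rB A B' i0 j0) v (some i) = al A B' v i := by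
  have e1 : rA A B' i0 j0 (some i) = A i := by
    change (if i = i0 then A i0 * B' j0 else if i = j0 then A j0 * B' i0 else A i) = _
    rw [if_neg h1, if_neg h2]
  have e2 : rB A B' i0 j0 (some i) = B' i := by
    change (if i = i0 ∨ i = j0 then _ else B' i) = _
    rw [if_neg (by tauto)]
  unfold al
  rw [e1, e2]

include h hne in
lemma dn_al : dn i0 j0 (al (rA A B' i0 j0) (rB A B' i0 j0) v) = al A B' v := by
  funext i
  unfold dn
  have h3 := max_ne (v := v) (i0 := i0) (j0 := j0) h
  by_cases h1 : i = i0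
  · subst h1
    rw [if_pos rfl, if_neg hne, mul_one, al_none h, al_i0 h, div_mul_cancel₀ _ h3]
  · by_cases h2 : i = j0
    · subst h2
      rw [if_pos rfl, if_neg h1, one_mul, al_none h, al_j0 h hne, div_mul_cancel₀ _ h3]
    · rw [if_neg h1, if_neg h2, mul_one, mul_one, al_some h1 h2]

include h hne in
lemma pc_ref : PC ρ B Φ (rA A B' i0 j0) (rB A B' i0 j0) where
  fΦ := h.fΦ
  fA := by
    rintro (_ | i)
    · exact fam_max h
    · change Fam ρ B (if i = i0 then A i0 * B' j0 else if i = j0 then A j0 * B' i0 else A i)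
      split_ifs
      · exact (h.fA _).mul (h.fB _)
      · exact (h.fA _).mul (h.fB _)
      · exact h.fA _
  fB := by
    rintro (_ | i)
    · exact (h.fB _).mul (h.fB _)
    · change Fam ρ B (if i = i0 ∨ i = j0 then A i0 * B' j0 ∪ A j0 * B' i0 else B' i)
      split_ifs
      · exact fam_max h
      · exact h.fB _
  le1 := by
    intro Γ _ v hv
    have h3 := max_ne (v := v) (i0 := i0) (j0 := j0) h
    rintro (_ | i)
    · rw [al_none h]
      exact max_le (h.le1 Γ v hv _) (h.le1 Γ v hv _)
    · by_cases h1 : i = i0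
      · subst h1
        rw [al_i0 h, div_le_one₀ (zero_lt_iff.2 h3)]
        exact le_max_left _ _
      · by_cases h2 : i = j0
        · subst h2
          rw [al_j0 h hne, div_le_one₀ (zero_lt_iff.2 h3)]
          exact le_max_right _ _
        · rw [al_some h1 h2]
          exact h.le1 Γ v hv _

end fams

/-- The refined system. -/
theorem Sys.ref (h : Sys ρ B Φ A B' Ex N) (hne : i0 ≠ j0) (hEx : ¬ Ex i0 j0) :
    Sys ρ B Φ (rA A B' i0 j0) (rB A B' i0 j0) (rE Ex i0 j0) (fun j => rv i0 j0 (N j)) where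
  pc := pc_ref h.pc hne
  irr := by
    rintro (_ | i)
    · exact id
    · rintro (h1 | ⟨h1, h2⟩ | ⟨h1, h2⟩)
      · exact h.irr _ h1
      · exact hne (h1.symm.trans h2)
      · exact hne (h2.symm.trans h1)
  sym := by
    rintro (_ | a) (_ | b) h1
    · exact h1
    · exact h1
    · exact h1
    · rcases h1 with h1 | ⟨h1, h2⟩ | ⟨h1, h2⟩
      · exact Or.inl (h.sym _ _ h1)
      · exact Or.inr (Or.inr ⟨h2, h1⟩)
      · exact Or.inr (Or.inl ⟨h2, h1⟩)
  mono := by
    rintro j j' (_ | i) hj
    · exact add_le_add (h.mono _ _ _ hj) (h.mono _ _ _ hj)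
    · exact h.mono _ _ _ hj
  z0 := by
    rintro (_ | i)
    · change N 0 i0 + N 0 j0 = 0
      rw [h.z0, h.z0]
    · exact h.z0 i
  en := by
    intro Γ _ v hv
    obtain ⟨e, he, h1⟩ := h.en Γ v hv
    refine ⟨e, he, fun j hj => ?_⟩
    rw [vz_rv, mz_rv ((pc_ref h.pc hne).al_ne v), dn_al h.pc hne]
    exact h1 j hj
  ex := by
    intro Γ _ v hv
    have hn := max_ne (v := v) (i0 := i0) (j0 := j0) h.pc
    have hle := h.pc.le1 Γ v hv
    -- if a coordinate is one then so is the new one
    have key : ∀ b, Ex i0 b ∨ Ex j0 b → al (rA A B' i0 j0) (rB A B' i0 j0) v none = 1 ∨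
        al (rA A B' i0 j0) (rB A B' i0 j0) v (some b) = 1 := by
      intro b hb
      have hb0 : b ≠ i0 := by
        rintro rfl
        rcases hb with hb | hb
        · exact h.irr _ hb
        · exact hEx (h.sym _ _ hb)
      have hb1 : b ≠ j0 := by
        rintro rfl
        rcases hb with hb | hb
        · exact hEx hb
        · exact h.irr _ hb
      rw [al_some hb0 hb1, al_none h.pc]
      rcases hb with hb | hb
      · rcases h.ex Γ v hv _ _ hb with h1 | h1
        · left
          exact le_antisymm (max_le (hle _) (hle _)) (h1 ▸ le_max_left _ _)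
        · exact Or.inr h1
      · rcases h.ex Γ v hv _ _ hb with h1 | h1
        · left
          exact le_antisymm (max_le (hle _) (hle _)) (h1 ▸ le_max_right _ _)
        · exact Or.inr h1
    have one : ∀ a, al A B' v a = 1 →
        al (rA A B' i0 j0) (rB A B' i0 j0) v (some a) = 1 := by
      intro a ha
      by_cases h1 : a = i0
      · subst h1
        have h2 : max (al A B' v a) (al A B' v j0) = 1 :=
          le_antisymm (max_le (hle _) (hle _)) (ha ▸ le_max_left _ _)
        rw [al_i0 h.pc, h2, ha, div_one]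
      · by_cases h2 : a = j0
        · subst h2
          have h3 : max (al A B' v i0) (al A B' v a) = 1 :=
            le_antisymm (max_le (hle _) (hle _)) (ha ▸ le_max_right _ _)
          rw [al_j0 h.pc hne, h3, ha, div_one]
        · rw [al_some h1 h2, ha]
    have new : al (rA A B' i0 j0) (rB A B' i0 j0) v (some i0) = 1 ∨
        al (rA A B' i0 j0) (rB A B' i0 j0) v (some j0) = 1 := by
      rw [al_i0 h.pc, al_j0 h.pc hne]
      rcases max_choice (al A B' v i0) (al A B' v j0) with h1 | h1
      · left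
        rw [h1]
        exact div_self (h.pc.al_ne v _)
      · right
        rw [h1]
        exact div_self (h.pc.al_ne v _)
    rintro (_ | a) (_ | b) h1
    · exact h1.elim
    · exact key b h1
    · exact (key a h1).symm
    · rcases h1 with h1 | ⟨h1, h2⟩ | ⟨h1, h2⟩
      · exact (h.ex Γ v hv _ _ h1).imp (one a) (one b)
      · rw [h1, h2]
        exact new
      · rw [h1, h2]
        exact new.symm
  un := by
    intro Γ _ v hv ξ hξ0 hξ1 hξE e he hev
    have hη0 : ∀ i, dn i0 j0 ξ i ≠ 0 := by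
      intro i
      unfold dn
      refine mul_ne_zero (hξ0 _) (mul_ne_zero ?_ ?_)
      · split_ifs
        · exact hξ0 _
        · exact one_ne_zero
      · split_ifs
        · exact hξ0 _
        · exact one_ne_zero
    have hη1 : ∀ i, dn i0 j0 ξ i ≤ 1 := by
      intro i
      unfold dn
      refine mul_le_one' (hξ1 _) (mul_le_one' ?_ ?_)
      · split_ifs
        · exact hξ1 _
        · exact le_rfl
      · split_ifs
        · exact hξ1 _
        · exact le_rfl
    have hs : ∀ b, b ≠ i0 → b ≠ j0 → dn i0 j0 ξ b = ξ (some b) := by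
      intro b h1 h2
      unfold dn
      rw [if_neg h1, if_neg h2, mul_one, mul_one]
    have hi0 : dn i0 j0 ξ i0 = ξ (some i0) * ξ none := by
      unfold dn
      rw [if_pos rfl, if_neg hne, mul_one]
    have hj0 : dn i0 j0 ξ j0 = ξ (some j0) * ξ none := by
      unfold dn
      rw [if_pos rfl, if_neg (Ne.symm hne), one_mul]
    have hEa : ∀ b, Ex i0 b → dn i0 j0 ξ i0 = 1 ∨ dn i0 j0 ξ b = 1 := by
      intro b hb
      have hb0 : b ≠ i0 := by rintro rfl; exact h.irr _ hb
      have hb1 : b ≠ j0 := by rintro rfl; exact hEx hb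
      rw [hi0, hs b hb0 hb1]
      rcases hξE (some i0) (some b) (Or.inl hb) with h1 | h1
      · rcases hξE none (some b) (Or.inl hb) with h2 | h2
        · left; rw [h1, h2, one_mul]
        · exact Or.inr h2
      · exact Or.inr h1
    have hEb : ∀ b, Ex j0 b → dn i0 j0 ξ j0 = 1 ∨ dn i0 j0 ξ b = 1 := by
      intro b hb
      have hb0 : b ≠ j0 := by rintro rfl; exact h.irr _ hb
      have hb1 : b ≠ i0 := by rintro rfl; exact hEx (h.sym _ _ hb)
      rw [hj0, hs b hb1 hb0]
      rcases hξE (some j0) (some b) (Or.inl hb) with h1 | h1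
      · rcases hξE none (some b) (Or.inr hb) with h2 | h2
        · left; rw [h1, h2, one_mul]
        · exact Or.inr h2
      · exact Or.inr h1
    have hη : dn i0 j0 ξ = al A B' v := by
      refine h.un Γ v hv _ hη0 hη1 ?_ e he ?_
      · intro a b hab
        by_cases ha0 : a = i0
        · subst ha0
          exact hEa b hab
        · by_cases ha1 : a = j0
          · subst ha1
            exact hEb b hab
          · by_cases hb0 : b = i0
            · subst hb0
              exact (hEa a (h.sym _ _ hab)).symm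
            · by_cases hb1 : b = j0
              · subst hb1
                exact (hEb a (h.sym _ _ hab)).symm
              · rw [hs a ha0 ha1, hs b hb0 hb1]
                exact hξE _ _ (Or.inl hab)
      · intro j hj
        rw [hev j hj, vz_rv, mz_rv hξ0]
    have hnone : ξ none = max (al A B' v i0) (al A B' v j0) := by
      rw [← hη, hi0, hj0]
      rcases hξE (some i0) (some j0) (Or.inr (Or.inl ⟨rfl, rfl⟩)) with h1 | h1
      · rw [h1, one_mul, max_eq_left]
        calc ξ (some j0) * ξ none ≤ 1 * ξ none := mul_le_mul_left (hξ1 _) _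
          _ = ξ none := one_mul _
      · rw [h1, one_mul, max_eq_right]
        calc ξ (some i0) * ξ none ≤ 1 * ξ none := mul_le_mul_left (hξ1 _) _
          _ = ξ none := one_mul _
    funext o
    rcases o with _ | i
    · rw [hnone, al_none h.pc]
    · by_cases h1 : i = i0
      · subst h1
        rw [al_i0 h.pc, ← hnone, ← hη, hi0, mul_div_assoc, div_self (hξ0 _), mul_one]
      · by_cases h2 : i = j0
        · subst h2
          rw [al_j0 h.pc hne, ← hnone, ← hη, hj0, mul_div_assoc, div_self (hξ0 _), mul_one]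
        · rw [al_some h1 h2, ← hη, hs i h1 h2]
  hm := by
    intro K0 t ht hΦ
    obtain ⟨δ, hδ⟩ := h.hm K0 t ht hΦ
    have e1 : δ j0 + δ i0 = δ i0 + δ j0 := add_comm _ _
    have hmax : HF K0 t (δ i0 + δ j0) (A i0 * B' j0 ∪ A j0 * B' i0) := by
      refine ((hδ i0).1.mul ht (hδ j0).2).union ?_
      have h1 := (hδ j0).1.mul ht (hδ i0).2
      rwa [e1] at h1
    refine ⟨fun o => o.elim (δ i0 + δ j0) fun i => if i = i0 ∨ i = j0 then δ i0 + δ j0 else δ i,
      ?_⟩
    rintro (_ | i)
    · exact ⟨hmax, (hδ i0).2.mul ht (hδ j0).2⟩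
    · change HF K0 t (if i = i0 ∨ i = j0 then δ i0 + δ j0 else δ i)
          (if i = i0 then A i0 * B' j0 else if i = j0 then A j0 * B' i0 else A i) ∧
        HF K0 t (if i = i0 ∨ i = j0 then δ i0 + δ j0 else δ i)
          (if i = i0 ∨ i = j0 then A i0 * B' j0 ∪ A j0 * B' i0 else B' i)
      by_cases h1 : i = i0
      · rw [if_pos h1, if_pos (Or.inl h1), if_pos (Or.inl h1)]
        exact ⟨(hδ i0).1.mul ht (hδ j0).2, hmax⟩
      · by_cases h2 : i = j0
        · rw [if_neg h1, if_pos h2, if_pos (Or.inr h2), if_pos (Or.inr h2)]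
          refine ⟨?_, hmax⟩
          have h1 := (hδ j0).1.mul ht (hδ i0).2
          rwa [e1] at h1
        · have h3 : ¬ (i = i0 ∨ i = j0) := by tauto
          rw [if_neg h1, if_neg h2, if_neg h3, if_neg h3]
          exact hδ i
  la := by
    obtain ⟨c, hc⟩ := h.la
    let cm : ι → ℤ := c (some (Sum.inr i0)) + c (some (Sum.inr j0))
    -- vector of the maximum
    let cx : Option ι → ℤ := Pi.single none 1 + rv i0 j0 cm
    let c' : Option (Option ι ⊕ Option ι) → Option ι → ℤ := fun j => j.elim 0 (Sum.elim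
      (fun o => o.elim cx fun i =>
        if i = i0 then rv i0 j0 (c (some (Sum.inl i0)) + c (some (Sum.inr j0))) else
        if i = j0 then rv i0 j0 (c (some (Sum.inl j0)) + c (some (Sum.inr i0))) else
          rv i0 j0 (c (some (Sum.inl i))))
      (fun o => o.elim (rv i0 j0 cm) fun i => if i = i0 ∨ i = j0 then cx else
        rv i0 j0 (c (some (Sum.inr i)))))
    refine ⟨c', ?_⟩
    intro Γ _ v hv
    have hne' := (pc_ref h.pc hne).al_ne v
    have hr : ∀ m : ι → ℤ, mz (al (rA A B' i0 j0) (rB A B' i0 j0) v) (rv i0 j0 m) =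
        mz (al A B' v) m := fun m => by rw [mz_rv hne', dn_al h.pc hne]
    have hA : ∀ i, mx v (A i) = mz (al A B' v) (c (some (Sum.inl i))) := fun i =>
      hc Γ v hv (some (Sum.inl i))
    have hB : ∀ i, mx v (B' i) = mz (al A B' v) (c (some (Sum.inr i))) := fun i =>
      hc Γ v hv (some (Sum.inr i))
    have hal := h.pc.al_ne v
    have hcx : mx v (A i0 * B' j0 ∪ A j0 * B' i0) =
        mz (al (rA A B' i0 j0) (rB A B' i0 j0) v) cx := by
      rw [mx_max h.pc, mz_add hne', hr, mz_single, zpow_one, al_none h.pc, mz_add hal, hB, hB]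
    rintro (_ | (_ | i) | (_ | i))
    · change mx v Φ = mz _ 0
      rw [hv.2, mz_zero]
    · exact hcx
    · change mx v (if i = i0 then A i0 * B' j0 else if i = j0 then A j0 * B' i0 else A i) =
        mz _ (if i = i0 then rv i0 j0 (c (some (Sum.inl i0)) + c (some (Sum.inr j0))) else
          if i = j0 then rv i0 j0 (c (some (Sum.inl j0)) + c (some (Sum.inr i0))) else
            rv i0 j0 (c (some (Sum.inl i))))
      split_ifs
      · rw [mx_mul (h.pc.fA _).ne (h.pc.fB _).ne, hr, mz_add hal, hA, hB]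
      · rw [mx_mul (h.pc.fA _).ne (h.pc.fB _).ne, hr, mz_add hal, hA, hB]
      · rw [hr, hA]
    · change mx v (B' i0 * B' j0) = mz _ (rv i0 j0 cm)
      rw [mx_mul (h.pc.fB _).ne (h.pc.fB _).ne, hr, mz_add hal, hB, hB]
    · change mx v (if i = i0 ∨ i = j0 then A i0 * B' j0 ∪ A j0 * B' i0 else B' i) =
        mz _ (if i = i0 ∨ i = j0 then cx else rv i0 j0 (c (some (Sum.inr i))))
      split_ifs
      · exact hcx
      · rw [hr, hB]

end ref

end Pool.Agent.Helper49.PQ
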