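import Pool.Agent.Helper49.PQ.SysB

/-!
# Existence of systems of coordinates with comparable differences
-/

set_option autoImplicit false
set_option linter.unusedSectionVars false

namespace Pool.Agent.Helper49.PQ

open Finset Pointwise Pool.Agent.Helper46.AQ

/-- The vector has no opposite signs. -/
def Cmp {ι : Type} (Ex : ι → ι → Prop) (d : ι → ℤ) : Prop :=
  ∀ i j, ¬ Ex i j → 0 < d i → ¬ d j < 0

section comb

variable {ι : Type} [DecidableEq ι] {Ex : ι → ι → Prop} {i0 j0 : ι} {d : ι → ℤ}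

lemma Cmp.ref (hs : ∀ i j, Ex i j → Ex j i) (h : Cmp Ex d) : Cmp (rE Ex i0 j0) (rv i0 j0 d) := by
  rintro (_ | a) (_ | b) hE h1 h2
  · exact absurd h2 (not_lt.2 h1.le)
  · have hE' : ¬ (Ex i0 b ∨ Ex j0 b) := hE
    push Not at hE'
    change 0 < d i0 + d j0 at h1
    change d b < 0 at h2
    by_cases h3 : 0 < d i0
    · exact h _ _ hE'.1 h3 h2
    · exact h _ _ hE'.2 (by omega) h2
  · have hE' : ¬ (Ex i0 a ∨ Ex j0 a) := hE
    push Not at hE'
    change d i0 + d j0 < 0 at h2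
    change 0 < d a at h1
    by_cases h3 : d i0 < 0
    · exact h _ _ (fun h4 => hE'.1 (hs _ _ h4)) h1 h3
    · exact h _ _ (fun h4 => hE'.2 (hs _ _ h4)) h1 (by omega)
  · have hE' : ¬ (Ex a b ∨ (a = i0 ∧ b = j0) ∨ (a = j0 ∧ b = i0)) := hE
    exact h a b (fun h4 => hE' (Or.inl h4)) h1 h2

/-- The pairs of opposite signs of weight `m`. -/
def bad (Ex : ι → ι → Prop) (d : ι → ℤ) (m : ℕ) : Set (ι × ι) :=
  {x | ¬ Ex x.1 x.2 ∧ 0 < d x.1 ∧ d x.2 < 0 ∧ d x.1 - d x.2 = m}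

lemma ref_bound (hs : ∀ i j, Ex i j → Ex j i) (h1 : 0 < d i0) (h2 : d j0 < 0)
    {m : ℕ} (hm : ∀ i j, ¬ Ex i j → 0 < d i → d j < 0 → d i - d j ≤ m) :
    ∀ i j, ¬ rE Ex i0 j0 i j → 0 < rv i0 j0 d i → rv i0 j0 d j < 0 →
      rv i0 j0 d i - rv i0 j0 d j ≤ m := by
  rintro (_ | a) (_ | b) hE' h3 h4
  · exact absurd h4 (not_lt.2 h3.le)
  · have hE'' : ¬ (Ex i0 b ∨ Ex j0 b) := hE'
    push Not at hE''
    change d i0 + d j0 - d b ≤ m
    have := hm i0 b hE''.1 h1 h4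
    omega
  · have hE'' : ¬ (Ex i0 a ∨ Ex j0 a) := hE'
    push Not at hE''
    change d a - (d i0 + d j0) ≤ m
    have := hm a j0 (fun h5 => hE''.2 (hs _ _ h5)) h3 h2
    omega
  · exact hm a b (fun h5 => hE' (Or.inl h5)) h3 h4

lemma ref_bad (hs : ∀ i j, Ex i j → Ex j i) (h1 : 0 < d i0) (h2 : d j0 < 0)
    {m : ℕ} (hm : ∀ i j, ¬ Ex i j → 0 < d i → d j < 0 → d i - d j ≤ m) :
    bad (rE Ex i0 j0) (rv i0 j0 d) m ⊆ (Prod.map some some) '' (bad Ex d m \ {(i0, j0)}) := by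
  rintro ⟨_ | a, _ | b⟩ ⟨hE', h3, h4, h5⟩
  · exact absurd h4 (not_lt.2 h3.le)
  · have hE'' : ¬ (Ex i0 b ∨ Ex j0 b) := hE'
    push Not at hE''
    change d b < 0 at h4
    change d i0 + d j0 - d b = m at h5
    have := hm i0 b hE''.1 h1 h4
    omega
  · have hE'' : ¬ (Ex i0 a ∨ Ex j0 a) := hE'
    push Not at hE''
    change 0 < d a at h3
    change d a - (d i0 + d j0) = m at h5
    have := hm a j0 (fun h5 => hE''.2 (hs _ _ h5)) h3 h2
    omega
  · have hE'' : ¬ (Ex a b ∨ (a = i0 ∧ b = j0) ∨ (a = j0 ∧ b = i0)) := hE'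
    refine ⟨(a, b), ⟨⟨fun h6 => hE'' (Or.inl h6), h3, h4, h5⟩, ?_⟩, rfl⟩
    intro h6
    rw [Set.mem_singleton_iff, Prod.mk.injEq] at h6
    exact hE'' (Or.inr (Or.inl h6))

end comb

section SY

variable {k K : Type} [Field k] [Field K] [Algebra k K] [DecidableEq K] {G : Type} [Group G]

/-- Bundled systems of coordinates. -/
structure SY (ρ : G →* (K ≃ₐ[k] K)) (B : Subalgebra k K) (Φ : Finset K) where
  ι : Type
  fi : Fintype ι
  di : DecidableEq ι
  A : ι → Finset K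
  B' : ι → Finset K
  Ex : ι → ι → Prop
  N : ℕ → ι → ℕ
  sys : Sys ρ B Φ A B' Ex N

/-- The differences. -/
def dq {ι : Type} (N : ℕ → ι → ℕ) (q : ℕ × ℕ × ℕ × ℕ) : ι → ℤ :=
  (vz (N q.1) - vz (N q.2.1)) - (vz (N q.2.2.1) - vz (N q.2.2.2))

lemma dq_rv {ι : Type} [Fintype ι] [DecidableEq ι] (i0 j0 : ι) (N : ℕ → ι → ℕ) (q : ℕ × ℕ × ℕ × ℕ) :
    dq (fun j => rv i0 j0 (N j)) q = rv i0 j0 (dq N q) := by
  unfold dq
  rw [vz_rv, vz_rv, vz_rv, vz_rv, rv_sub, rv_sub, rv_sub]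

variable {ρ : G →* (K ≃ₐ[k] K)} {B : Subalgebra k K} {Φ : Finset K}

/-- The refined bundled system. -/
def SY.ref (X : SY ρ B Φ) (i0 j0 : X.ι) (hne : i0 ≠ j0) (hE : ¬ X.Ex i0 j0) : SY ρ B Φ :=
  let _ := X.fi
  let _ := X.di
  { ι := Option X.ι
    fi := inferInstance
    di := inferInstance
    A := rA X.A X.B' i0 j0
    B' := rB X.A X.B' i0 j0
    Ex := rE X.Ex i0 j0
    N := fun j => rv i0 j0 (X.N j)
    sys := X.sys.ref hne hE }

lemma exists_cmp_aux (q : ℕ × ℕ × ℕ × ℕ) (m : ℕ) : ∀ (X : SY ρ B Φ),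
    (∀ i j, ¬ X.Ex i j → 0 < dq X.N q i → dq X.N q j < 0 → dq X.N q i - dq X.N q j ≤ m) →
    ∃ X' : SY ρ B Φ, (∀ q', Cmp X.Ex (dq X.N q') → Cmp X'.Ex (dq X'.N q')) ∧
      Cmp X'.Ex (dq X'.N q) := by
  induction m with
  | zero =>
    intro X hX
    refine ⟨X, fun _ h => h, fun i j h1 h2 h3 => ?_⟩
    have := hX i j h1 h2 h3
    omega
  | succ m ih =>
    have key : ∀ (c : ℕ) (X : SY ρ B Φ), (∀ i j, ¬ X.Ex i j → 0 < dq X.N q i → dq X.N q j < 0 →
        dq X.N q i - dq X.N q j ≤ (m + 1 : ℕ)) → (bad X.Ex (dq X.N q) (m + 1)).ncard ≤ c →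
        ∃ X' : SY ρ B Φ, (∀ q', Cmp X.Ex (dq X.N q') → Cmp X'.Ex (dq X'.N q')) ∧
          Cmp X'.Ex (dq X'.N q) := by
      intro c
      induction c with
      | zero =>
        intro X hX hc
        have := X.fi
        have h1 : bad X.Ex (dq X.N q) (m + 1) = ∅ :=
          (Set.ncard_eq_zero (Set.toFinite _)).1 (Nat.le_zero.1 hc)
        refine ih X fun i j h2 h3 h4 => ?_
        have h5 := hX i j h2 h3 h4
        have h6 : ¬ dq X.N q i - dq X.N q j = (m + 1 : ℕ) := by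
          intro h7
          have : (i, j) ∈ bad X.Ex (dq X.N q) (m + 1) := ⟨h2, h3, h4, h7⟩
          rw [h1] at this
          exact this
        push_cast at h5 h6
        omega
      | succ c ihc =>
        intro X hX hc
        have := X.fi
        have := X.di
        by_cases h1 : bad X.Ex (dq X.N q) (m + 1) = ∅
        · refine ih X fun i j h2 h3 h4 => ?_
          have h5 := hX i j h2 h3 h4
          have h6 : ¬ dq X.N q i - dq X.N q j = (m + 1 : ℕ) := by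
            intro h7
            have : (i, j) ∈ bad X.Ex (dq X.N q) (m + 1) := ⟨h2, h3, h4, h7⟩
            rw [h1] at this
            exact this
          push_cast at h5 h6
          omega
        · obtain ⟨⟨i0, j0⟩, hb⟩ := Set.nonempty_iff_ne_empty.2 h1
          obtain ⟨hE, hi, hj, hw⟩ := hb
          replace hE : ¬ X.Ex i0 j0 := hE
          replace hi : 0 < dq X.N q i0 := hi
          replace hj : dq X.N q j0 < 0 := hj
          replace hw : dq X.N q i0 - dq X.N q j0 = (m + 1 : ℕ) := hw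
          have hne : i0 ≠ j0 := by
            rintro rfl
            exact absurd hj (not_lt.2 hi.le)
          let _ := X.fi
          let _ := X.di
          obtain ⟨X', hX'1, hX'2⟩ := ihc (X.ref i0 j0 hne hE) (by
            change ∀ i j, ¬ rE X.Ex i0 j0 i j → 0 < dq (fun j => rv i0 j0 (X.N j)) q i →
              dq (fun j => rv i0 j0 (X.N j)) q j < 0 →
              dq (fun j => rv i0 j0 (X.N j)) q i - dq (fun j => rv i0 j0 (X.N j)) q j ≤ _
            rw [dq_rv]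
            exact ref_bound X.sys.sym hi hj hX) (by
            change (bad (rE X.Ex i0 j0) (dq (fun j => rv i0 j0 (X.N j)) q) (m + 1)).ncard ≤ c
            rw [dq_rv]
            have h2 := ref_bad X.sys.sym hi hj hX
            have h3 := Set.ncard_le_ncard h2 (Set.toFinite _)
            have h4 : ((Prod.map some some) '' (bad X.Ex (dq X.N q) (m + 1) \ {(i0, j0)}) :
                Set (Option X.ι × Option X.ι)).ncard ≤
                (bad X.Ex (dq X.N q) (m + 1) \ {(i0, j0)}).ncard :=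
              Set.ncard_image_le (Set.toFinite _)
            have h5 : (bad X.Ex (dq X.N q) (m + 1) \ {(i0, j0)}).ncard <
                (bad X.Ex (dq X.N q) (m + 1)).ncard :=
              Set.ncard_sdiff_singleton_lt_of_mem ⟨hE, hi, hj, hw⟩ (Set.toFinite _)
            omega)
          refine ⟨X', fun q' hq' => hX'1 q' ?_, hX'2⟩
          change Cmp (rE X.Ex i0 j0) (dq (fun j => rv i0 j0 (X.N j)) q')
          rw [dq_rv]
          exact hq'.ref X.sys.sym
    intro X hX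
    exact key _ X hX le_rfl

lemma exists_cmp (q : ℕ × ℕ × ℕ × ℕ) (X : SY ρ B Φ) :
    ∃ X' : SY ρ B Φ, (∀ q', Cmp X.Ex (dq X.N q') → Cmp X'.Ex (dq X'.N q')) ∧
      Cmp X'.Ex (dq X'.N q) := by
  have := X.fi
  refine exists_cmp_aux q (∑ i, ∑ j, (dq X.N q i - dq X.N q j).toNat) X fun i j _ _ _ => ?_
  have h1 : (dq X.N q i - dq X.N q j).toNat ≤ ∑ j, (dq X.N q i - dq X.N q j).toNat :=
    Finset.single_le_sum (f := fun j => (dq X.N q i - dq X.N q j).toNat)
      (fun _ _ => Nat.zero_le _) (Finset.mem_univ j)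
  have h2 : ∑ j, (dq X.N q i - dq X.N q j).toNat ≤
      ∑ i, ∑ j, (dq X.N q i - dq X.N q j).toNat :=
    Finset.single_le_sum (f := fun i => ∑ j, (dq X.N q i - dq X.N q j).toNat)
      (fun _ _ => Nat.zero_le _) (Finset.mem_univ i)
  omega

/-- Existence of good systems. -/
theorem exists_SY (hΦ : Fam ρ B Φ) :
    ∃ X : SY ρ B Φ, ∀ q : ℕ × ℕ × ℕ × ℕ, q.1 < Φ.card → q.2.1 < Φ.card → q.2.2.1 < Φ.card →
      q.2.2.2 < Φ.card → Cmp X.Ex (dq X.N q) := by
  have key : ∀ l : List (ℕ × ℕ × ℕ × ℕ), ∃ X : SY ρ B Φ, ∀ q ∈ l, Cmp X.Ex (dq X.N q) := by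
    intro l
    induction l with
    | nil =>
      exact ⟨⟨_, inferInstance, inferInstance, _, _, _, _, sys0 hΦ⟩, by simp⟩
    | cons q l ih =>
      obtain ⟨X, hX⟩ := ih
      obtain ⟨X', h2, h3⟩ := exists_cmp q X
      refine ⟨X', fun q' hq' => ?_⟩
      rcases List.mem_cons.1 hq' with rfl | hq'
      · exact h3
      · exact h2 _ (hX _ hq')
  obtain ⟨X, hX⟩ := key ((range Φ.card ×ˢ range Φ.card ×ˢ range Φ.card ×ˢ range Φ.card).toList)
  refine ⟨X, fun q ha hb hc hd => hX q ?_⟩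
  rw [Finset.mem_toList]
  simp only [Finset.mem_product, Finset.mem_range]
  exact ⟨ha, hb, hc, hd⟩

end SY

end Pool.Agent.Helper49.PQ
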